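import Pool.Agent.H187R2.LT.StubsB

set_option autoImplicit false
open scoped Matrix BigOperators ComplexOrder
open MeasureTheory

namespace H187LT

/-! ## Several dimensions -/

/-- kinetic energy on `Fin d → ℝ` -/
noncomputable def Tkin {d N : ℕ} (u : Fin N → (Fin d → ℝ) → ℂ) : ℝ :=
  ∑ n, ∫ x, ∑ i : Fin d, ‖fderiv ℝ (u n) x (Pi.single i (1 : ℝ))‖ ^ 2

/-- Gram matrix -/
noncomputable def Gr {d N : ℕ} (u : Fin N → (Fin d → ℝ) → ℂ) : Mat N :=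
  fun i j => ∫ x, u i x * star (u j x)

/-- density -/
noncomputable def rho {d N : ℕ} (u : Fin N → (Fin d → ℝ) → ℂ) (x : Fin d → ℝ) : ℝ :=
  ∑ n, ‖u n x‖ ^ 2

/-- compactly supported `C¹` families -/
def CC {d N : ℕ} (u : Fin N → (Fin d → ℝ) → ℂ) : Prop :=
  ∀ n, ContDiff ℝ 1 (u n) ∧ HasCompactSupport (u n)

/-- slices in the first variable -/
def sl {d N : ℕ} (u : Fin N → (Fin (d + 1) → ℝ) → ℂ) (t : ℝ) : Fin N → (Fin d → ℝ) → ℂ :=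
  fun n y => u n (Fin.cons t y)

/-- Gram data of the slices -/
noncomputable def Gd {d N : ℕ} (u : Fin N → (Fin (d + 1) → ℝ) → ℂ) (t : ℝ) : Mat N :=
  Gr (sl u t)

/-- mixed Gram matrix of the slices -/
noncomputable def Qd {d N : ℕ} (u : Fin N → (Fin (d + 1) → ℝ) → ℂ) (t : ℝ) : Mat N :=
  fun i j => ∫ y : Fin d → ℝ, fderiv ℝ (u i) (Fin.cons t y : Fin (d + 1) → ℝ)
    (Pi.single 0 (1 : ℝ)) * star (u j (Fin.cons t y))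

/-- kinetic Gram matrix of the slices -/
noncomputable def Td {d N : ℕ} (u : Fin N → (Fin (d + 1) → ℝ) → ℂ) (t : ℝ) : Mat N :=
  fun i j => ∫ y : Fin d → ℝ, fderiv ℝ (u i) (Fin.cons t y : Fin (d + 1) → ℝ)
    (Pi.single 0 (1 : ℝ)) * star (fderiv ℝ (u j) (Fin.cons t y : Fin (d + 1) → ℝ)
      (Pi.single 0 (1 : ℝ)))

/-- D0: Fubini and continuity for continuous compactly supported functions. -/
def StFub : Prop := ∀ (d : ℕ) (E : Type) [NormedAddCommGroup E] [NormedSpace ℝ E] [CompleteSpace E]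
  (F : (Fin (d + 1) → ℝ) → E), Continuous F → HasCompactSupport F →
  Continuous (fun t : ℝ => ∫ y : Fin d → ℝ, F (Fin.cons t y)) ∧
  ∃ R0 : ℝ, 0 < R0 ∧ (∀ t : ℝ, R0 ≤ |t| → ∀ y : Fin d → ℝ, F (Fin.cons t y) = 0) ∧
    ∀ R : ℝ, R0 ≤ R →
      ∫ x, F x = ∫ t in (-R)..R, ∫ y : Fin d → ℝ, F (Fin.cons t y)

/-- D0': differentiation under the integral. -/
def StDif : Prop := ∀ (d : ℕ) (F : (Fin (d + 1) → ℝ) → ℂ), ContDiff ℝ 1 F → HasCompactSupport F →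
  ∀ t : ℝ, HasDerivAt (fun s : ℝ => ∫ y : Fin d → ℝ, F (Fin.cons s y))
    (∫ y : Fin d → ℝ, fderiv ℝ F (Fin.cons t y : Fin (d + 1) → ℝ) (Pi.single 0 (1 : ℝ))) t

/-- D1: slices are again compactly supported `C¹`, with the expected derivatives. -/
def StSlC : Prop := ∀ (d N : ℕ) (u : Fin N → (Fin (d + 1) → ℝ) → ℂ), CC u → ∀ t : ℝ,
  CC (sl u t) ∧ ∀ (n : Fin N) (y : Fin d → ℝ) (i : Fin d),
    fderiv ℝ (sl u t n) y (Pi.single i (1 : ℝ)) =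
      fderiv ℝ (u n) (Fin.cons t y : Fin (d + 1) → ℝ) (Pi.single i.succ (1 : ℝ))

/-- D2: the slices give Gram data. -/
def StSlGD : Prop := ∀ (d N : ℕ) (u : Fin N → (Fin (d + 1) → ℝ) → ℂ), CC u →
  ∃ R0 : ℝ, 0 < R0 ∧ ∀ R : ℝ, R0 ≤ R → IsGD N R (Gd u) (Qd u) (Td u) ∧ Sm (Gd u) R R = Gr u

/-- D4: splitting of the kinetic energy. -/
def StSlT : Prop := ∀ (d N : ℕ) (u : Fin N → (Fin (d + 1) → ℝ) → ℂ), CC u →
  Continuous (fun t => Tkin (sl u t)) ∧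
  ∃ R0 : ℝ, 0 < R0 ∧ ∀ R : ℝ, R0 ≤ R →
    Tkin u = (∫ t in (-R)..R, (Matrix.trace (Td u t)).re) + ∫ t in (-R)..R, Tkin (sl u t)

/-- D5: splitting of the density term. -/
def StSlP : Prop := ∀ (d N : ℕ) (p : ℝ) (u : Fin N → (Fin (d + 1) → ℝ) → ℂ), 1 ≤ p → CC u →
  Continuous (fun t => ∫ y, rho (sl u t) y ^ p) ∧
  ∃ R0 : ℝ, 0 < R0 ∧ ∀ R : ℝ, R0 ≤ R →
    ∫ x, rho u x ^ p = ∫ t in (-R)..R, ∫ y, rho (sl u t) y ^ p

/-- D6: the inequality with a Gram matrix term. -/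
def StQ : Prop := ∀ (d k N : ℕ) (u : Fin N → (Fin d → ℝ) → ℂ), 1 ≤ k → CC u →
  kap (k + d) * ∫ x, rho u x ^ (1 + 2 / ((k : ℝ) + d)) ≤
    Tkin u + kap k * Phi (1 + 2 / (k : ℝ)) (Gr u)

/-- D7: the main inequality on `Fin d → ℝ`, for Bessel systems. -/
def StPi : Prop := ∀ (d N : ℕ) (u : Fin N → (Fin d → ℝ) → ℂ), 1 ≤ d → CC u →
  (∀ c : Fin N → ℂ, ∫ x, ‖∑ n, c n * u n x‖ ^ 2 ≤ ∑ n, ‖c n‖ ^ 2) →
  kap d * ∫ x, rho u x ^ (1 + 2 / (d : ℝ)) ≤ Tkin u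

/-- D8: the final statement. -/
def StAll : Prop := ∀ d : ℕ, 1 ≤ d → ∀ (N : ℕ) (u : Fin N → EuclideanSpace ℝ (Fin d) → ℂ),
  (∀ n, ContDiff ℝ 1 (u n) ∧ HasCompactSupport (u n)) →
  (∀ n m, ∫ x, star (u n x) * u m x = if n = m then (1 : ℂ) else 0) →
  (3 / 4 : ℝ) ^ (1 / (d : ℝ)) *
    ((d : ℝ) / ((d : ℝ) + 2) * (2 * Real.pi) ^ 2
      / ((MeasureTheory.volume (Metric.ball (0 : EuclideanSpace ℝ (Fin d)) 1)).toReal)
        ^ (2 / (d : ℝ))) * ∫ x, (∑ n, ‖u n x‖ ^ 2) ^ (1 + 2 / (d : ℝ)) ≤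
  ∑ n, ∫ x, ∑ i : Fin d, ‖fderiv ℝ (u n) x (EuclideanSpace.single i (1 : ℝ))‖ ^ 2

end H187LT
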