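import Mathlib
import Pool.Agent.H187R2.LT.StubsD

/-!
Task D0b: differentiation under the integral sign for compactly supported `C¹` functions.
-/

set_option autoImplicit false

open MeasureTheory Topology

noncomputable section

namespace H187LT

theorem hasDerivAt_cons_d0b {d : ℕ} (y : Fin d → ℝ) (s : ℝ) :
    HasDerivAt (fun s : ℝ => (Fin.cons s y : Fin (d + 1) → ℝ)) (Pi.single 0 (1 : ℝ)) s := by
  rw [hasDerivAt_pi]
  intro i
  refine Fin.cases ?_ (fun j => ?_) i
  · simp only [Fin.cons_zero, Pi.single_eq_same]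
    exact hasDerivAt_id s
  · simp only [Fin.cons_succ]
    rw [Pi.single_eq_of_ne (Fin.succ_ne_zero j)]
    exact hasDerivAt_const s (y j)

theorem continuous_cons_d0b {d : ℕ} (s : ℝ) :
    Continuous (fun y : Fin d → ℝ => (Fin.cons s y : Fin (d + 1) → ℝ)) := by
  refine continuous_pi fun i => ?_
  refine Fin.cases ?_ (fun j => ?_) i
  · simp only [Fin.cons_zero]
    exact continuous_const
  · simp only [Fin.cons_succ]
    exact continuous_apply j

theorem D0b : StDif := by
  intro d F hF hc t
  -- the compact projection of the support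
  let K : Set (Fin d → ℝ) := (fun x : Fin (d + 1) → ℝ => Fin.tail x) '' tsupport F
  have hKc : IsCompact K := by
    refine IsCompact.image hc ?_
    refine continuous_pi fun i => ?_
    exact continuous_apply (Fin.succ i)
  have hK0 : ∀ (s : ℝ) (y : Fin d → ℝ), y ∉ K → (Fin.cons s y : Fin (d + 1) → ℝ) ∉ tsupport F := by
    intro s y hy hmem
    exact hy ⟨_, hmem, Fin.tail_cons _ _⟩
  have hF0 : ∀ (s : ℝ) (y : Fin d → ℝ), y ∉ K → F (Fin.cons s y) = 0 := fun s y hy =>
    image_eq_zero_of_notMem_tsupport (hK0 s y hy)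
  have hdc : Continuous (fderiv ℝ F) := hF.continuous_fderiv (by norm_num)
  have hdcs : HasCompactSupport (fderiv ℝ F) := hc.fderiv (𝕜 := ℝ)
  have hd0 : ∀ (s : ℝ) (y : Fin d → ℝ), y ∉ K →
      fderiv ℝ F (Fin.cons s y : Fin (d + 1) → ℝ) = 0 := fun s y hy =>
    image_eq_zero_of_notMem_tsupport fun hm => hK0 s y hy (tsupport_fderiv_subset ℝ hm)
  obtain ⟨C, hC⟩ := hdc.bounded_above_of_compact_support hdcs
  have hC0 : 0 ≤ C := (norm_nonneg _).trans (hC 0)
  have hFc : Continuous F := hF.continuous
  have hcomp : ∀ s : ℝ, Continuous (fun y : Fin d → ℝ => F (Fin.cons s y)) := fun s =>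
    hFc.comp (continuous_cons_d0b s)
  have hmain := hasDerivAt_integral_of_dominated_loc_of_deriv_le (μ := (volume : Measure (Fin d → ℝ)))
    (F := fun (s : ℝ) (y : Fin d → ℝ) => F (Fin.cons s y))
    (F' := fun (s : ℝ) (y : Fin d → ℝ) =>
      fderiv ℝ F (Fin.cons s y : Fin (d + 1) → ℝ) (Pi.single 0 (1 : ℝ)))
    (x₀ := t) (s := Set.univ)
    (bound := K.indicator fun _ => C * ‖(Pi.single 0 (1 : ℝ) : Fin (d + 1) → ℝ)‖)
    Filter.univ_mem
    (Filter.Eventually.of_forall fun s => (hcomp s).aestronglyMeasurable)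
    ((hcomp t).integrable_of_hasCompactSupport
      (HasCompactSupport.intro hKc fun y hy => hF0 t y hy))
    (((hdc.comp (continuous_cons_d0b t)).clm_apply continuous_const).aestronglyMeasurable)
    (Filter.Eventually.of_forall fun y s _ => by
      by_cases hy : y ∈ K
      · rw [Set.indicator_of_mem hy]
        refine (ContinuousLinearMap.le_opNorm _ _).trans ?_
        exact mul_le_mul_of_nonneg_right (hC _) (norm_nonneg _)
      · rw [Set.indicator_of_notMem hy]
        show ‖fderiv ℝ F (Fin.cons s y : Fin (d + 1) → ℝ) (Pi.single 0 (1 : ℝ))‖ ≤ 0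
        rw [hd0 s y hy]
        simp)
    (by
      rw [integrable_indicator_iff hKc.measurableSet]
      exact integrableOn_const (hs := hKc.measure_lt_top.ne))
    (Filter.Eventually.of_forall fun y s _ => by
      have h1 : HasFDerivAt F (fderiv ℝ F (Fin.cons s y : Fin (d + 1) → ℝ))
          (Fin.cons s y : Fin (d + 1) → ℝ) :=
        ((hF.differentiable (by norm_num)) _).hasFDerivAt
      exact h1.comp_hasDerivAt s (hasDerivAt_cons_d0b y s))
  exact hmain.2

end H187LT
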