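import Mathlib

/-!
# One-dimensional Lieb–Thirring inequality: basic definitions

`Sm G R t` is the matrix `∫_{-R}^t G`, `Fm` and `Dm` are the polynomial matrix functions used as
test field and as its derivative along the flow.
-/

set_option autoImplicit false
open scoped Matrix BigOperators
open MeasureTheory

namespace H187LT

/-- complex `N × N` matrices -/
abbrev Mat (N : ℕ) := Matrix (Fin N) (Fin N) ℂ

/-- the two-variable polynomial `Φ(x,y) = Σ c a b x^a y^b` -/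
noncomputable def PP (c : ℕ → ℕ → ℝ) (n : ℕ) (x y : ℝ) : ℝ :=
  ∑ a ∈ Finset.range n, ∑ b ∈ Finset.range n, c a b * x ^ a * y ^ b

/-- the divided difference `(Φ(x,y) - Φ(z,y))/(x-z)` as a polynomial -/
noncomputable def DD (c : ℕ → ℕ → ℝ) (n : ℕ) (x z y : ℝ) : ℝ :=
  ∑ a ∈ Finset.range n, ∑ b ∈ Finset.range n, c a b * y ^ b *
    ∑ e ∈ Finset.range a, x ^ e * z ^ (a - 1 - e)

/-- the test field `F = Σ c a b A^a G A^b` -/
noncomputable def Fm {N : ℕ} (c : ℕ → ℕ → ℝ) (n : ℕ) (A G : Mat N) : Mat N :=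
  ∑ a ∈ Finset.range n, ∑ b ∈ Finset.range n, ((c a b : ℝ) : ℂ) • (A ^ a * G * A ^ b)

/-- the derivative term `Σ c a b Σ_{e<a} Re Tr (G A^e G A^{a-1-e} G A^b)` -/
noncomputable def Dm {N : ℕ} (c : ℕ → ℕ → ℝ) (n : ℕ) (A G : Mat N) : ℝ :=
  ∑ a ∈ Finset.range n, ∑ b ∈ Finset.range n, c a b *
    ∑ e ∈ Finset.range a, (Matrix.trace (G * A ^ e * G * A ^ (a - 1 - e) * G * A ^ b)).re

/-- the quadratic term `Re Tr (G F F)` -/
noncomputable def Qm {N : ℕ} (c : ℕ → ℕ → ℝ) (n : ℕ) (A G : Mat N) : ℝ :=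
  (Matrix.trace (G * Fm c n A G * Fm c n A G)).re

/-- `S(t) = ∫_{-R}^t G`, entrywise -/
noncomputable def Sm {N : ℕ} (G : ℝ → Mat N) (R t : ℝ) : Mat N :=
  fun i j => ∫ s in (-R)..t, G s i j

/-- `A(t) = S(t) - 1/2` -/
noncomputable def Am {N : ℕ} (G : ℝ → Mat N) (R t : ℝ) : Mat N :=
  Sm G R t - (1 / 2 : ℂ) • (1 : Mat N)

/-- `A` is Hermitian with spectrum in `[-1/2, 1/2]`, in form sense -/
def HalfBd {N : ℕ} (A : Mat N) : Prop :=
  A.IsHermitian ∧ ∀ v : Fin N → ℂ, |(star v ⬝ᵥ (A *ᵥ v)).re| ≤ (1 / 2) * ∑ i, ‖v i‖ ^ 2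

end H187LT
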