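import Pool.Agent.H187R2.LT.StubsB

/-!
# Task I1: positivity of the constants (helper959)
-/

set_option autoImplicit false

namespace H187LT

open MeasureTheory

theorem i1_bet_integrable (k : ℕ) (hk : 2 ≤ k) :
    IntervalIntegrable (fun s : ℝ => Real.sqrt (1 - s) * s ^ (((k : ℝ) - 3) / 2)) volume 0 1 := by
  have hk' : (2 : ℝ) ≤ k := by exact_mod_cast hk
  refine IntervalIntegrable.continuousOn_mul ?_ (by fun_prop)
  exact intervalIntegral.intervalIntegrable_rpow' (by linarith)

theorem i1_bet_pos (k : ℕ) (hk : 2 ≤ k) : 0 < bet k := by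
  unfold bet
  refine intervalIntegral.intervalIntegral_pos_of_pos_on (i1_bet_integrable k hk) ?_ zero_lt_one
  intro s hs
  have h1 : 0 < Real.sqrt (1 - s) := Real.sqrt_pos.2 (by linarith [hs.2])
  exact mul_pos h1 (Real.rpow_pos_of_pos hs.1 _)

theorem i1_th_pos (k : ℕ) : 0 < th k := by
  unfold th
  have h1 : 0 < Real.Gamma ((k : ℝ) / 2 + 1) := Real.Gamma_pos_of_pos (by positivity)
  have h2 := Real.pi_pos
  positivity

theorem I1 : StPos := by
  intro k hk
  have hb := i1_bet_pos k hk
  have ht := i1_th_pos k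
  refine ⟨hb, ht, mul_pos hb ht, ?_⟩
  unfold kap
  have hk' : (0 : ℝ) < k := by exact_mod_cast (by omega : 0 < k)
  positivity

end H187LT
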