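import Pool.Agent.H187R2.LT.Stubs

set_option autoImplicit false
open scoped Matrix BigOperators
open MeasureTheory

namespace H187LT

section
attribute [local instance] Matrix.linftyOpNormedRing Matrix.linftyOpNormedAlgebra

/-- entrywise derivative gives the derivative of a matrix function -/
lemma L1_matDeriv {N : ℕ} {A : ℝ → Mat N} {A' : Mat N} {t : ℝ}
    (h : ∀ i j, HasDerivAt (fun s => A s i j) (A' i j) t) : HasDerivAt A A' t := by
  have h1 : HasDerivAt (fun s => (fun i j => A s i j : Fin N → Fin N → ℂ))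
      (fun i j => A' i j) t := by
    rw [hasDerivAt_pi]
    intro i
    rw [hasDerivAt_pi]
    intro j
    exact h i j
  exact h1

/-- the real part of the trace as a real linear map -/
noncomputable def L1_reTr (N : ℕ) : Mat N →ₗ[ℝ] ℝ where
  toFun M := (Matrix.trace M).re
  map_add' M M' := by simp [Matrix.trace_add]
  map_smul' r M := by simp [Matrix.trace_smul]

lemma L1_reTr_deriv {N : ℕ} {A : ℝ → Mat N} {A' : Mat N} {t : ℝ} (h : HasDerivAt A A' t) :
    HasDerivAt (fun s => (Matrix.trace (A s)).re) ((Matrix.trace A').re) t := by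
  have h1 := (LinearMap.toContinuousLinearMap (L1_reTr N)).hasFDerivAt.comp_hasDerivAt t h
  exact h1

/-- derivative of one monomial term -/
lemma L1_mono {N : ℕ} {A G : ℝ → Mat N} {G' : Mat N} {t : ℝ} (a b : ℕ)
    (hA0 : ∀ i j, HasDerivAt (fun s => A s i j) (G t i j) t)
    (hG0 : ∀ i j, HasDerivAt (fun s => G s i j) (G' i j) t) :
    HasDerivAt (fun s => (Matrix.trace (G s * A s ^ a * G s * A s ^ b)).re)
      ((Matrix.trace (G' * A t ^ a * G t * A t ^ b)).re
        + (Matrix.trace (G' * A t ^ b * G t * A t ^ a)).re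
        + ∑ e ∈ Finset.range a,
            (Matrix.trace (G t * A t ^ e * G t * A t ^ (a - 1 - e) * G t * A t ^ b)).re
        + ∑ e ∈ Finset.range b,
            (Matrix.trace (G t * A t ^ e * G t * A t ^ (b - 1 - e) * G t * A t ^ a)).re) t := by
  have hA := L1_matDeriv hA0
  have hG := L1_matDeriv hG0
  have h1 := L1_reTr_deriv (((hG.fun_mul (hA.fun_pow' a)).fun_mul hG).fun_mul (hA.fun_pow' b))
  refine h1.congr_deriv ?_
  have e1 : ∀ (k : ℕ), (∑ i ∈ Finset.range k, A t ^ (k.pred - i) * G t * A t ^ i)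
      = ∑ i ∈ Finset.range k, A t ^ i * G t * A t ^ (k - 1 - i) := by
    intro k
    rw [← Finset.sum_range_reflect]
    refine Finset.sum_congr rfl fun i hi => ?_
    have hi' := Finset.mem_range.mp hi
    have : k.pred - (k - 1 - i) = i := by
      rw [Nat.pred_eq_sub_one]; omega
    rw [this]
  rw [e1, e1]
  have e2 : Matrix.trace (G t * A t ^ a * G' * A t ^ b)
      = Matrix.trace (G' * A t ^ b * G t * A t ^ a) := by
    rw [Matrix.mul_assoc (G t * A t ^ a), Matrix.trace_mul_comm]
    simp only [Matrix.mul_assoc]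
  have e3 : (Matrix.trace (G t * (∑ i ∈ Finset.range a, A t ^ i * G t * A t ^ (a - 1 - i))
      * G t * A t ^ b)).re = ∑ e ∈ Finset.range a,
            (Matrix.trace (G t * A t ^ e * G t * A t ^ (a - 1 - e) * G t * A t ^ b)).re := by
    rw [Matrix.mul_sum, Matrix.sum_mul, Matrix.sum_mul, Matrix.trace_sum, Complex.re_sum]
    refine Finset.sum_congr rfl fun i _ => ?_
    simp only [Matrix.mul_assoc]
  have e4 : (Matrix.trace (G t * A t ^ a * G t *
      (∑ i ∈ Finset.range b, A t ^ i * G t * A t ^ (b - 1 - i)))).re = ∑ e ∈ Finset.range b,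
            (Matrix.trace (G t * A t ^ e * G t * A t ^ (b - 1 - e) * G t * A t ^ a)).re := by
    rw [Matrix.mul_sum, Matrix.trace_sum, Complex.re_sum]
    refine Finset.sum_congr rfl fun i _ => ?_
    have : G t * A t ^ a * G t * (A t ^ i * G t * A t ^ (b - 1 - i))
        = (G t * A t ^ a) * (G t * A t ^ i * G t * A t ^ (b - 1 - i)) := by
      simp only [Matrix.mul_assoc]
    rw [this, Matrix.trace_mul_comm]
    simp only [Matrix.mul_assoc]
  simp only [Matrix.add_mul, Matrix.trace_add, Complex.add_re]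
  rw [e2, e3, e4]
  ring

end

theorem L1 : StDeriv := by
  intro N c n A G G' t hc hA hG
  have key : ∀ s, (Matrix.trace (G s * Fm c n (A s) (G s))).re
      = ∑ a ∈ Finset.range n, ∑ b ∈ Finset.range n,
          c a b * (Matrix.trace (G s * A s ^ a * G s * A s ^ b)).re := by
    intro s
    unfold Fm
    rw [Matrix.mul_sum, Matrix.trace_sum, Complex.re_sum]
    refine Finset.sum_congr rfl fun a _ => ?_
    rw [Matrix.mul_sum, Matrix.trace_sum, Complex.re_sum]
    refine Finset.sum_congr rfl fun b _ => ?_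
    rw [Matrix.mul_smul, Matrix.trace_smul, smul_eq_mul, Complex.re_ofReal_mul]
    simp only [Matrix.mul_assoc]
  have key' : (Matrix.trace (G' * Fm c n (A t) (G t))).re
      = ∑ a ∈ Finset.range n, ∑ b ∈ Finset.range n,
          c a b * (Matrix.trace (G' * A t ^ a * G t * A t ^ b)).re := by
    unfold Fm
    rw [Matrix.mul_sum, Matrix.trace_sum, Complex.re_sum]
    refine Finset.sum_congr rfl fun a _ => ?_
    rw [Matrix.mul_sum, Matrix.trace_sum, Complex.re_sum]
    refine Finset.sum_congr rfl fun b _ => ?_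
    rw [Matrix.mul_smul, Matrix.trace_smul, smul_eq_mul, Complex.re_ofReal_mul]
    simp only [Matrix.mul_assoc]
  have swap : ∀ X : ℕ → ℕ → ℝ, (∑ a ∈ Finset.range n, ∑ b ∈ Finset.range n, c a b * X b a)
      = ∑ a ∈ Finset.range n, ∑ b ∈ Finset.range n, c a b * X a b := by
    intro X
    rw [Finset.sum_comm]
    refine Finset.sum_congr rfl fun a _ => Finset.sum_congr rfl fun b _ => ?_
    rw [hc b a]
  simp_rw [key]
  have h1 := HasDerivAt.fun_sum (u := Finset.range n) (fun a _ =>
    HasDerivAt.fun_sum (u := Finset.range n) (fun b _ => (L1_mono a b hA hG).const_mul (c a b)))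
  refine h1.congr_deriv ?_
  rw [key']
  unfold Dm
  have s1 := swap (fun a b => (Matrix.trace (G' * A t ^ a * G t * A t ^ b)).re)
  have s2 := swap (fun a b => ∑ e ∈ Finset.range a,
      (Matrix.trace (G t * A t ^ e * G t * A t ^ (a - 1 - e) * G t * A t ^ b)).re)
  simp only [mul_add, Finset.sum_add_distrib]
  rw [s1, s2]
  ring

end H187LT
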