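import Pool.Agent.H187R2.LT.Stubs

set_option autoImplicit false
open scoped Matrix BigOperators
open MeasureTheory

namespace H187LT

theorem l2_A_deriv {N : ℕ} (G : ℝ → Mat N) (R : ℝ) (hc : ∀ i j, Continuous fun t => G t i j)
    (t : ℝ) (i j : Fin N) : HasDerivAt (fun s => Am G R s i j) (G t i j) t := by
  have h1 : HasDerivAt (fun s => ∫ u in (-R)..s, G u i j) (G t i j) t :=
    intervalIntegral.integral_hasDerivAt_right ((hc i j).intervalIntegrable _ _)
      ((hc i j).stronglyMeasurableAtFilter _ _) (hc i j).continuousAt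
  exact h1.sub_const _

theorem l2_A_herm {N : ℕ} (G : ℝ → Mat N) (R : ℝ) (hG : ∀ t, (G t).IsHermitian) (t : ℝ) :
    (Am G R t).IsHermitian := by
  have hS : (Sm G R t).IsHermitian := by
    ext i j
    rw [Matrix.conjTranspose_apply]
    show star (∫ s in (-R)..t, G s j i) = ∫ s in (-R)..t, G s i j
    have h1 : ∀ s, G s i j = star (G s j i) := fun s => ((hG s).apply i j).symm
    simp only [h1]
    rw [intervalIntegral, intervalIntegral, star_sub]
    congr 1
    · exact (integral_conj).symm
    · exact (integral_conj).symm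
  unfold Am
  apply hS.sub
  unfold Matrix.IsHermitian
  rw [Matrix.conjTranspose_smul, Matrix.conjTranspose_one]
  congr 1
  simp

theorem l2_F_herm {N : ℕ} (c : ℕ → ℕ → ℝ) (n : ℕ) (hc : ∀ a b, c a b = c b a) (A G : Mat N)
    (hA : A.IsHermitian) (hG : G.IsHermitian) : (Fm c n A G).IsHermitian := by
  unfold Matrix.IsHermitian Fm
  rw [Matrix.conjTranspose_sum]
  simp only [Matrix.conjTranspose_sum, Matrix.conjTranspose_smul, Matrix.conjTranspose_mul,
    Matrix.conjTranspose_pow, hA.eq, hG.eq]
  rw [Finset.sum_comm]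
  refine Finset.sum_congr rfl fun a _ => Finset.sum_congr rfl fun b _ => ?_
  rw [hc b a, mul_assoc]
  congr 1
  simp

theorem l2_Fm_cont {N : ℕ} (c : ℕ → ℕ → ℝ) (n : ℕ) (A G : ℝ → Mat N) (hA : Continuous A)
    (hG : Continuous G) : Continuous fun t => Fm c n (A t) (G t) := by
  unfold Fm
  refine continuous_finsetSum _ fun a _ => continuous_finsetSum _ fun b _ => ?_
  exact (((hA.pow a).mul hG).mul (hA.pow b)).const_smul ((c a b : ℝ) : ℂ)

theorem l2_Dm_cont {N : ℕ} (c : ℕ → ℕ → ℝ) (n : ℕ) (A G : ℝ → Mat N) (hA : Continuous A)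
    (hG : Continuous G) : Continuous fun t => Dm c n (A t) (G t) := by
  unfold Dm
  refine continuous_finsetSum _ fun a _ => continuous_finsetSum _ fun b _ => ?_
  refine continuous_const.mul (continuous_finsetSum _ fun e _ => ?_)
  exact Complex.continuous_re.comp (Continuous.matrix_trace
    (((((hG.mul (hA.pow _)).mul hG).mul (hA.pow _)).mul hG).mul (hA.pow _)))

theorem L2 : StDeriv → StGT := by
  intro hD N c n R G G' τ hR hc hG hG' hH hl hr hτ hmain
  have hGc : ∀ i j, Continuous fun t => G t i j := fun i j =>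
    continuous_iff_continuousAt.2 fun t => (hG t i j).continuousAt
  have hGm : Continuous G := continuous_matrix fun i j => hGc i j
  have hG'm : Continuous G' := continuous_matrix fun i j => hG' i j
  have hAd := l2_A_deriv G R hGc
  have hAm : Continuous fun t => Am G R t := continuous_matrix fun i j =>
    continuous_iff_continuousAt.2 fun t => (hAd t i j).continuousAt
  have hF : Continuous fun t => Fm c n (Am G R t) (G t) := l2_Fm_cont c n _ G hAm hGm
  have hDc : Continuous fun t => Dm c n (Am G R t) (G t) := l2_Dm_cont c n _ G hAm hGm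
  have hTc : Continuous fun t => (Matrix.trace (G' t * Fm c n (Am G R t) (G t))).re :=
    Complex.continuous_re.comp (hG'm.mul hF).matrix_trace
  have hQc : Continuous fun t => Qm c n (Am G R t) (G t) := by
    unfold Qm
    exact Complex.continuous_re.comp ((hGm.mul hF).mul hF).matrix_trace
  have hΨ : ∀ t, HasDerivAt (fun s => (Matrix.trace (G s * Fm c n (Am G R s) (G s))).re)
      (2 * (Matrix.trace (G' t * Fm c n (Am G R t) (G t))).re + 2 * Dm c n (Am G R t) (G t)) t :=
    fun t => hD N c n (fun s => Am G R s) G (G' t) t hc (hAd t) (hG t)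
  have hint : ∫ t in (-R)..R, (2 * (Matrix.trace (G' t * Fm c n (Am G R t) (G t))).re +
      2 * Dm c n (Am G R t) (G t)) = 0 := by
    rw [intervalIntegral.integral_eq_sub_of_hasDerivAt (fun t _ => hΨ t)
      (((continuous_const.mul hTc).add (continuous_const.mul hDc)).intervalIntegrable _ _)]
    rw [hl, hr]
    simp
  have hint2 : ∫ t in (-R)..R, ((Matrix.trace (G' t * Fm c n (Am G R t) (G t))).re +
      Dm c n (Am G R t) (G t)) = 0 := by
    have h1 : ∫ t in (-R)..R, (2 * (Matrix.trace (G' t * Fm c n (Am G R t) (G t))).re +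
        2 * Dm c n (Am G R t) (G t)) =
        2 * ∫ t in (-R)..R, ((Matrix.trace (G' t * Fm c n (Am G R t) (G t))).re +
        Dm c n (Am G R t) (G t)) := by
      rw [← intervalIntegral.integral_const_mul]
      congr 1
      funext t
      ring
    rw [h1] at hint
    linarith
  have hs : Continuous fun t => (Matrix.trace (G' t * Fm c n (Am G R t) (G t))).re +
      Dm c n (Am G R t) (G t) := hTc.add hDc
  have hs2 : Continuous fun t => τ t + ((Matrix.trace (G' t * Fm c n (Am G R t) (G t))).re +
      Dm c n (Am G R t) (G t)) := hτ.add hs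
  have hdq : Continuous fun t => Dm c n (Am G R t) (G t) - Qm c n (Am G R t) (G t) :=
    hDc.sub hQc
  calc ∫ t in (-R)..R, (Dm c n (Am G R t) (G t) - Qm c n (Am G R t) (G t))
      ≤ ∫ t in (-R)..R, (τ t + ((Matrix.trace (G' t * Fm c n (Am G R t) (G t))).re +
        Dm c n (Am G R t) (G t))) := by
        apply intervalIntegral.integral_mono (by linarith)
          (hdq.intervalIntegrable _ _) (hs2.intervalIntegrable _ _)
        intro t
        have h1 := hmain t (Fm c n (Am G R t) (G t))
          (l2_F_herm c n hc _ _ (l2_A_herm G R hH t) (hH t))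
        show Dm c n (Am G R t) (G t) - Qm c n (Am G R t) (G t) ≤
          τ t + ((Matrix.trace (G' t * Fm c n (Am G R t) (G t))).re + Dm c n (Am G R t) (G t))
        have h2 : Qm c n (Am G R t) (G t) = (Matrix.trace (G t * Fm c n (Am G R t) (G t) *
          Fm c n (Am G R t) (G t))).re := rfl
        linarith
    _ = ∫ t in (-R)..R, τ t := by
        rw [intervalIntegral.integral_add (hτ.intervalIntegrable _ _)
          (hs.intervalIntegrable _ _), hint2, add_zero]

end H187LT
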