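import Pool.Agent.H187R2.LT.Stubs

/-!
# L3: the pointwise inequality for rank one `G`
-/

set_option autoImplicit false
open scoped Matrix BigOperators
open MeasureTheory

namespace H187LT

namespace L3aux

variable {N : ℕ}

/-- the form `<v, B v>` -/
noncomputable def fo (v : Fin N → ℂ) (B : Mat N) : ℂ := star v ⬝ᵥ (B *ᵥ v)

theorem GBG (v : Fin N → ℂ) (B : Mat N) :
    Matrix.vecMulVec v (star v) * B * Matrix.vecMulVec v (star v) =
      fo v B • Matrix.vecMulVec v (star v) := by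
  ext i j
  simp only [Matrix.mul_apply, Matrix.vecMulVec_apply, Matrix.smul_apply, smul_eq_mul, fo,
    dotProduct, Matrix.mulVec]
  simp only [Finset.sum_mul, Finset.mul_sum]
  rw [Finset.sum_comm]
  refine Finset.sum_congr rfl fun k _ => Finset.sum_congr rfl fun l _ => ?_
  ring

theorem trGB (v : Fin N → ℂ) (B : Mat N) :
    (Matrix.vecMulVec v (star v) * B).trace = fo v B := by
  simp only [Matrix.trace, Matrix.diag, Matrix.mul_apply, Matrix.vecMulVec_apply, fo,
    dotProduct, Matrix.mulVec]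
  rw [Finset.sum_comm]
  refine Finset.sum_congr rfl fun k _ => ?_
  rw [Finset.mul_sum]
  refine Finset.sum_congr rfl fun l _ => ?_
  ring

theorem tr3 (v : Fin N → ℂ) (B C D : Mat N) :
    (Matrix.vecMulVec v (star v) * B * Matrix.vecMulVec v (star v) * C *
      Matrix.vecMulVec v (star v) * D).trace = fo v B * fo v C * fo v D := by
  rw [GBG, Matrix.smul_mul, Matrix.smul_mul, GBG, Matrix.smul_mul, Matrix.smul_mul,
    Matrix.trace_smul, Matrix.trace_smul, trGB]
  simp only [smul_eq_mul]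
  ring

/-- spectral data -/
theorem spec (A : Mat N) (hA : HalfBd A) (v : Fin N → ℂ) :
    ∃ (x : Fin N → ℝ) (m : Fin N → ℝ), (∀ i, x i ∈ Set.Icc (-(1/2) : ℝ) (1/2)) ∧ (∀ i, 0 ≤ m i) ∧
      (∑ i, m i = ∑ i, ‖v i‖ ^ 2) ∧
      ∀ e : ℕ, fo v (A ^ e) = ((∑ i, m i * x i ^ e : ℝ) : ℂ) := by
  obtain ⟨hH, hB⟩ := hA
  obtain ⟨U, hU⟩ : ∃ U : Mat N, U = (hH.eigenvectorUnitary : Mat N) := ⟨_, rfl⟩
  have hUU : star U * U = 1 := by
    rw [hU]
    exact Unitary.coe_star_mul_self _
  have hUU' : U * star U = 1 := by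
    rw [hU]
    exact Unitary.coe_mul_star_self _
  have hsp : A = U * Matrix.diagonal (fun i => ((hH.eigenvalues i : ℝ) : ℂ)) * star U := by
    have h := hH.spectral_theorem
    rw [Unitary.conjStarAlgAut_apply] at h
    rw [hU]
    exact h
  have hpow : ∀ e : ℕ, A ^ e =
      U * Matrix.diagonal (fun i => ((hH.eigenvalues i : ℝ) : ℂ) ^ e) * star U := by
    intro e
    induction e with
    | zero =>
      simp only [pow_zero]
      rw [Matrix.diagonal_one, mul_one, hUU']
    | succ e ih =>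
      rw [pow_succ, ih]
      nth_rewrite 2 [hsp]
      calc U * Matrix.diagonal (fun i => ((hH.eigenvalues i : ℝ) : ℂ) ^ e) * star U *
            (U * Matrix.diagonal (fun i => ((hH.eigenvalues i : ℝ) : ℂ)) * star U)
          = U * Matrix.diagonal (fun i => ((hH.eigenvalues i : ℝ) : ℂ) ^ e) * (star U * U) *
            Matrix.diagonal (fun i => ((hH.eigenvalues i : ℝ) : ℂ)) * star U := by
            simp only [mul_assoc]
        _ = U * (Matrix.diagonal (fun i => ((hH.eigenvalues i : ℝ) : ℂ) ^ e) *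
            Matrix.diagonal (fun i => ((hH.eigenvalues i : ℝ) : ℂ))) * star U := by
            rw [hUU, mul_one]
            simp only [mul_assoc]
        _ = _ := by
            rw [Matrix.diagonal_mul_diagonal]
            simp only [pow_succ]
  obtain ⟨w, hw⟩ : ∃ w : Fin N → ℂ, w = (star U) *ᵥ v := ⟨_, rfl⟩
  have hsw : star w = star v ᵥ* U := by
    rw [hw, Matrix.star_mulVec, Matrix.star_eq_conjTranspose, Matrix.conjTranspose_conjTranspose]
  have hfo : ∀ e : ℕ, fo v (A ^ e) = ((∑ i, ‖w i‖ ^ 2 * hH.eigenvalues i ^ e : ℝ) : ℂ) := by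
    intro e
    unfold fo
    rw [hpow e, ← Matrix.mulVec_mulVec, ← Matrix.mulVec_mulVec, Matrix.dotProduct_mulVec, ← hsw,
      ← hw]
    simp only [dotProduct, Matrix.mulVec_diagonal, Pi.star_apply]
    push_cast
    refine Finset.sum_congr rfl fun i _ => ?_
    have h1 : star (w i) * w i = ((‖w i‖ ^ 2 : ℝ) : ℂ) := by
      rw [Complex.star_def, Complex.conj_mul']
      push_cast
      rfl
    calc star (w i) * (((hH.eigenvalues i : ℝ) : ℂ) ^ e * w i) =
        (star (w i) * w i) * ((hH.eigenvalues i : ℝ) : ℂ) ^ e := by ring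
      _ = _ := by rw [h1]; push_cast; rfl
  refine ⟨hH.eigenvalues, fun i => ‖w i‖ ^ 2, ?_, fun i => by positivity, ?_, hfo⟩
  · intro i
    have h1 := hB (⇑(hH.eigenvectorBasis i))
    have h2 := hH.eigenvalues_eq i
    have h3 : (star ⇑(hH.eigenvectorBasis i) ⬝ᵥ (A *ᵥ ⇑(hH.eigenvectorBasis i))).re =
        hH.eigenvalues i := by
      rw [h2]; rfl
    have h4 : ∑ k, ‖(hH.eigenvectorBasis i) k‖ ^ 2 = 1 := by
      have h5 := hH.eigenvectorBasis.orthonormal.1 i
      rw [EuclideanSpace.norm_eq, Real.sqrt_eq_one] at h5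
      exact h5
    rw [h3, h4, mul_one, abs_le] at h1
    exact h1
  · have h1 := hfo 0
    unfold fo at h1
    simp only [pow_zero, mul_one, Matrix.one_mulVec] at h1
    have h2 : star v ⬝ᵥ v = ((∑ i, ‖v i‖ ^ 2 : ℝ) : ℂ) := by
      simp only [dotProduct, Pi.star_apply]
      push_cast
      refine Finset.sum_congr rfl fun i _ => ?_
      rw [Complex.star_def, Complex.conj_mul']
    rw [h2] at h1
    exact_mod_cast h1.symm

/-- the weighted sum over triples -/
noncomputable def II (m x : Fin N → ℝ) (f : ℝ → ℝ → ℝ → ℝ) : ℝ :=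
  ∑ t : Fin N × Fin N × Fin N, m t.1 * m t.2.1 * m t.2.2 * f (x t.1) (x t.2.1) (x t.2.2)

theorem II_sum {ι : Type} (m x : Fin N → ℝ) (s : Finset ι) (f : ι → ℝ → ℝ → ℝ → ℝ) :
    II m x (fun a b c => ∑ k ∈ s, f k a b c) = ∑ k ∈ s, II m x (f k) := by
  unfold II
  rw [Finset.sum_comm]
  refine Finset.sum_congr rfl fun t _ => ?_
  rw [Finset.mul_sum]

theorem II_mul (m x : Fin N → ℝ) (c : ℝ) (f : ℝ → ℝ → ℝ → ℝ) :
    II m x (fun a b d => c * f a b d) = c * II m x f := by
  unfold II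
  rw [Finset.mul_sum]
  exact Finset.sum_congr rfl fun t _ => by ring

theorem II_sub (m x : Fin N → ℝ) (f g : ℝ → ℝ → ℝ → ℝ) :
    II m x (fun a b d => f a b d - g a b d) = II m x f - II m x g := by
  unfold II
  rw [← Finset.sum_sub_distrib]
  exact Finset.sum_congr rfl fun t _ => by ring

theorem II_mono (m x : Fin N → ℝ) (p q s : ℕ) :
    II m x (fun a b d => a ^ p * b ^ q * d ^ s) =
      (∑ i, m i * x i ^ p) * (∑ i, m i * x i ^ q) * (∑ i, m i * x i ^ s) := by
  unfold II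
  rw [Fintype.sum_prod_type]
  simp only [Fintype.sum_prod_type]
  rw [mul_assoc, Finset.sum_mul]
  refine Finset.sum_congr rfl fun i _ => ?_
  rw [Finset.sum_mul_sum, Finset.mul_sum]
  refine Finset.sum_congr rfl fun j _ => ?_
  rw [Finset.mul_sum]
  exact Finset.sum_congr rfl fun k _ => by ring

theorem II_le {m x : Fin N → ℝ} (hm : ∀ i, 0 ≤ m i) {κ : ℝ} {f : ℝ → ℝ → ℝ → ℝ}
    (h : ∀ i j k, κ ≤ f (x i) (x j) (x k)) : κ * (∑ i, m i) ^ 3 ≤ II m x f := by
  have h1 := II_mono m x 0 0 0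
  simp only [pow_zero, mul_one] at h1
  have h2 : κ * (∑ i, m i) ^ 3 = II m x (fun _ _ _ => κ * 1) := by
    rw [II_mul, h1]
    ring
  rw [h2]
  unfold II
  refine Finset.sum_le_sum fun t _ => ?_
  rw [mul_one]
  exact mul_le_mul_of_nonneg_left (h _ _ _) (mul_nonneg (mul_nonneg (hm _) (hm _)) (hm _))

theorem Dm_eq {c : ℕ → ℕ → ℝ} {n : ℕ} {A : Mat N} {v : Fin N → ℂ} {m x : Fin N → ℝ}
    (hfo : ∀ e : ℕ, fo v (A ^ e) = ((∑ i, m i * x i ^ e : ℝ) : ℂ)) :
    Dm c n A (Matrix.vecMulVec v (star v)) = II m x (fun a b d => DD c n a b d) := by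
  unfold Dm DD
  rw [II_sum]
  refine Finset.sum_congr rfl fun a _ => ?_
  rw [II_sum]
  refine Finset.sum_congr rfl fun b _ => ?_
  have h1 : (fun (x z y : ℝ) => c a b * y ^ b * ∑ e ∈ Finset.range a, x ^ e * z ^ (a - 1 - e)) =
      fun (x z y : ℝ) => c a b * ∑ e ∈ Finset.range a, x ^ e * z ^ (a - 1 - e) * y ^ b := by
    funext x z y
    rw [mul_assoc, Finset.mul_sum (Finset.range a) _ (y ^ b)]
    congr 1
    exact Finset.sum_congr rfl fun e _ => by ring
  rw [h1, II_mul, II_sum]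
  congr 1
  refine Finset.sum_congr rfl fun e _ => ?_
  rw [II_mono, tr3, hfo, hfo, hfo, ← Complex.ofReal_mul, ← Complex.ofReal_mul, Complex.ofReal_re]

theorem GF {c : ℕ → ℕ → ℝ} {n : ℕ} (A : Mat N) (v : Fin N → ℂ) (B : Mat N) :
    Matrix.vecMulVec v (star v) * B * Fm c n A (Matrix.vecMulVec v (star v)) =
      ∑ a ∈ Finset.range n, ∑ b ∈ Finset.range n,
        (((c a b : ℝ) : ℂ) * fo v (B * A ^ a)) • (Matrix.vecMulVec v (star v) * A ^ b) := by
  unfold Fm
  rw [Finset.mul_sum]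
  refine Finset.sum_congr rfl fun a _ => ?_
  rw [Finset.mul_sum]
  refine Finset.sum_congr rfl fun b _ => ?_
  rw [Matrix.mul_smul, mul_smul]
  congr 1
  have h1 := GBG v (B * A ^ a)
  rw [← Matrix.smul_mul, ← h1]
  simp only [mul_assoc]

theorem Qm_eq {c : ℕ → ℕ → ℝ} {n : ℕ} {A : Mat N} {v : Fin N → ℂ} {m x : Fin N → ℝ}
    (hc : ∀ a b, c a b = c b a)
    (hfo : ∀ e : ℕ, fo v (A ^ e) = ((∑ i, m i * x i ^ e : ℝ) : ℂ)) :
    Qm c n A (Matrix.vecMulVec v (star v)) =
      II m x (fun a b d => PP c n a d * PP c n b d) := by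
  have h1 : (Matrix.vecMulVec v (star v) * Fm c n A (Matrix.vecMulVec v (star v)) *
      Fm c n A (Matrix.vecMulVec v (star v))).trace =
      ((∑ a ∈ Finset.range n, ∑ b ∈ Finset.range n, ∑ a' ∈ Finset.range n,
        ∑ b' ∈ Finset.range n, c a b * c a' b' * ((∑ i, m i * x i ^ a) *
          (∑ i, m i * x i ^ (b + a')) * (∑ i, m i * x i ^ b')) : ℝ) : ℂ) := by
    have h2 := GF (c := c) (n := n) A v 1
    simp only [mul_one, one_mul] at h2
    rw [h2, Finset.sum_mul, Matrix.trace_sum]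
    push_cast
    refine Finset.sum_congr rfl fun a _ => ?_
    rw [Finset.sum_mul, Matrix.trace_sum]
    refine Finset.sum_congr rfl fun b _ => ?_
    rw [Matrix.smul_mul, GF, Matrix.trace_smul, Matrix.trace_sum, smul_eq_mul, Finset.mul_sum]
    refine Finset.sum_congr rfl fun a' _ => ?_
    rw [Matrix.trace_sum, Finset.mul_sum]
    refine Finset.sum_congr rfl fun b' _ => ?_
    rw [Matrix.trace_smul, trGB, ← pow_add, hfo, hfo, hfo, smul_eq_mul]
    push_cast
    ring
  unfold Qm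
  rw [h1, Complex.ofReal_re]
  unfold PP
  have h3 : (fun (x z y : ℝ) => (∑ a ∈ Finset.range n, ∑ b ∈ Finset.range n,
      c a b * x ^ a * y ^ b) * (∑ a ∈ Finset.range n, ∑ b ∈ Finset.range n,
      c a b * z ^ a * y ^ b)) = fun (x z y : ℝ) => ∑ a ∈ Finset.range n, ∑ b ∈ Finset.range n,
      ∑ a' ∈ Finset.range n, ∑ b' ∈ Finset.range n,
        c a b * c a' b' * (x ^ a * z ^ b' * y ^ (b + a')) := by
    funext x z y
    rw [Finset.sum_mul]
    refine Finset.sum_congr rfl fun a _ => ?_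
    rw [Finset.sum_mul]
    refine Finset.sum_congr rfl fun b _ => ?_
    rw [Finset.sum_comm, Finset.mul_sum]
    refine Finset.sum_congr rfl fun a' _ => ?_
    rw [Finset.mul_sum]
    refine Finset.sum_congr rfl fun b' _ => ?_
    rw [hc b' a', pow_add]
    ring
  rw [h3, II_sum]
  refine Finset.sum_congr rfl fun a _ => ?_
  rw [II_sum]
  refine Finset.sum_congr rfl fun b _ => ?_
  rw [II_sum]
  refine Finset.sum_congr rfl fun a' _ => ?_
  rw [II_sum]
  refine Finset.sum_congr rfl fun b' _ => ?_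
  rw [II_mul, II_mono]
  ring

end L3aux

open L3aux

theorem L3 : StSP := by
  intro N c n κ A v hc hA h
  obtain ⟨x, m, hx, hm, hs, hfo⟩ := spec A hA v
  rw [Dm_eq hfo, Qm_eq hc hfo, ← hs, ← II_sub]
  exact II_le hm fun i j k => h (x i) (hx i) (x k) (hx k) (x j) (hx j)

end H187LT
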