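import Pool.Agent.H187R2.LT.Stubs

set_option autoImplicit false
open scoped BigOperators
open Polynomial

namespace H187LT

namespace L4aux

/-- the coefficients of `p (x + y)` -/
noncomputable def cf (p : ℝ[X]) (a b : ℕ) : ℝ := p.coeff (a + b) * ((a + b).choose a : ℝ)

theorem cf_symm (p : ℝ[X]) (a b : ℕ) : cf p a b = cf p b a := by
  unfold cf
  rw [Nat.choose_symm_add, Nat.add_comm b a]

theorem pp_eq (p : ℝ[X]) (n : ℕ) (hn : p.natDegree < n) (x y : ℝ) :
    PP (cf p) n x y = p.eval (x + y) := by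
  rw [Polynomial.eval_eq_sum_range' hn]
  have h1 : ∀ m ∈ Finset.range n, p.coeff m * (x + y) ^ m =
      ∑ a ∈ Finset.range n, ∑ b ∈ Finset.range n,
        if a + b = m then cf p a b * x ^ a * y ^ b else 0 := by
    intro m hm
    have hm' := Finset.mem_range.1 hm
    rw [add_pow, Finset.mul_sum]
    have h2 : ∀ a ∈ Finset.range n, (∑ b ∈ Finset.range n,
        if a + b = m then cf p a b * x ^ a * y ^ b else 0) =
        if a ≤ m then p.coeff m * (x ^ a * y ^ (m - a) * (m.choose a : ℝ)) else 0 := by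
      intro a _
      by_cases ha : a ≤ m
      · rw [if_pos ha, Finset.sum_eq_single (m - a)]
        · rw [if_pos (by omega)]
          unfold cf
          rw [show a + (m - a) = m by omega]
          ring
        · intro b _ hb
          rw [if_neg (by omega)]
        · intro h
          exact absurd (Finset.mem_range.2 (by omega)) h
      · rw [if_neg ha]
        refine Finset.sum_eq_zero fun b _ => ?_
        rw [if_neg (by omega)]
    rw [Finset.sum_congr rfl h2, ← Finset.sum_filter]
    refine Finset.sum_congr ?_ fun a _ => rfl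
    ext a
    simp only [Finset.mem_filter, Finset.mem_range]
    omega
  rw [Finset.sum_congr rfl h1, Finset.sum_comm]
  unfold PP
  refine Finset.sum_congr rfl fun a _ => ?_
  rw [Finset.sum_comm]
  refine Finset.sum_congr rfl fun b _ => ?_
  rw [Finset.sum_ite_eq]
  by_cases h : a + b ∈ Finset.range n
  · rw [if_pos h]
  · rw [if_neg h]
    have h3 : p.coeff (a + b) = 0 := by
      apply Polynomial.coeff_eq_zero_of_natDegree_lt
      have := Finset.mem_range.not.1 h
      omega
    simp [cf, h3]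

theorem dd_mul (c : ℕ → ℕ → ℝ) (n : ℕ) (x z y : ℝ) :
    DD c n x z y * (x - z) = PP c n x y - PP c n z y := by
  unfold DD PP
  rw [← Finset.sum_sub_distrib, Finset.sum_mul]
  refine Finset.sum_congr rfl fun a _ => ?_
  rw [← Finset.sum_sub_distrib, Finset.sum_mul]
  refine Finset.sum_congr rfl fun b _ => ?_
  rw [mul_assoc, geom_sum₂_mul]
  ring

/-- antiderivative of a polynomial -/
noncomputable def prim (q : ℝ[X]) : ℝ[X] :=
  ∑ i ∈ Finset.range (q.natDegree + 1), C (q.coeff i / ((i : ℝ) + 1)) * X ^ (i + 1)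

theorem prim_deriv (q : ℝ[X]) : derivative (prim q) = q := by
  unfold prim
  rw [derivative_sum]
  conv_rhs => rw [q.as_sum_range_C_mul_X_pow]
  refine Finset.sum_congr rfl fun i _ => ?_
  rw [derivative_C_mul_X_pow]
  congr 1
  · congr 1
    push_cast
    field_simp

theorem prim_zero (q : ℝ[X]) : (prim q).eval 0 = 0 := by
  unfold prim
  rw [eval_finsetSum]
  refine Finset.sum_eq_zero fun i _ => ?_
  simp

theorem mul_cos_le_sin {δ : ℝ} (h0 : 0 < δ) (h1 : δ < Real.pi) : δ * Real.cos δ ≤ Real.sin δ := by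
  by_cases h : δ < Real.pi / 2
  · have h2 := Real.lt_tan h0 h
    have h3 : 0 < Real.cos δ := Real.cos_pos_of_mem_Ioo ⟨by linarith, h⟩
    rw [Real.tan_eq_sin_div_cos, lt_div_iff₀ h3] at h2
    exact h2.le
  · have h2 : Real.cos δ ≤ 0 :=
      Real.cos_nonpos_of_pi_div_two_le_of_le (not_lt.1 h) (by linarith)
    have h3 : 0 < Real.sin δ := Real.sin_pos_of_pos_of_lt_pi h0 h1
    nlinarith

theorem tan_ineq {α β : ℝ} (hα : α ∈ Set.Ioo (-(Real.pi / 2)) (Real.pi / 2))
    (hβ : β ∈ Set.Ioo (-(Real.pi / 2)) (Real.pi / 2)) (h : α < β) :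
    (β - α) * (1 + Real.tan α * Real.tan β) ≤ Real.tan β - Real.tan α := by
  have ca := Real.cos_pos_of_mem_Ioo hα
  have cb := Real.cos_pos_of_mem_Ioo hβ
  have h1 := mul_cos_le_sin (δ := β - α) (by linarith) (by linarith [hα.1, hβ.2])
  rw [Real.cos_sub, Real.sin_sub] at h1
  rw [Real.tan_eq_sin_div_cos, Real.tan_eq_sin_div_cos]
  have e1 : (β - α) * (1 + Real.sin α / Real.cos α * (Real.sin β / Real.cos β)) =
      ((β - α) * (Real.cos β * Real.cos α + Real.sin β * Real.sin α)) /
        (Real.cos α * Real.cos β) := by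
    field_simp
  have e2 : Real.sin β / Real.cos β - Real.sin α / Real.cos α =
      (Real.sin β * Real.cos α - Real.cos β * Real.sin α) / (Real.cos α * Real.cos β) := by
    field_simp
  rw [e1, e2]
  exact div_le_div_of_nonneg_right h1 (mul_pos ca cb).le

end L4aux

open L4aux

theorem L4 : StPoly := by
  intro κ hκ
  have hpi := Real.pi_pos
  -- choice of `k`
  obtain ⟨k, hk0, hk1, hk2⟩ : ∃ k : ℝ, 0 < k ∧ k < Real.pi / 2 ∧ κ < k ^ 2 := by
    have h1 : √(max κ 0) < Real.pi / 2 := by
      rw [Real.sqrt_lt' (by positivity)]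
      rw [max_lt_iff]
      constructor
      · nlinarith
      · positivity
    obtain ⟨k, hk1, hk2⟩ := exists_between h1
    refine ⟨k, lt_of_le_of_lt (Real.sqrt_nonneg _) hk1, hk2, ?_⟩
    have h2 : max κ 0 < k ^ 2 := by
      rw [← Real.sqrt_lt' (lt_of_le_of_lt (Real.sqrt_nonneg _) hk1)]
      exact hk1
    exact lt_of_le_of_lt (le_max_left _ _) h2
  have hmem : ∀ x ∈ Set.Icc (-1 : ℝ) 1, k * x ∈ Set.Ioo (-(Real.pi / 2)) (Real.pi / 2) := by
    intro x hx
    constructor
    · nlinarith [hx.1]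
    · nlinarith [hx.2]
  have hcos : ∀ x ∈ Set.Icc (-1 : ℝ) 1, 0 < Real.cos (k * x) := fun x hx =>
    Real.cos_pos_of_mem_Ioo (hmem x hx)
  set g : ℝ → ℝ := fun x => k * Real.tan (k * x) with hg
  set f : ℝ → ℝ := fun x => k ^ 2 / Real.cos (k * x) ^ 2 with hf
  have hgd : ∀ x ∈ Set.Icc (-1 : ℝ) 1, HasDerivAt g (f x) x := by
    intro x hx
    have h1 : HasDerivAt (fun x : ℝ => k * x) k x := by
      simpa using (hasDerivAt_id x).const_mul k
    have h2 := (Real.hasDerivAt_tan (hcos x hx).ne').comp x h1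
    have h3 := h2.const_mul k
    have e : k * (1 / Real.cos (k * x) ^ 2 * k) = f x := by
      simp only [hf]
      ring
    rw [e] at h3
    exact h3
  have hfc : ContinuousOn f (Set.Icc (-1) 1) := by
    apply ContinuousOn.div continuousOn_const
    · exact (by fun_prop : Continuous fun x : ℝ => Real.cos (k * x) ^ 2).continuousOn
    · intro x hx
      exact pow_ne_zero 2 (hcos x hx).ne'
  have hgc : ContinuousOn g (Set.Icc (-1) 1) := fun x hx =>
    (hgd x hx).continuousAt.continuousWithinAt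
  obtain ⟨M, hM⟩ := isCompact_Icc.exists_bound_of_continuousOn hgc
  have hM0 : 0 ≤ M := le_trans (norm_nonneg _) (hM 0 (by constructor <;> norm_num))
  -- choice of `ε`
  obtain ⟨ε, hε0, hε1, hε⟩ : ∃ ε : ℝ, 0 < ε ∧ ε ≤ 1 ∧ ε * (2 * M + 2) ≤ k ^ 2 - κ := by
    refine ⟨min 1 ((k ^ 2 - κ) / (2 * M + 2)), ?_, min_le_left _ _, ?_⟩
    · apply lt_min one_pos
      apply div_pos (by linarith) (by positivity)
    · have : min 1 ((k ^ 2 - κ) / (2 * M + 2)) ≤ (k ^ 2 - κ) / (2 * M + 2) := min_le_right _ _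
      calc _ ≤ (k ^ 2 - κ) / (2 * M + 2) * (2 * M + 2) :=
            mul_le_mul_of_nonneg_right this (by positivity)
        _ = k ^ 2 - κ := by field_simp
  obtain ⟨q, hq⟩ := exists_polynomial_near_of_continuousOn (-1) 1 f hfc ε hε0
  set p := prim q with hp
  have hpd : ∀ x, HasDerivAt (fun x => p.eval x) (q.eval x) x := by
    intro x
    have := p.hasDerivAt x
    rw [hp, prim_deriv] at this
    exact this
  -- difference `p - g`
  have hdiff : ∀ a ∈ Set.Icc (-1 : ℝ) 1, ∀ b ∈ Set.Icc (-1 : ℝ) 1,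
      |(p.eval b - g b) - (p.eval a - g a)| ≤ ε * |b - a| := by
    intro a ha b hb
    have h := Convex.norm_image_sub_le_of_norm_hasDerivWithin_le (𝕜 := ℝ)
      (f := fun x => p.eval x - g x) (f' := fun x => q.eval x - f x)
      (s := Set.Icc (-1 : ℝ) 1) (x := a) (y := b) (C := ε)
      (fun x hx => ((hpd x).sub (hgd x hx)).hasDerivWithinAt)
      (fun x hx => (hq x hx).le) (convex_Icc _ _) ha hb
    exact h
  have hp0 : p.eval 0 = 0 := prim_zero q
  have hg0 : g 0 = 0 := by simp [hg]
  have hpg : ∀ a ∈ Set.Icc (-1 : ℝ) 1, |p.eval a - g a| ≤ ε := by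
    intro a ha
    have h := hdiff 0 (by constructor <;> norm_num) a ha
    rw [hp0, hg0, sub_zero, sub_zero, sub_zero] at h
    have h1 : |a| ≤ 1 := abs_le.2 ⟨ha.1, ha.2⟩
    nlinarith [abs_nonneg a]
  -- key inequality for `a < b`
  have key : ∀ a ∈ Set.Icc (-1 : ℝ) 1, ∀ b ∈ Set.Icc (-1 : ℝ) 1, a < b →
      (b - a) * (κ + p.eval a * p.eval b) ≤ p.eval b - p.eval a := by
    intro a ha b hb hab
    have h1 := tan_ineq (hmem a ha) (hmem b hb) (by nlinarith)
    have h2 : (b - a) * (k ^ 2 + g a * g b) ≤ g b - g a := by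
      have := mul_le_mul_of_nonneg_left h1 hk0.le
      simp only [hg]
      nlinarith
    have h3 := abs_le.1 (hdiff a ha b hb)
    rw [abs_of_pos (sub_pos.2 hab)] at h3
    have ha1 := abs_le.1 (hpg a ha)
    have hb1 := abs_le.1 (hpg b hb)
    have hga : |g a| ≤ M := hM a ha
    have hgb : |g b| ≤ M := hM b hb
    have h4 : p.eval a * p.eval b ≤ g a * g b + ε * (2 * M + 1) := by
      have e : p.eval a * p.eval b = g a * g b + (p.eval a - g a) * g b +
          (p.eval b - g b) * g a + (p.eval a - g a) * (p.eval b - g b) := by ring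
      have t1 : (p.eval a - g a) * g b ≤ ε * M := by
        calc _ ≤ |(p.eval a - g a) * g b| := le_abs_self _
          _ = |p.eval a - g a| * |g b| := abs_mul _ _
          _ ≤ ε * M := mul_le_mul (hpg a ha) hgb (abs_nonneg _) hε0.le
      have t2 : (p.eval b - g b) * g a ≤ ε * M := by
        calc _ ≤ |(p.eval b - g b) * g a| := le_abs_self _
          _ = |p.eval b - g b| * |g a| := abs_mul _ _
          _ ≤ ε * M := mul_le_mul (hpg b hb) hga (abs_nonneg _) hε0.le
      have t3 : (p.eval a - g a) * (p.eval b - g b) ≤ ε * 1 := by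
        calc _ ≤ |(p.eval a - g a) * (p.eval b - g b)| := le_abs_self _
          _ = |p.eval a - g a| * |p.eval b - g b| := abs_mul _ _
          _ ≤ ε * 1 := mul_le_mul (hpg a ha) ((hpg b hb).trans hε1) (abs_nonneg _) hε0.le
      rw [e]
      linarith
    have h5 : κ + p.eval a * p.eval b ≤ k ^ 2 + g a * g b - ε := by
      nlinarith
    have h6 := mul_le_mul_of_nonneg_left h5 (sub_pos.2 hab).le
    nlinarith [h3.1]
  refine ⟨p.natDegree + 1, cf p, cf_symm p, ?_⟩
  have hn : p.natDegree < p.natDegree + 1 := Nat.lt_succ_self _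
  -- the case `x ≠ z`
  have hne : ∀ x ∈ Set.Icc (-(1/2) : ℝ) (1/2), ∀ y ∈ Set.Icc (-(1/2) : ℝ) (1/2),
      ∀ z ∈ Set.Icc (-(1/2) : ℝ) (1/2), x ≠ z →
      κ ≤ DD (cf p) (p.natDegree + 1) x z y -
        PP (cf p) (p.natDegree + 1) x y * PP (cf p) (p.natDegree + 1) z y := by
    intro x hx y hy z hz hxz
    have h1 := dd_mul (cf p) (p.natDegree + 1) x z y
    rw [pp_eq p _ hn, pp_eq p _ hn] at h1 ⊢
    have hb : x + y ∈ Set.Icc (-1 : ℝ) 1 := ⟨by linarith [hx.1, hy.1], by linarith [hx.2, hy.2]⟩
    have ha : z + y ∈ Set.Icc (-1 : ℝ) 1 := ⟨by linarith [hz.1, hy.1], by linarith [hz.2, hy.2]⟩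
    rcases lt_or_gt_of_ne hxz with h | h
    · have h2 := key (x + y) hb (z + y) ha (by linarith)
      have h3 : 0 < z - x := sub_pos.2 h
      have h4 : (z - x) * (κ + p.eval (x + y) * p.eval (z + y)) ≤
          (z - x) * DD (cf p) (p.natDegree + 1) x z y := by
        have e1 : z + y - (x + y) = z - x := by ring
        rw [e1] at h2
        nlinarith
      have h5 := le_of_mul_le_mul_left h4 h3
      linarith
    · have h2 := key (z + y) ha (x + y) hb (by linarith)
      have h3 : 0 < x - z := sub_pos.2 h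
      have h4 : (x - z) * (κ + p.eval (z + y) * p.eval (x + y)) ≤
          (x - z) * DD (cf p) (p.natDegree + 1) x z y := by
        have e1 : x + y - (z + y) = x - z := by ring
        rw [e1] at h2
        nlinarith
      have h5 := le_of_mul_le_mul_left h4 h3
      linarith [mul_comm (p.eval (z + y)) (p.eval (x + y))]
  intro x hx y hy z hz
  by_cases hxz : x = z
  · subst hxz
    -- limit argument
    set w : ℝ := if x ≤ 0 then 1 / 2 else -(1 / 2) with hw
    have hwI : w ∈ Set.Icc (-(1/2) : ℝ) (1/2) := by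
      rw [hw]
      split_ifs <;> constructor <;> norm_num
    have hwx : w ≠ x := by
      rw [hw]
      split_ifs with h
      · intro h'; linarith
      · intro h'; push Not at h; linarith
    set s : ℕ → ℝ := fun j => x + (w - x) * (1 / ((j : ℝ) + 1)) with hs
    have hlim : Filter.Tendsto s Filter.atTop (nhds x) := by
      have h1 := (tendsto_one_div_add_atTop_nhds_zero_nat (𝕜 := ℝ)).const_mul (w - x)
      have h2 := h1.const_add x
      rw [mul_zero, add_zero] at h2
      exact h2
    have hsI : ∀ j, s j ∈ Set.Icc (-(1/2) : ℝ) (1/2) := by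
      intro j
      have h1 : 0 ≤ 1 / ((j : ℝ) + 1) := by positivity
      have h2 : 1 / ((j : ℝ) + 1) ≤ 1 := by
        rw [div_le_one (by positivity)]
        have : (0 : ℝ) ≤ j := Nat.cast_nonneg _
        linarith
      constructor
      · simp only [hs]
        nlinarith [hx.1, hwI.1]
      · simp only [hs]
        nlinarith [hx.2, hwI.2]
    have hsne : ∀ j, s j ≠ x := by
      intro j h
      have h1 : (w - x) * (1 / ((j : ℝ) + 1)) = 0 := by
        simp only [hs] at h
        linarith
      rcases mul_eq_zero.1 h1 with h2 | h2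
      · exact hwx (sub_eq_zero.1 h2)
      · have : (0 : ℝ) < 1 / ((j : ℝ) + 1) := by positivity
        linarith
    have hcont : Continuous fun t : ℝ => DD (cf p) (p.natDegree + 1) t x y -
        PP (cf p) (p.natDegree + 1) t y * PP (cf p) (p.natDegree + 1) x y := by
      unfold DD PP
      fun_prop
    have hlim2 := (hcont.tendsto x).comp hlim
    refine ge_of_tendsto' hlim2 fun j => ?_
    exact hne (s j) (hsI j) y hy x hx (hsne j)
  · exact hne x hx y hy z hz hxz

end H187LT
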