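import Pool.Agent.H187R2.LT.Stubs

/-! L5: the sharp one-dimensional kinetic inequality for Bessel systems (assembly). -/

set_option autoImplicit false
open scoped Matrix BigOperators
open MeasureTheory

namespace H187LT

namespace L5Aux

variable {N : ℕ}

theorem tr1 (a b : Fin N → ℂ) (F : Mat N) :
    Matrix.trace (Matrix.vecMulVec a b * F) = b ⬝ᵥ (F *ᵥ a) := by
  rw [Matrix.vecMulVec_mul, Matrix.trace_vecMulVec, Matrix.dotProduct_mulVec, dotProduct_comm]

theorem herm_swap {F : Mat N} (hF : F.IsHermitian) (v w : Fin N → ℂ) :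
    star v ⬝ᵥ (F *ᵥ w) = star (star w ⬝ᵥ (F *ᵥ v)) := by
  have h1 : star (star w ⬝ᵥ (F *ᵥ v)) = star (F *ᵥ v) ⬝ᵥ w := by
    rw [Matrix.star_dotProduct, star_star]
  rw [h1, Matrix.star_mulVec, hF.eq, ← Matrix.dotProduct_mulVec]

theorem sq_re (x : Fin N → ℂ) : (star x ⬝ᵥ x).re = ∑ i, ‖x i‖ ^ 2 := by
  unfold dotProduct
  rw [Complex.re_sum]
  refine Finset.sum_congr rfl fun i _ => ?_
  rw [← Complex.normSq_eq_norm_sq, Pi.star_apply, Complex.star_def, ← Complex.normSq_eq_conj_mul_self,
    Complex.ofReal_re]

theorem add_sq_re (w y : Fin N → ℂ) :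
    ∑ i, ‖w i + y i‖ ^ 2 = ∑ i, ‖w i‖ ^ 2 + 2 * (star w ⬝ᵥ y).re + ∑ i, ‖y i‖ ^ 2 := by
  unfold dotProduct
  rw [Complex.re_sum, Finset.mul_sum, ← Finset.sum_add_distrib, ← Finset.sum_add_distrib]
  refine Finset.sum_congr rfl fun i _ => ?_
  rw [← Complex.normSq_eq_norm_sq, ← Complex.normSq_eq_norm_sq, ← Complex.normSq_eq_norm_sq,
    Complex.normSq_add]
  simp only [Pi.star_apply, Complex.star_def, Complex.mul_re, Complex.conj_re, Complex.conj_im]
  ring

theorem square {F : Mat N} (hF : F.IsHermitian) (v w : Fin N → ℂ) :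
    0 ≤ ∑ i, ‖w i‖ ^ 2 +
      (Matrix.trace ((Matrix.vecMulVec w (star v) + Matrix.vecMulVec v (star w)) * F)).re +
      (Matrix.trace (Matrix.vecMulVec v (star v) * F * F)).re := by
  have h1 : (Matrix.trace ((Matrix.vecMulVec w (star v) + Matrix.vecMulVec v (star w)) * F)).re =
      2 * (star w ⬝ᵥ (F *ᵥ v)).re := by
    rw [Matrix.add_mul, Matrix.trace_add, tr1, tr1, herm_swap hF v w, Complex.add_re,
      Complex.star_def, Complex.conj_re]
    ring
  have h2 : (Matrix.trace (Matrix.vecMulVec v (star v) * F * F)).re = ∑ i, ‖(F *ᵥ v) i‖ ^ 2 := by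
    rw [Matrix.mul_assoc, tr1, ← Matrix.mulVec_mulVec, ← sq_re, Matrix.star_mulVec, hF.eq,
      ← Matrix.dotProduct_mulVec]
  rw [h1, h2, ← add_sq_re]
  positivity

end L5Aux

open L5Aux in
theorem L5 (hGT : StGT) (hSP : StSP) (hPoly : StPoly) : StLT1 := by
  intro N u hu hc hB
  -- derivatives
  have hcont : ∀ n, Continuous (u n) := fun n => (hu n).continuous
  have hdc : ∀ n, Continuous (deriv (u n)) := fun n => (hu n).continuous_deriv le_rfl
  have hd : ∀ n t, HasDerivAt (u n) (deriv (u n) t) t := fun n t =>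
    ((hu n).differentiable one_ne_zero t).hasDerivAt
  have hcd : ∀ n, HasCompactSupport (deriv (u n)) := fun n => (hc n).deriv
  -- the radius
  obtain ⟨R, hR0, hR⟩ : ∃ R : ℝ, 0 < R ∧ ∀ n x, R ≤ |x| → u n x = 0 ∧ deriv (u n) x = 0 := by
    have h1 : ∀ n, ∃ r : ℝ, tsupport (u n) ⊆ Metric.closedBall 0 r := fun n =>
      (hc n).isCompact.isBounded.subset_closedBall 0
    choose r hr using h1
    refine ⟨∑ n, |r n| + 1, by positivity, fun n x hx => ?_⟩
    have h2 : x ∉ tsupport (u n) := by
      intro hx'
      have h3 := hr n hx'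
      rw [Metric.mem_closedBall, dist_zero_right, Real.norm_eq_abs] at h3
      have h4 : |r n| ≤ ∑ n, |r n| :=
        Finset.single_le_sum (f := fun n => |r n|) (fun _ _ => abs_nonneg _) (Finset.mem_univ n)
      have h5 := le_abs_self (r n)
      linarith
    exact ⟨image_eq_zero_of_notMem_tsupport h2,
      Function.notMem_support.1 (fun h => h2 (support_deriv_subset h))⟩
  -- the matrices
  let v : ℝ → Fin N → ℂ := fun t n => u n t
  let w : ℝ → Fin N → ℂ := fun t n => deriv (u n) t
  let G : ℝ → Mat N := fun t => Matrix.vecMulVec (v t) (star (v t))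
  let G' : ℝ → Mat N := fun t => Matrix.vecMulVec (w t) (star (v t)) +
    Matrix.vecMulVec (v t) (star (w t))
  let τ : ℝ → ℝ := fun t => ∑ n, ‖deriv (u n) t‖ ^ 2
  have hGij : ∀ t i j, G t i j = u i t * star (u j t) := fun t i j => rfl
  have hG'ij : ∀ t i j, G' t i j = deriv (u i) t * star (u j t) + u i t * star (deriv (u j) t) :=
    fun t i j => rfl
  have hGd : ∀ t i j, HasDerivAt (fun s => G s i j) (G' t i j) t := by
    intro t i j
    exact (hd i t).mul (hd j t).star
  have hGc : ∀ i j, Continuous (fun t => G t i j) := fun i j =>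
    (hcont i).mul (hcont j).star
  have hG'c : ∀ i j, Continuous (fun t => G' t i j) := fun i j =>
    ((hdc i).mul (hcont j).star).add ((hcont i).mul (hdc j).star)
  have hGH : ∀ t, (G t).IsHermitian := by
    intro t
    ext i j
    rw [Matrix.conjTranspose_apply, hGij, hGij, star_mul', star_star, mul_comm]
  have hG0 : ∀ t, R ≤ |t| → G t = 0 := by
    intro t ht
    ext i j
    rw [hGij, (hR i t ht).1, zero_mul]
    rfl
  have hτc : Continuous τ := continuous_finsetSum _ fun n _ => ((hdc n).norm.pow 2)
  -- half bound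
  have hHalf : ∀ t ∈ Set.Icc (-R) R, HalfBd (Am G R t) := by
    intro t ht
    have hSm : ∀ i j, Sm G R t i j = ∫ s in (-R)..t, G s i j := fun i j => rfl
    constructor
    · have h1 : (Sm G R t).IsHermitian := by
        ext i j
        rw [Matrix.conjTranspose_apply, hSm, hSm, intervalIntegral.integral_of_le ht.1,
          intervalIntegral.integral_of_le ht.1, Complex.star_def, ← integral_conj]
        refine integral_congr_ae (Filter.Eventually.of_forall fun s => ?_)
        have h2 := congrFun (congrFun (hGH s) i) j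
        rw [Matrix.conjTranspose_apply] at h2
        exact h2
      unfold Am
      refine h1.sub ?_
      ext i j
      simp only [Matrix.conjTranspose_apply, Matrix.smul_apply, Matrix.one_apply, smul_eq_mul]
      by_cases hij : i = j
      · rw [if_pos hij, if_pos hij.symm]
        simp
      · rw [if_neg hij, if_neg (fun h => hij h.symm)]
        simp
    · intro x
      obtain ⟨φ, hφ⟩ : ∃ φ : ℝ → ℂ, φ = fun s => ∑ n, star (x n) * u n s := ⟨_, rfl⟩
      have hφc : Continuous φ := by
        rw [hφ]
        exact continuous_finsetSum _ fun n _ => continuous_const.mul (hcont n)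
      have hφs : HasCompactSupport (fun s => ‖φ s‖ ^ 2) := by
        refine HasCompactSupport.intro (isCompact_Icc (a := -R) (b := R)) fun s hs => ?_
        have h3 : R ≤ |s| := by
          by_contra hcon
          push Not at hcon
          exact hs ⟨(abs_lt.1 hcon).1.le, (abs_lt.1 hcon).2.le⟩
        have h4 : φ s = 0 := by
          rw [hφ]
          exact Finset.sum_eq_zero fun n _ => by rw [(hR n s h3).1, mul_zero]
        simp only [h4]
        simp
      have hφi : Integrable (fun s => ‖φ s‖ ^ 2) :=
        (hφc.norm.pow 2).integrable_of_hasCompactSupport hφs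
      have e1 : star x ⬝ᵥ (Sm G R t *ᵥ x) = ((∫ s in (-R)..t, ‖φ s‖ ^ 2 : ℝ) : ℂ) := by
        rw [← intervalIntegral.integral_ofReal]
        have e2 : star x ⬝ᵥ (Sm G R t *ᵥ x) =
            ∑ i, ∑ j, ∫ s in (-R)..t, star (x i) * (G s i j * x j) := by
          unfold dotProduct
          refine Finset.sum_congr rfl fun i _ => ?_
          rw [Matrix.mulVec, dotProduct, Finset.mul_sum]
          refine Finset.sum_congr rfl fun j _ => ?_
          rw [intervalIntegral.integral_const_mul, intervalIntegral.integral_mul_const, ← hSm]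
          rfl
        rw [e2]
        have hint : ∀ i j, IntervalIntegrable (fun s => star (x i) * (G s i j * x j)) volume (-R) t :=
          fun i j => (continuous_const.mul ((hGc i j).mul continuous_const)).intervalIntegrable _ _
        have e3 : ∀ i, ∑ j, ∫ s in (-R)..t, star (x i) * (G s i j * x j) =
            ∫ s in (-R)..t, ∑ j, star (x i) * (G s i j * x j) := fun i =>
          (intervalIntegral.integral_finsetSum fun j _ => hint i j).symm
        simp only [e3]
        rw [← intervalIntegral.integral_finsetSum]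
        · refine intervalIntegral.integral_congr fun s _ => ?_
          have e4 : ((‖φ s‖ ^ 2 : ℝ) : ℂ) = φ s * star (φ s) := by
            rw [Complex.star_def, Complex.mul_conj, Complex.normSq_eq_norm_sq]
          rw [e4, hφ]
          simp only
          rw [star_sum, Finset.sum_mul_sum]
          refine Finset.sum_congr rfl fun i _ => Finset.sum_congr rfl fun j _ => ?_
          rw [hGij, star_mul', star_star]
          ring
        · intro i _
          exact (continuous_finsetSum _ fun j _ =>
            continuous_const.mul ((hGc i j).mul continuous_const)).intervalIntegrable _ _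
      have e5 : (star x ⬝ᵥ (Am G R t *ᵥ x)).re =
          (∫ s in (-R)..t, ‖φ s‖ ^ 2) - (1 / 2) * ∑ i, ‖x i‖ ^ 2 := by
        unfold Am
        rw [Matrix.sub_mulVec, dotProduct_sub, e1, Matrix.smul_mulVec, Matrix.one_mulVec,
          dotProduct_smul, Complex.sub_re, Complex.ofReal_re, ← sq_re]
        congr 1
        rw [smul_eq_mul, Complex.mul_re]
        norm_num
      have h6 : 0 ≤ ∫ s in (-R)..t, ‖φ s‖ ^ 2 :=
        intervalIntegral.integral_nonneg ht.1 fun s _ => by positivity
      have h7 : ∫ s in (-R)..t, ‖φ s‖ ^ 2 ≤ ∑ i, ‖x i‖ ^ 2 := by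
        rw [intervalIntegral.integral_of_le ht.1]
        refine (setIntegral_le_integral hφi (Filter.Eventually.of_forall fun s => by positivity)).trans ?_
        have h8 := hB (fun n => star (x n))
        rw [hφ]
        refine h8.trans (le_of_eq ?_)
        refine Finset.sum_congr rfl fun n _ => ?_
        rw [norm_star]
      rw [e5, abs_le]
      constructor <;> linarith
  -- continuity of the integrands
  have hAc : Continuous (fun t => Am G R t) := by
    unfold Am
    refine Continuous.sub ?_ continuous_const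
    refine continuous_matrix fun i j => ?_
    exact intervalIntegral.continuous_primitive (fun a b => (hGc i j).intervalIntegrable a b) (-R)
  have hGcm : Continuous G := continuous_matrix fun i j => hGc i j
  -- main estimate
  have hmain : ∀ κ : ℝ, κ < Real.pi ^ 2 / 4 →
      κ * ∫ x, (∑ n, ‖u n x‖ ^ 2) ^ 3 ≤ ∑ n, ∫ x, ‖deriv (u n) x‖ ^ 2 := by
    intro κ hκ
    obtain ⟨n, c, hsym, hcn⟩ := hPoly κ hκ
    have h1 := hGT N c n R G G' τ hR0 hsym hGd hG'c hGH
      (hG0 _ (by rw [abs_neg, abs_of_pos hR0])) (hG0 _ (by rw [abs_of_pos hR0])) hτc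
      (fun t F hF => square hF (v t) (w t))
    have hFmc : Continuous (fun t => Fm c n (Am G R t) (G t)) := by
      unfold Fm
      refine continuous_finsetSum _ fun a _ => continuous_finsetSum _ fun b _ => ?_
      have h9 : Continuous (fun _ : ℝ => ((c a b : ℝ) : ℂ)) := continuous_const
      exact h9.smul (((hAc.pow a).mul hGcm).mul (hAc.pow b))
    have hDc : Continuous (fun t => Dm c n (Am G R t) (G t)) := by
      unfold Dm
      refine continuous_finsetSum _ fun a _ => continuous_finsetSum _ fun b _ => ?_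
      refine continuous_const.mul (continuous_finsetSum _ fun e _ => ?_)
      refine Complex.continuous_re.comp (Continuous.matrix_trace ?_)
      exact (((((hGcm.mul (hAc.pow e)).mul hGcm).mul (hAc.pow (a - 1 - e))).mul hGcm).mul
        (hAc.pow b))
    have hQc : Continuous (fun t => Qm c n (Am G R t) (G t)) := by
      unfold Qm
      exact Complex.continuous_re.comp (Continuous.matrix_trace ((hGcm.mul hFmc).mul hFmc))
    have hρc : Continuous (fun t => κ * (∑ n, ‖u n t‖ ^ 2) ^ 3) :=
      continuous_const.mul ((continuous_finsetSum _ fun n _ => (hcont n).norm.pow 2).pow 3)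
    have h2 : ∫ t in (-R)..R, κ * (∑ n, ‖u n t‖ ^ 2) ^ 3 ≤
        ∫ t in (-R)..R, (Dm c n (Am G R t) (G t) - Qm c n (Am G R t) (G t)) := by
      refine intervalIntegral.integral_mono_on (by linarith) (hρc.intervalIntegrable _ _)
        ((hDc.sub hQc).intervalIntegrable _ _) fun t ht => ?_
      exact hSP N c n κ (Am G R t) (v t) hsym (hHalf t ht) hcn
    have h3 := h2.trans h1
    rw [intervalIntegral.integral_const_mul] at h3
    have hout : ∀ x, x ∉ Set.Ioc (-R) R → R ≤ |x| := by
      intro x hx
      by_contra hcon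
      push Not at hcon
      exact hx ⟨(abs_lt.1 hcon).1, (abs_lt.1 hcon).2.le⟩
    have e1 : ∫ t in (-R)..R, (∑ n, ‖u n t‖ ^ 2) ^ 3 = ∫ x, (∑ n, ‖u n x‖ ^ 2) ^ 3 := by
      refine intervalIntegral.integral_eq_integral_of_support_subset fun x hx => ?_
      by_contra hcon
      apply hx
      have h4 := hout x hcon
      have h5 : ∑ n, ‖u n x‖ ^ 2 = 0 :=
        Finset.sum_eq_zero fun n _ => by rw [(hR n x h4).1]; simp
      simp only [h5]
      norm_num
    have e2 : ∫ t in (-R)..R, τ t = ∫ x, τ x := by
      refine intervalIntegral.integral_eq_integral_of_support_subset fun x hx => ?_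
      by_contra hcon
      apply hx
      have h4 := hout x hcon
      exact Finset.sum_eq_zero fun n _ => by rw [(hR n x h4).2]; simp
    have e3 : ∫ x, τ x = ∑ n, ∫ x, ‖deriv (u n) x‖ ^ 2 := by
      refine integral_finsetSum _ fun n _ => ?_
      refine ((hdc n).norm.pow 2).integrable_of_hasCompactSupport ?_
      exact (hcd n).norm.comp_left (g := fun y : ℝ => y ^ 2) (by norm_num)
    rw [e1, e2, e3] at h3
    exact h3
  -- limit
  obtain ⟨I, hI⟩ : ∃ I, I = ∫ x, (∑ n, ‖u n x‖ ^ 2) ^ 3 := ⟨_, rfl⟩
  obtain ⟨T, hT⟩ : ∃ T, T = ∑ n, ∫ x, ‖deriv (u n) x‖ ^ 2 := ⟨_, rfl⟩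
  rw [← hI, ← hT] at hmain ⊢
  have hI0 : 0 ≤ I := by
    rw [hI]
    exact integral_nonneg fun x => by positivity
  by_contra hcon
  push Not at hcon
  have hpi : 0 < Real.pi ^ 2 / 4 := by positivity
  have hT0 : 0 ≤ T := by
    have := hmain 0 hpi
    linarith
  have hI1 : 0 < I := by
    rcases hI0.lt_or_eq with h | h
    · exact h
    · rw [← h] at hcon
      linarith
  have h5 : T / I < Real.pi ^ 2 / 4 := by
    rw [div_lt_iff₀ hI1]
    exact hcon
  have h6 := hmain ((T / I + Real.pi ^ 2 / 4) / 2) (by linarith)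
  have h7 : T / I < (T / I + Real.pi ^ 2 / 4) / 2 := by linarith
  rw [div_lt_iff₀ hI1] at h7
  linarith

end H187LT
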