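import Pool.Agent.H187R2.LT.Stubs2

set_option autoImplicit false
open scoped Matrix BigOperators
open MeasureTheory

/-! Task L6a (helper187): the integrals of the profile. -/

namespace H187LT

namespace L6a

open Filter Topology

theorem C_ge (x : ℝ) : 1 + x ^ 2 ≤ Real.cosh (2 * x) := by
  have h1 : Real.cosh (2 * x) = 1 + 2 * Real.sinh x ^ 2 := by
    rw [Real.cosh_two_mul, Real.cosh_sq]
    ring
  have h2 : |x| ≤ |Real.sinh x| := by
    rw [Real.abs_sinh]
    exact Real.self_le_sinh_iff.2 (abs_nonneg x)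
  have h3 : x ^ 2 ≤ Real.sinh x ^ 2 := sq_le_sq.2 h2
  rw [h1]
  nlinarith [sq_nonneg x]

theorem C_ge_one (x : ℝ) : 1 ≤ Real.cosh (2 * x) := Real.one_le_cosh _

theorem C_pos (x : ℝ) : 0 < Real.cosh (2 * x) := Real.cosh_pos _

theorem sqC_pos (x : ℝ) : 0 < Real.sqrt (Real.cosh (2 * x)) := Real.sqrt_pos.2 (C_pos x)

theorem gs_pos (x : ℝ) : 0 < gs x := one_div_pos.2 (sqC_pos x)

theorem gs_sq (x : ℝ) : gs x ^ 2 = 1 / Real.cosh (2 * x) := by
  unfold gs
  rw [div_pow, one_pow, Real.sq_sqrt (C_pos x).le]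

theorem gs_six (x : ℝ) : gs x ^ 6 = 1 / Real.cosh (2 * x) ^ 3 := by
  have : gs x ^ 6 = (gs x ^ 2) ^ 3 := by ring
  rw [this, gs_sq, div_pow, one_pow]

theorem gs_le_one (x : ℝ) : gs x ≤ 1 := by
  unfold gs
  rw [div_le_one (sqC_pos x), Real.one_le_sqrt]
  exact C_ge_one x

theorem gs_contDiff : ContDiff ℝ 1 gs := by
  unfold gs
  refine contDiff_const.div (ContDiff.sqrt ?_ (fun x => (C_pos x).ne')) (fun x => (sqC_pos x).ne')
  exact Real.contDiff_cosh.comp (contDiff_const.mul contDiff_id)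

theorem gs_exp (x : ℝ) : |gs x| ≤ 2 * Real.exp (-|x|) := by
  refine abs_le_of_sq_le_sq ?_ (by positivity)
  rw [gs_sq]
  have h1 : Real.cosh (2 * x) = Real.cosh (2 * |x|) := by
    rw [← Real.cosh_abs (2 * x), abs_mul, abs_of_nonneg (by norm_num : (0 : ℝ) ≤ 2)]
  have h2 : Real.exp (2 * |x|) / 2 ≤ Real.cosh (2 * x) := by
    rw [h1, Real.cosh_eq]
    have := Real.exp_pos (-(2 * |x|))
    linarith
  have h3 : Real.exp (-|x|) ^ 2 * Real.exp (2 * |x|) = 1 := by
    rw [← Real.exp_nat_mul, ← Real.exp_add]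
    have : ((2 : ℕ) : ℝ) * -|x| + 2 * |x| = 0 := by push_cast; ring
    rw [this, Real.exp_zero]
  rw [div_le_iff₀ (C_pos x)]
  have h4 : (2 * Real.exp (-|x|)) ^ 2 * (Real.exp (2 * |x|) / 2) ≤
      (2 * Real.exp (-|x|)) ^ 2 * Real.cosh (2 * x) :=
    mul_le_mul_of_nonneg_left h2 (by positivity)
  have h5 : (2 * Real.exp (-|x|)) ^ 2 * (Real.exp (2 * |x|) / 2) = 2 := by
    calc (2 * Real.exp (-|x|)) ^ 2 * (Real.exp (2 * |x|) / 2)
        = 2 * (Real.exp (-|x|) ^ 2 * Real.exp (2 * |x|)) := by ring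
      _ = 2 := by rw [h3, mul_one]
  linarith

theorem cosh_deriv (x : ℝ) : HasDerivAt (fun y : ℝ => Real.cosh (2 * y)) (2 * Real.sinh (2 * x)) x := by
  have h := (Real.hasDerivAt_cosh (2 * x)).comp x ((hasDerivAt_id x).const_mul 2)
  simp only [Function.comp_def, mul_one] at h
  rw [mul_comm]
  exact h

theorem sinh_deriv (x : ℝ) : HasDerivAt (fun y : ℝ => Real.sinh (2 * y)) (2 * Real.cosh (2 * x)) x := by
  have h := (Real.hasDerivAt_sinh (2 * x)).comp x ((hasDerivAt_id x).const_mul 2)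
  simp only [Function.comp_def, mul_one] at h
  rw [mul_comm]
  exact h

theorem gs_deriv (x : ℝ) :
    HasDerivAt gs (-(Real.sinh (2 * x) / Real.cosh (2 * x)) * gs x) x := by
  have h1 := ((cosh_deriv x).sqrt (C_pos x).ne').inv (sqC_pos x).ne'
  have h2 : (fun y => (Real.sqrt (Real.cosh (2 * y)))⁻¹) = gs := by
    funext y
    unfold gs
    rw [one_div]
  have h3 : -(2 * Real.sinh (2 * x) / (2 * Real.sqrt (Real.cosh (2 * x)))) /
      Real.sqrt (Real.cosh (2 * x)) ^ 2 = -(Real.sinh (2 * x) / Real.cosh (2 * x)) * gs x := by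
    unfold gs
    have h4 := sqC_pos x
    rw [Real.sq_sqrt (C_pos x).le]
    have h5 := C_pos x
    field_simp
  rw [← h3]
  have h6 : HasDerivAt (fun y => (Real.sqrt (Real.cosh (2 * y)))⁻¹)
    (-(2 * Real.sinh (2 * x) / (2 * Real.sqrt (Real.cosh (2 * x)))) /
      Real.sqrt (Real.cosh (2 * x)) ^ 2) x := h1
  rwa [h2] at h6

theorem int_gs2 : Integrable (fun x => gs x ^ 2) := by
  refine integrable_inv_one_add_sq.mono' (gs_contDiff.continuous.pow 2).aestronglyMeasurable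
    (Filter.Eventually.of_forall (fun x => ?_))
  rw [Real.norm_of_nonneg (by positivity), gs_sq, one_div]
  exact inv_anti₀ (by positivity) (C_ge x)

theorem int_gs6 : Integrable (fun x => gs x ^ 6) := by
  refine int_gs2.mono' (gs_contDiff.continuous.pow 6).aestronglyMeasurable
    (Filter.Eventually.of_forall (fun x => ?_))
  have h0 := (gs_pos x).le
  rw [Real.norm_of_nonneg (by positivity)]
  exact pow_le_pow_of_le_one h0 (gs_le_one x) (by norm_num)

theorem sinh_top : Tendsto (fun x : ℝ => Real.sinh (2 * x)) atTop atTop :=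
  Real.sinhOrderIso.tendsto_atTop.comp (tendsto_id.const_mul_atTop (by norm_num : (0 : ℝ) < 2))

theorem sinh_bot : Tendsto (fun x : ℝ => Real.sinh (2 * x)) atBot atBot :=
  Real.sinhOrderIso.tendsto_atBot.comp (tendsto_id.const_mul_atBot (by norm_num : (0 : ℝ) < 2))

theorem arctan_top : Tendsto (fun x : ℝ => Real.arctan (Real.sinh (2 * x))) atTop
    (𝓝 (Real.pi / 2)) :=
  (tendsto_nhds_of_tendsto_nhdsWithin Real.tendsto_arctan_atTop).comp sinh_top

theorem arctan_bot : Tendsto (fun x : ℝ => Real.arctan (Real.sinh (2 * x))) atBot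
    (𝓝 (-(Real.pi / 2))) :=
  (tendsto_nhds_of_tendsto_nhdsWithin Real.tendsto_arctan_atBot).comp sinh_bot

theorem arctan_deriv (x : ℝ) : HasDerivAt (fun y : ℝ => Real.arctan (Real.sinh (2 * y)))
    (2 / Real.cosh (2 * x)) x := by
  have h := (sinh_deriv x).arctan
  have h1 : 1 / (1 + Real.sinh (2 * x) ^ 2) * (2 * Real.cosh (2 * x)) = 2 / Real.cosh (2 * x) := by
    have h2 : 1 + Real.sinh (2 * x) ^ 2 = Real.cosh (2 * x) ^ 2 := by
      rw [Real.cosh_sq]; ring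
    rw [h2]
    have h3 := C_pos x
    field_simp
  rwa [h1] at h

theorem int2 : (∫ x, gs x ^ 2) = Real.pi / 2 := by
  have hd : ∀ x : ℝ, HasDerivAt (fun y : ℝ => (1 / 2) * Real.arctan (Real.sinh (2 * y)))
      (gs x ^ 2) x := by
    intro x
    have h := (arctan_deriv x).const_mul (1 / 2 : ℝ)
    have h1 : (1 / 2 : ℝ) * (2 / Real.cosh (2 * x)) = gs x ^ 2 := by
      rw [gs_sq]; ring
    rwa [h1] at h
  rw [integral_of_hasDerivAt_of_tendsto hd int_gs2 (arctan_bot.const_mul (1 / 2))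
    (arctan_top.const_mul (1 / 2))]
  ring

theorem S_bound (x : ℝ) : |Real.sinh (2 * x) / Real.cosh (2 * x) ^ 2| ≤ (1 + x ^ 2)⁻¹ := by
  have hC := C_pos x
  have h1 : |Real.sinh (2 * x)| ≤ Real.cosh (2 * x) := by
    apply abs_le_of_sq_le_sq _ hC.le
    rw [Real.cosh_sq]
    linarith
  rw [abs_div, abs_of_nonneg (by positivity : 0 ≤ Real.cosh (2 * x) ^ 2)]
  calc |Real.sinh (2 * x)| / Real.cosh (2 * x) ^ 2 ≤ Real.cosh (2 * x) / Real.cosh (2 * x) ^ 2 :=
        div_le_div_of_nonneg_right h1 (by positivity)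
    _ = (Real.cosh (2 * x))⁻¹ := by field_simp
    _ ≤ (1 + x ^ 2)⁻¹ := inv_anti₀ (by positivity) (C_ge x)

theorem B_top : Tendsto (fun x : ℝ => (1 + x ^ 2)⁻¹) atTop (𝓝 0) :=
  tendsto_inv_atTop_zero.comp
    (tendsto_atTop_add_const_left _ 1 (tendsto_pow_atTop two_ne_zero))

theorem B_bot : Tendsto (fun x : ℝ => (1 + x ^ 2)⁻¹) atBot (𝓝 0) := by
  have h := B_top.comp tendsto_neg_atBot_atTop
  simpa [Function.comp_def] using h

theorem S_top : Tendsto (fun x : ℝ => Real.sinh (2 * x) / Real.cosh (2 * x) ^ 2) atTop (𝓝 0) :=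
  squeeze_zero_norm (fun x => by rw [Real.norm_eq_abs]; exact S_bound x) B_top

theorem S_bot : Tendsto (fun x : ℝ => Real.sinh (2 * x) / Real.cosh (2 * x) ^ 2) atBot (𝓝 0) :=
  squeeze_zero_norm (fun x => by rw [Real.norm_eq_abs]; exact S_bound x) B_bot

theorem S_deriv (x : ℝ) : HasDerivAt (fun y : ℝ => Real.sinh (2 * y) / Real.cosh (2 * y) ^ 2)
    (4 / Real.cosh (2 * x) ^ 3 - 2 / Real.cosh (2 * x)) x := by
  have hC := C_pos x
  have h := (sinh_deriv x).div ((cosh_deriv x).pow 2) (pow_pos hC 2).ne'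
  have h2 : Real.sinh (2 * x) ^ 2 = Real.cosh (2 * x) ^ 2 - 1 := by
    rw [Real.cosh_sq]; ring
  have h1 : (2 * Real.cosh (2 * x) * Real.cosh (2 * x) ^ 2 - Real.sinh (2 * x) *
      (((2 : ℕ) : ℝ) * Real.cosh (2 * x) ^ (2 - 1) * (2 * Real.sinh (2 * x)))) /
      (Real.cosh (2 * x) ^ 2) ^ 2 = 4 / Real.cosh (2 * x) ^ 3 - 2 / Real.cosh (2 * x) := by
    have e : 2 * Real.cosh (2 * x) * Real.cosh (2 * x) ^ 2 - Real.sinh (2 * x) *
      (((2 : ℕ) : ℝ) * Real.cosh (2 * x) ^ (2 - 1) * (2 * Real.sinh (2 * x))) =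
      Real.cosh (2 * x) * (4 - 2 * Real.cosh (2 * x) ^ 2) := by
      push_cast
      rw [pow_one]
      linear_combination (-4 * Real.cosh (2 * x)) * h2
    rw [e]
    field_simp
  rw [← h1]
  exact h

theorem int6 : (∫ x, gs x ^ 6) = Real.pi / 4 := by
  have hd : ∀ x : ℝ, HasDerivAt (fun y : ℝ => (1 / 4) * (Real.sinh (2 * y) / Real.cosh (2 * y) ^ 2 +
      Real.arctan (Real.sinh (2 * y)))) (gs x ^ 6) x := by
    intro x
    have h := ((S_deriv x).add (arctan_deriv x)).const_mul (1 / 4 : ℝ)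
    have h1 : (1 / 4 : ℝ) * (4 / Real.cosh (2 * x) ^ 3 - 2 / Real.cosh (2 * x) +
        2 / Real.cosh (2 * x)) = gs x ^ 6 := by
      rw [gs_six]; ring
    rw [h1] at h
    exact h
  rw [integral_of_hasDerivAt_of_tendsto hd int_gs6 ((S_bot.add arctan_bot).const_mul (1 / 4))
    ((S_top.add arctan_top).const_mul (1 / 4))]
  ring

theorem deriv_sq (x : ℝ) : deriv gs x ^ 2 = gs x ^ 2 - gs x ^ 6 := by
  rw [(gs_deriv x).deriv, gs_six]
  have hC := C_pos x
  have h2 : Real.sinh (2 * x) ^ 2 = Real.cosh (2 * x) ^ 2 - 1 := by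
    rw [Real.cosh_sq]; ring
  have e : (-(Real.sinh (2 * x) / Real.cosh (2 * x)) * gs x) ^ 2 =
      Real.sinh (2 * x) ^ 2 / Real.cosh (2 * x) ^ 2 * gs x ^ 2 := by ring
  rw [e, h2, gs_sq]
  field_simp

end L6a

open L6a

theorem L6a : StSechInt := by
  have e : (fun x => deriv gs x ^ 2) = fun x => gs x ^ 2 - gs x ^ 6 := funext deriv_sq
  refine ⟨gs_contDiff, fun x => ⟨gs_pos x, gs_le_one x⟩, gs_exp, gs_deriv, int_gs2, int2,
    int_gs6, int6, ?_, ?_⟩
  · rw [e]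
    exact int_gs2.sub int_gs6
  · rw [e, integral_sub int_gs2 int_gs6, int2, int6]
    ring

end H187LT
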