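import Pool.Agent.H187R2.LT.Stubs2

/-!
# Cut-off of the profile
-/

set_option autoImplicit false
open scoped Matrix BigOperators Topology
open MeasureTheory Filter

namespace H187LT

namespace L6bAux

theorem lim_div (x : ℝ) : Tendsto (fun m : ℕ => x / ((m : ℝ) + 1)) atTop (𝓝 0) := by
  have h1 : Tendsto (fun m : ℕ => x * (1 / ((m : ℝ) + 1))) atTop (𝓝 (x * 0)) :=
    tendsto_one_div_add_atTop_nhds_zero_nat.const_mul x
  rw [mul_zero] at h1
  refine h1.congr fun m => ?_
  rw [mul_one_div]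

theorem bump : ∃ f : ℝ → ℝ, f 0 = 1 ∧ ContDiff ℝ 1 f ∧ HasCompactSupport f ∧ (∀ x, 0 ≤ f x) ∧
    (∀ x, f x ≤ 1) ∧ ∀ x, 2 ≤ |x| → f x = 0 := by
  let f : ContDiffBump (0 : ℝ) := ⟨1, 2, by norm_num, by norm_num⟩
  refine ⟨(f : ℝ → ℝ), f.one_of_mem_closedBall (Metric.mem_closedBall_self (by norm_num)), f.contDiff,
    f.hasCompactSupport, fun x => f.nonneg, fun x => f.le_one, ?_⟩
  intro x hx
  apply f.zero_of_le_dist
  rw [Real.dist_eq, sub_zero]
  exact hx

end L6bAux

open L6bAux in
theorem L6b : StCut := by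
  intro h ε hε
  obtain ⟨hC, hb, -, -, i2, v2, i6, v6, id2, vd2⟩ := h
  obtain ⟨f, f0, fsm, fsupp, fnn, fle, fzero⟩ := bump
  have fcont : Continuous f := fsm.continuous
  have fdiff : Differentiable ℝ f := fsm.differentiable one_ne_zero
  have fdc : Continuous (deriv f) := fsm.continuous_deriv_one
  obtain ⟨C, hCb⟩ := fsupp.deriv.exists_bound_of_continuous fdc
  have hC0 : 0 ≤ C := (norm_nonneg _).trans (hCb 0)
  have gdiff : Differentiable ℝ gs := hC.differentiable one_ne_zero
  have gcont : Continuous gs := hC.continuous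
  have gdc : Continuous (deriv gs) := hC.continuous_deriv_one
  set w : ℕ → ℝ → ℝ := fun m x => f (x / ((m : ℝ) + 1)) * gs x with hw
  set dw : ℕ → ℝ → ℝ := fun m x =>
    (deriv f (x / ((m : ℝ) + 1)) * (1 / ((m : ℝ) + 1))) * gs x +
      f (x / ((m : ℝ) + 1)) * deriv gs x with hdw
  have hm0 : ∀ m : ℕ, (0 : ℝ) < (m : ℝ) + 1 := fun m => by positivity
  have hwd : ∀ m x, HasDerivAt (w m) (dw m x) x := by
    intro m x
    have h1 : HasDerivAt (fun y : ℝ => y / ((m : ℝ) + 1)) (1 / ((m : ℝ) + 1)) x :=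
      (hasDerivAt_id x).div_const _
    have h2 : HasDerivAt (fun y : ℝ => f (y / ((m : ℝ) + 1)))
        (deriv f (x / ((m : ℝ) + 1)) * (1 / ((m : ℝ) + 1))) x :=
      (fdiff (x / ((m : ℝ) + 1))).hasDerivAt.comp x h1
    exact h2.mul (gdiff x).hasDerivAt
  have hwc : ∀ m, ContDiff ℝ 1 (w m) := by
    intro m
    apply ContDiff.mul _ hC
    exact fsm.comp (contDiff_id.div_const _)
  have hfc : ∀ m : ℕ, Continuous fun x : ℝ => f (x / ((m : ℝ) + 1)) := fun m =>
    fcont.comp (continuous_id.div_const _)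
  have hfdc : ∀ m : ℕ, Continuous fun x : ℝ => deriv f (x / ((m : ℝ) + 1)) := fun m =>
    fdc.comp (continuous_id.div_const _)
  have hwcont : ∀ m, Continuous (w m) := fun m => (hfc m).mul gcont
  have hdwcont : ∀ m, Continuous (dw m) := fun m =>
    (((hfdc m).mul continuous_const).mul gcont).add ((hfc m).mul gdc)
  -- pointwise limits
  have lf : ∀ x, Tendsto (fun m : ℕ => f (x / ((m : ℝ) + 1))) atTop (𝓝 1) := by
    intro x
    have := (fcont.tendsto 0).comp (lim_div x)
    rw [f0] at this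
    exact this
  have lw : ∀ x, Tendsto (fun m : ℕ => w m x) atTop (𝓝 (gs x)) := by
    intro x
    have := (lf x).mul_const (gs x)
    rw [one_mul] at this
    exact this
  have ldw : ∀ x, Tendsto (fun m : ℕ => dw m x) atTop (𝓝 (deriv gs x)) := by
    intro x
    have h1 : Tendsto (fun m : ℕ => deriv f (x / ((m : ℝ) + 1)) * (1 / ((m : ℝ) + 1)))
        atTop (𝓝 (deriv f 0 * 0)) :=
      ((fdc.tendsto 0).comp (lim_div x)).mul tendsto_one_div_add_atTop_nhds_zero_nat
    have h2 := (h1.mul_const (gs x)).add ((lf x).mul_const (deriv gs x))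
    rw [mul_zero, zero_mul, zero_add, one_mul] at h2
    exact h2
  -- bounds
  have bw : ∀ m x, |w m x| ≤ gs x := by
    intro m x
    rw [hw]
    show |f (x / ((m : ℝ) + 1)) * gs x| ≤ gs x
    rw [abs_mul, abs_of_nonneg (fnn _), abs_of_pos (hb x).1]
    exact mul_le_of_le_one_left (hb x).1.le (fle _)
  have bdw : ∀ m x, dw m x ^ 2 ≤ 2 * C ^ 2 * gs x ^ 2 + 2 * deriv gs x ^ 2 := by
    intro m x
    set p := (deriv f (x / ((m : ℝ) + 1)) * (1 / ((m : ℝ) + 1))) * gs x with hp
    set q := f (x / ((m : ℝ) + 1)) * deriv gs x with hq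
    have e : dw m x = p + q := rfl
    have h1 : p ^ 2 ≤ C ^ 2 * gs x ^ 2 := by
      rw [hp, mul_pow]
      apply mul_le_mul_of_nonneg_right _ (sq_nonneg _)
      apply sq_le_sq'
      · have h3 : |deriv f (x / ((m : ℝ) + 1)) * (1 / ((m : ℝ) + 1))| ≤ C := by
          rw [abs_mul, abs_of_pos (show 0 < 1 / ((m : ℝ) + 1) by positivity)]
          have h4 : 1 / ((m : ℝ) + 1) ≤ 1 := by
            rw [div_le_one (hm0 m)]
            have : (0 : ℝ) ≤ m := Nat.cast_nonneg m
            linarith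
          have h5 := hCb (x / ((m : ℝ) + 1))
          rw [Real.norm_eq_abs] at h5
          calc |deriv f (x / ((m : ℝ) + 1))| * (1 / ((m : ℝ) + 1)) ≤ C * 1 :=
                mul_le_mul h5 h4 (by positivity) hC0
            _ = C := mul_one C
        exact (abs_le.1 h3).1
      · have h3 : |deriv f (x / ((m : ℝ) + 1)) * (1 / ((m : ℝ) + 1))| ≤ C := by
          rw [abs_mul, abs_of_pos (show 0 < 1 / ((m : ℝ) + 1) by positivity)]
          have h4 : 1 / ((m : ℝ) + 1) ≤ 1 := by
            rw [div_le_one (hm0 m)]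
            have : (0 : ℝ) ≤ m := Nat.cast_nonneg m
            linarith
          have h5 := hCb (x / ((m : ℝ) + 1))
          rw [Real.norm_eq_abs] at h5
          calc |deriv f (x / ((m : ℝ) + 1))| * (1 / ((m : ℝ) + 1)) ≤ C * 1 :=
                mul_le_mul h5 h4 (by positivity) hC0
            _ = C := mul_one C
        exact (abs_le.1 h3).2
    have h2 : q ^ 2 ≤ deriv gs x ^ 2 := by
      rw [hq, mul_pow]
      have h3 : f (x / ((m : ℝ) + 1)) ^ 2 ≤ 1 := pow_le_one₀ (fnn _) (fle _)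
      nlinarith [sq_nonneg (deriv gs x)]
    rw [e]
    nlinarith [sq_nonneg (p - q)]
  -- the three limits
  have L2 : Tendsto (fun m => ∫ x, w m x ^ 2) atTop (𝓝 (Real.pi / 2)) := by
    rw [← v2]
    apply tendsto_integral_of_dominated_convergence (fun x => gs x ^ 2)
    · intro m; exact ((hwcont m).pow 2).aestronglyMeasurable
    · exact i2
    · intro m
      refine Eventually.of_forall fun x => ?_
      rw [Real.norm_eq_abs, abs_pow]
      exact pow_le_pow_left₀ (abs_nonneg _) (bw m x) 2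
    · exact Eventually.of_forall fun x => (lw x).pow 2
  have L6 : Tendsto (fun m => ∫ x, w m x ^ 6) atTop (𝓝 (Real.pi / 4)) := by
    rw [← v6]
    apply tendsto_integral_of_dominated_convergence (fun x => gs x ^ 6)
    · intro m; exact ((hwcont m).pow 6).aestronglyMeasurable
    · exact i6
    · intro m
      refine Eventually.of_forall fun x => ?_
      rw [Real.norm_eq_abs, abs_pow]
      exact pow_le_pow_left₀ (abs_nonneg _) (bw m x) 6
    · exact Eventually.of_forall fun x => (lw x).pow 6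
  have Ld : Tendsto (fun m => ∫ x, dw m x ^ 2) atTop (𝓝 (Real.pi / 4)) := by
    rw [← vd2]
    apply tendsto_integral_of_dominated_convergence
      (fun x => 2 * C ^ 2 * gs x ^ 2 + 2 * deriv gs x ^ 2)
    · intro m; exact ((hdwcont m).pow 2).aestronglyMeasurable
    · exact (i2.const_mul _).add (id2.const_mul _)
    · intro m
      refine Eventually.of_forall fun x => ?_
      rw [Real.norm_eq_abs, abs_of_nonneg (sq_nonneg _)]
      exact bdw m x
    · exact Eventually.of_forall fun x => (ldw x).pow 2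
  have hlt : Real.pi / 4 * (Real.pi / 2) ^ 2 < (Real.pi ^ 2 / 4 + ε) * (Real.pi / 4) := by
    have := Real.pi_pos
    nlinarith [mul_pos hε this]
  obtain ⟨m, hm⟩ := ((Ld.mul (L2.pow 2)).eventually_lt (L6.const_mul (Real.pi ^ 2 / 4 + ε))
    hlt).exists
  refine ⟨fun x => ((w m x : ℝ) : ℂ), ?_, ?_, ?_, ?_⟩
  · exact Complex.ofRealCLM.contDiff.comp (hwc m)
  · apply HasCompactSupport.intro (isCompact_Icc (a := -(2 * ((m : ℝ) + 1)))
      (b := 2 * ((m : ℝ) + 1)))
    intro x hx
    have hz : f (x / ((m : ℝ) + 1)) = 0 := by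
      apply fzero
      rw [abs_div, abs_of_pos (hm0 m), le_div_iff₀ (hm0 m)]
      by_contra hc
      push Not at hc
      apply hx
      rw [abs_lt] at hc
      exact ⟨hc.1.le, hc.2.le⟩
    show ((w m x : ℝ) : ℂ) = 0
    rw [hw]
    simp only [hz, zero_mul, Complex.ofReal_zero]
  · intro h0
    have h1 := congrFun h0 0
    have h2 : w m 0 = 0 := by
      have : ((w m 0 : ℝ) : ℂ) = 0 := h1
      exact_mod_cast this
    rw [hw] at h2
    simp only [zero_div, f0, one_mul] at h2
    exact (hb 0).1.ne' h2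
  · have e1 : ∀ x, ‖deriv (fun x => ((w m x : ℝ) : ℂ)) x‖ ^ 2 = dw m x ^ 2 := by
      intro x
      rw [((hwd m x).ofReal_comp).deriv, Complex.norm_real, Real.norm_eq_abs, sq_abs]
    have e2 : ∀ x, ‖((w m x : ℝ) : ℂ)‖ ^ 2 = w m x ^ 2 := by
      intro x
      rw [Complex.norm_real, Real.norm_eq_abs, sq_abs]
    have e6 : ∀ x, ‖((w m x : ℝ) : ℂ)‖ ^ 6 = w m x ^ 6 := by
      intro x
      rw [Complex.norm_real, Real.norm_eq_abs]
      exact Even.pow_abs (by decide) _
    simp only [e1, e2, e6]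
    exact hm.le

end H187LT
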