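import Pool.Agent.H187R2.LT.Stubs2

/-! Task L7a: transfer between `EuclideanSpace ℝ (Fin 1)` and `ℝ`. -/

set_option autoImplicit false
open scoped Matrix BigOperators
open MeasureTheory

namespace H187LT

/-- the linear equivalence `t ↦ t • e₀` -/
noncomputable def iotaE : ℝ ≃L[ℝ] EuclideanSpace ℝ (Fin 1) :=
  (ContinuousLinearEquiv.funUnique (Fin 1) ℝ ℝ).symm.trans (EuclideanSpace.equiv (Fin 1) ℝ).symm

lemma iotaE_apply (t : ℝ) : iotaE t = EuclideanSpace.single 0 t := by
  ext i
  fin_cases i
  simp [iotaE]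

lemma iotaE_symm_apply (x : EuclideanSpace ℝ (Fin 1)) : iotaE.symm x = x 0 := by
  simp [iotaE]

lemma single_coord (x : EuclideanSpace ℝ (Fin 1)) : EuclideanSpace.single 0 (x 0) = x := by
  rw [← iotaE_apply, ← iotaE_symm_apply, ContinuousLinearEquiv.apply_symm_apply]

theorem L7a_int (E : Type) [NormedAddCommGroup E] [NormedSpace ℝ E]
    (f : EuclideanSpace ℝ (Fin 1) → E) :
    ∫ x, f x = ∫ t : ℝ, f (EuclideanSpace.single 0 t) := by
  have h1 := (EuclideanSpace.volume_preserving_symm_measurableEquiv_toLp (Fin 1))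
  have h2 := (MeasureTheory.volume_preserving_funUnique (Fin 1) ℝ)
  have h3 := h1.trans h2
  have h4 := h3.integral_comp' (fun t : ℝ => f (EuclideanSpace.single 0 t))
  rw [← h4]
  apply integral_congr_ae
  refine Filter.Eventually.of_forall fun x => ?_
  show f x = f (EuclideanSpace.single 0 _)
  congr 1
  exact (single_coord x).symm

theorem L7a : StTransfer := by
  refine ⟨L7a_int, ?_, ?_⟩
  · intro u hu hc
    have e : (fun t : ℝ => u (EuclideanSpace.single 0 t)) = fun t => u (iotaE t) := by
      funext t; rw [iotaE_apply]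
    refine ⟨?_, ?_, ?_⟩
    · rw [e]
      exact hu.comp iotaE.contDiff
    · rw [e]
      exact hc.comp_homeomorph iotaE.toHomeomorph
    · intro t
      rw [e]
      have h1 : HasFDerivAt u (fderiv ℝ u (iotaE t)) (iotaE t) :=
        (hu.differentiable (by norm_num) _).hasFDerivAt
      have h2 : HasDerivAt (fun s : ℝ => iotaE s) (iotaE 1) t := by
        have := (iotaE : ℝ →L[ℝ] EuclideanSpace ℝ (Fin 1)).hasFDerivAt (x := t)
        exact this.hasDerivAt
      have h3 := (h1.comp_hasDerivAt t h2).deriv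
      rw [← iotaE_apply, ← iotaE_apply]
      exact h3
  · intro w hw hc
    have e : (fun x : EuclideanSpace ℝ (Fin 1) => w (x 0)) = fun x => w (iotaE.symm x) := by
      funext x; rw [iotaE_symm_apply]
    refine ⟨?_, ?_, ?_⟩
    · rw [e]
      exact hw.comp iotaE.symm.contDiff
    · rw [e]
      exact hc.comp_homeomorph iotaE.symm.toHomeomorph
    · intro t
      rw [e, ← iotaE_apply, ← iotaE_apply]
      have h0 : iotaE.symm (iotaE t) = t := iotaE.symm_apply_apply t
      have h1 : HasDerivAt w (deriv w t) (iotaE.symm (iotaE t)) := by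
        rw [h0]
        exact (hw.differentiable (by norm_num) _).hasDerivAt
      have h2 : HasFDerivAt (fun x : EuclideanSpace ℝ (Fin 1) => iotaE.symm x)
          (iotaE.symm : EuclideanSpace ℝ (Fin 1) →L[ℝ] ℝ) (iotaE t) :=
        (iotaE.symm : EuclideanSpace ℝ (Fin 1) →L[ℝ] ℝ).hasFDerivAt
      have h3 := (h1.hasFDerivAt.comp (iotaE t) h2).fderiv
      have h4 : fderiv ℝ (fun x => w (iotaE.symm x)) (iotaE t) =
        (ContinuousLinearMap.toSpanSingleton ℝ (deriv w t)).comp
          (iotaE.symm : EuclideanSpace ℝ (Fin 1) →L[ℝ] ℝ) := h3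
      rw [h4]
      simp

end H187LT
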