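import Pool.Agent.H187R2.LT.Stubs2

set_option autoImplicit false
open scoped Matrix BigOperators
open MeasureTheory

namespace H187LT

namespace L7bAux

abbrev E1 := EuclideanSpace ℝ (Fin 1)

theorem exp3 : (1 + 2 / ((1 : ℕ) : ℝ)) = ((3 : ℕ) : ℝ) := by norm_num
theorem exp2 : (2 / ((1 : ℕ) : ℝ)) = ((2 : ℕ) : ℝ) := by norm_num
theorem exp6 : (2 + 4 / ((1 : ℕ) : ℝ)) = ((6 : ℕ) : ℝ) := by norm_num

theorem integrable_norm_pow {w : ℝ → ℂ} (hc : Continuous w) (hs : HasCompactSupport w) (k : ℕ)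
    (hk : k ≠ 0) : Integrable (fun t => ‖w t‖ ^ k) := by
  apply Continuous.integrable_of_hasCompactSupport
  · fun_prop
  · exact hs.comp_left (g := fun z : ℂ => ‖z‖ ^ k) (by simp [hk])

theorem pos_norm_pow {w : ℝ → ℂ} (hc : Continuous w) (hs : HasCompactSupport w) (k : ℕ)
    (hk : k ≠ 0) (hne : w ≠ 0) : 0 < ∫ t, ‖w t‖ ^ k := by
  obtain ⟨t0, ht0⟩ := Function.ne_iff.mp hne
  apply Continuous.integral_pos_of_hasCompactSupport_nonneg_nonzero (x := t0)
  · fun_prop
  · exact hs.comp_left (g := fun z : ℂ => ‖z‖ ^ k) (by simp [hk])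
  · intro t; positivity
  · have : ‖w t0‖ ≠ 0 := by simpa using ht0
    positivity

/-- one particle inequality in scale invariant form -/
theorem one_particle (hL : StLT1) {w : ℝ → ℂ} (hc : ContDiff ℝ 1 w) (hs : HasCompactSupport w)
    (hne : w ≠ 0) :
    Real.pi ^ 2 / 4 * ∫ t, ‖w t‖ ^ 6 ≤ (∫ t, ‖deriv w t‖ ^ 2) * (∫ t, ‖w t‖ ^ 2) ^ 2 := by
  set M := ∫ t, ‖w t‖ ^ 2 with hM
  have hMpos : 0 < M := pos_norm_pow hc.continuous hs 2 two_ne_zero hne
  set α : ℝ := (Real.sqrt M)⁻¹ with hα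
  have hαpos : 0 < α := by positivity
  have hα2 : α ^ 2 = M⁻¹ := by
    rw [hα, inv_pow, Real.sq_sqrt hMpos.le]
  have hnα : ‖(α : ℂ)‖ = α := by
    rw [Complex.norm_real, Real.norm_of_nonneg hαpos.le]
  have key := hL 1 (fun _ t => (α : ℂ) * w t)
    (fun _ => contDiff_const.mul hc) (fun _ => hs.mul_left)
    (by
      intro c
      simp only [Fin.sum_univ_one]
      have : (fun x => ‖c 0 * ((α : ℂ) * w x)‖ ^ 2) = fun x => (‖c 0‖ ^ 2 * α ^ 2) * ‖w x‖ ^ 2 := by
        funext x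
        rw [norm_mul, norm_mul, hnα]; ring
      rw [this, integral_const_mul, ← hM, hα2]
      rw [mul_assoc, inv_mul_cancel₀ hMpos.ne', mul_one])
  simp only [Fin.sum_univ_one] at key
  have e1 : (fun x => (‖(α : ℂ) * w x‖ ^ 2) ^ 3) = fun x => (α ^ 6) * ‖w x‖ ^ 6 := by
    funext x
    rw [norm_mul, hnα]; ring
  have e2 : (fun x => ‖deriv (fun t => (α : ℂ) * w t) x‖ ^ 2) = fun x => α ^ 2 * ‖deriv w x‖ ^ 2 := by
    funext x
    rw [deriv_const_mul _ ((hc.differentiable one_ne_zero) x), norm_mul, hnα]; ring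
  rw [e1, e2, integral_const_mul, integral_const_mul] at key
  have h6 : α ^ 6 = M⁻¹ ^ 3 := by rw [← hα2]; ring
  rw [h6, hα2] at key
  have h3 : (0 : ℝ) < M ^ 3 := by positivity
  have := mul_le_mul_of_nonneg_left key h3.le
  calc Real.pi ^ 2 / 4 * ∫ t, ‖w t‖ ^ 6
      = M ^ 3 * (Real.pi ^ 2 / 4 * (M⁻¹ ^ 3 * ∫ t, ‖w t‖ ^ 6)) := by
        field_simp
    _ ≤ M ^ 3 * (M⁻¹ * ∫ t, ‖deriv w t‖ ^ 2) := this
    _ = (∫ t, ‖deriv w t‖ ^ 2) * M ^ 2 := by
        field_simp

theorem bessel {N : ℕ} {w : Fin N → ℝ → ℂ} (hc : ∀ n, Continuous (w n))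
    (hs : ∀ n, HasCompactSupport (w n))
    (ho : ∀ n m, ∫ t, star (w n t) * w m t = if n = m then (1 : ℂ) else 0) (c : Fin N → ℂ) :
    ∫ t, ‖∑ n, c n * w n t‖ ^ 2 = ∑ n, ‖c n‖ ^ 2 := by
  have h1 : ((∫ t, ‖∑ n, c n * w n t‖ ^ 2 : ℝ) : ℂ) = ((∑ n, ‖c n‖ ^ 2 : ℝ) : ℂ) := by
    have hp : ∀ t, ((‖∑ n, c n * w n t‖ ^ 2 : ℝ) : ℂ)
        = ∑ n, ∑ m, (star (c n) * c m) * (star (w n t) * w m t) := by
      intro t
      have hz : ∀ z : ℂ, ((‖z‖ ^ 2 : ℝ) : ℂ) = star z * z := by
        intro z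
        rw [Complex.star_def, Complex.conj_mul']
        push_cast; rfl
      rw [hz, star_sum, Finset.sum_mul]
      apply Finset.sum_congr rfl
      intro n _
      rw [Finset.mul_sum]
      apply Finset.sum_congr rfl
      intro m _
      rw [star_mul']
      ring
    have hint : ∀ n m, Integrable (fun t => (star (c n) * c m) * (star (w n t) * w m t)) := by
      intro n m
      apply Integrable.const_mul
      apply Continuous.integrable_of_hasCompactSupport
      · exact ((hc n).star).mul (hc m)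
      · exact (hs m).mul_left
    rw [← integral_complex_ofReal]
    simp_rw [hp]
    rw [integral_finsetSum _ (fun n _ => integrable_finsetSum _ (fun m _ => hint n m))]
    have : ∀ n, ∫ t, ∑ m, (star (c n) * c m) * (star (w n t) * w m t) = ((‖c n‖ ^ 2 : ℝ) : ℂ) := by
      intro n
      rw [integral_finsetSum _ (fun m _ => hint n m)]
      simp_rw [integral_const_mul, ho]
      simp only [mul_ite, mul_one, mul_zero, Finset.sum_ite_eq, Finset.mem_univ, if_true]
      rw [Complex.star_def, Complex.conj_mul']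
      push_cast; rfl
    rw [Finset.sum_congr rfl (fun n _ => this n)]
    push_cast; rfl
  exact_mod_cast h1

theorem ball_vol : (MeasureTheory.volume (Metric.ball (0 : EuclideanSpace ℝ (Fin 1)) 1)).toReal
    = 2 := by
  rw [EuclideanSpace.volume_ball]
  have hG : Real.Gamma ((1 : ℝ) / 2 + 1) = Real.sqrt Real.pi / 2 := by
    rw [Real.Gamma_add_one (by norm_num), Real.Gamma_one_half_eq]; ring
  have hpi : Real.sqrt Real.pi ≠ 0 := by positivity
  simp only [Fintype.card_fin, Nat.cast_one, pow_one, ENNReal.ofReal_one, one_mul]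
  rw [hG]
  rw [show Real.sqrt Real.pi / (Real.sqrt Real.pi / 2) = 2 by field_simp]
  rw [ENNReal.toReal_ofReal (by norm_num)]

end L7bAux

open L7bAux

theorem L7b : StAssembly := by
  intro hL hS hT
  obtain ⟨hI, hU, hW⟩ := hT
  -- transfer of norms
  have single0 : ∀ t : ℝ, (EuclideanSpace.single 0 t : E1) 0 = t := by
    intro t; simp
  refine ⟨?_, ?_, ?_⟩
  · -- the many particle constant
    set A := {K : ℝ | ∃ N : ℕ, ∃ u : Fin N → EuclideanSpace ℝ (Fin 1) → ℂ,
          0 < N ∧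
          (∀ n, ContDiff ℝ 1 (u n) ∧ HasCompactSupport (u n)) ∧
          (∀ n m, ∫ x, star (u n x) * u m x = if n = m then (1 : ℂ) else 0) ∧
          K = (∑ n, ∫ x, ∑ i : Fin 1, ‖fderiv ℝ (u n) x (EuclideanSpace.single i (1 : ℝ))‖ ^ 2)
              / ∫ x, (∑ n, ‖u n x‖ ^ 2) ^ (1 + 2 / ((1 : ℕ) : ℝ))} with hA
    have hlow : ∀ K ∈ A, Real.pi ^ 2 / 4 ≤ K := by
      rintro K ⟨N, u, hN, hu, ho, rfl⟩
      have hw := fun n => hU (u n) (hu n).1 (hu n).2
      set w : Fin N → ℝ → ℂ := fun n t => u n (EuclideanSpace.single 0 t) with hwdef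
      have hwc : ∀ n, Continuous (w n) := fun n => (hw n).1.continuous
      have hws : ∀ n, HasCompactSupport (w n) := fun n => (hw n).2.1
      have ho' : ∀ n m, ∫ t, star (w n t) * w m t = if n = m then (1 : ℂ) else 0 := by
        intro n m
        rw [← ho n m, hI ℂ]
      have hb : ∀ c : Fin N → ℂ, ∫ x, ‖∑ n, c n * w n x‖ ^ 2 ≤ ∑ n, ‖c n‖ ^ 2 :=
        fun c => (bessel hwc hws ho' c).le
      have hmain := hL N w (fun n => (hw n).1) hws hb
      have hnum : (∑ n, ∫ x, ∑ i : Fin 1, ‖fderiv ℝ (u n) x (EuclideanSpace.single i (1 : ℝ))‖ ^ 2)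
          = ∑ n, ∫ t, ‖deriv (w n) t‖ ^ 2 := by
        apply Finset.sum_congr rfl
        intro n _
        rw [hI ℝ]
        simp only [Fin.sum_univ_one]
        congr 1
        funext t
        rw [(hw n).2.2 t]
      have hden : ∫ x, (∑ n, ‖u n x‖ ^ 2) ^ (1 + 2 / ((1 : ℕ) : ℝ))
          = ∫ t, (∑ n, ‖w n t‖ ^ 2) ^ 3 := by
        rw [hI ℝ]
        congr 1
        funext t
        rw [exp3, Real.rpow_natCast]
      have hdpos : 0 < ∫ t, (∑ n, ‖w n t‖ ^ 2) ^ 3 := by
        -- some `w 0 t0 ≠ 0`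
        have hne : w ⟨0, hN⟩ ≠ 0 := by
          intro h0
          have := ho' ⟨0, hN⟩ ⟨0, hN⟩
          simp [h0] at this
        obtain ⟨t0, ht0⟩ := Function.ne_iff.mp hne
        have hcont : Continuous (fun t => (∑ n, ‖w n t‖ ^ 2) ^ 3) := by
          have : ∀ n, Continuous (fun t => ‖w n t‖ ^ 2) := fun n => ((hwc n).norm).pow 2
          exact (continuous_finsetSum _ (fun n _ => this n)).pow 3
        apply hcont.integral_pos_of_hasCompactSupport_nonneg_nonzero (x := t0)
        · have hsum : HasCompactSupport (fun t => ∑ n, ‖w n t‖ ^ 2) := by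
            have hK : IsCompact (⋃ n, tsupport (w n)) := isCompact_iUnion (fun n => hws n)
            apply HasCompactSupport.intro hK
            intro t ht
            simp only [Set.mem_iUnion, not_exists] at ht
            apply Finset.sum_eq_zero
            intro n _
            rw [image_eq_zero_of_notMem_tsupport (ht n)]
            simp
          exact hsum.comp_left (g := fun z : ℝ => z ^ 3) (by simp)
        · intro t
          have : 0 ≤ ∑ n, ‖w n t‖ ^ 2 := Finset.sum_nonneg (fun n _ => by positivity)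
          positivity
        · have h1 : 0 < ∑ n, ‖w n t0‖ ^ 2 := by
            apply Finset.sum_pos' (fun n _ => by positivity)
            refine ⟨⟨0, hN⟩, Finset.mem_univ _, ?_⟩
            have : w ⟨0, hN⟩ t0 ≠ 0 := by simpa using ht0
            have : 0 < ‖w ⟨0, hN⟩ t0‖ := norm_pos_iff.mpr this
            positivity
          positivity
      rw [hnum, hden, le_div_iff₀ hdpos]
      exact hmain
    have hup : ∀ ε : ℝ, 0 < ε → ∃ K ∈ A, K ≤ Real.pi ^ 2 / 4 + ε := by
      intro ε hε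
      obtain ⟨u, huc, hus, hune, hle⟩ := hS ε hε
      set M := ∫ t, ‖u t‖ ^ 2 with hM
      set S := ∫ t, ‖u t‖ ^ 6 with hSdef
      set T := ∫ t, ‖deriv u t‖ ^ 2 with hTdef
      have hMpos : 0 < M := pos_norm_pow huc.continuous hus 2 two_ne_zero hune
      have hSpos : 0 < S := pos_norm_pow huc.continuous hus 6 (by norm_num) hune
      set α : ℝ := (Real.sqrt M)⁻¹ with hα
      have hαpos : 0 < α := by positivity
      have hα2 : α ^ 2 = M⁻¹ := by
        rw [hα, inv_pow, Real.sq_sqrt hMpos.le]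
      have hnα : ‖(α : ℂ)‖ = α := by
        rw [Complex.norm_real, Real.norm_of_nonneg hαpos.le]
      set w : ℝ → ℂ := fun t => (α : ℂ) * u t with hwdef
      have hwc : ContDiff ℝ 1 w := contDiff_const.mul huc
      have hws : HasCompactSupport w := hus.mul_left
      obtain ⟨k1, k2, k3⟩ := hW w hwc hws
      refine ⟨_, ⟨1, fun _ x => w (x 0), one_pos, fun _ => ⟨k1, k2⟩, ?_, rfl⟩, ?_⟩
      · intro n m
        rw [if_pos (Subsingleton.elim n m), hI ℂ]
        simp only [single0]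
        have : ∀ t, star (w t) * w t = ((α ^ 2 * ‖u t‖ ^ 2 : ℝ) : ℂ) := by
          intro t
          rw [Complex.star_def, Complex.conj_mul', hwdef]
          simp only [norm_mul, hnα]
          push_cast; ring
        simp_rw [this]
        rw [integral_complex_ofReal, integral_const_mul, ← hM, hα2, inv_mul_cancel₀ hMpos.ne']
        simp
      · simp only [Fin.sum_univ_one]
        rw [hI ℝ, hI ℝ]
        simp only [single0, k3, exp3, Real.rpow_natCast]
        have e1 : (fun x => (‖w x‖ ^ 2) ^ 3) = fun x => (α ^ 6) * ‖u x‖ ^ 6 := by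
          funext x
          rw [hwdef]
          simp only [norm_mul, hnα]; ring
        have e2 : (fun x => ‖deriv w x‖ ^ 2) = fun x => α ^ 2 * ‖deriv u x‖ ^ 2 := by
          funext x
          rw [hwdef, deriv_const_mul _ ((huc.differentiable one_ne_zero) x), norm_mul, hnα]; ring
        rw [e1, e2, integral_const_mul, integral_const_mul, ← hSdef, ← hTdef]
        have h6 : α ^ 6 = M⁻¹ ^ 3 := by rw [← hα2]; ring
        rw [h6, hα2, div_le_iff₀ (by positivity)]
        calc M⁻¹ * T = M⁻¹ ^ 3 * (T * M ^ 2) := by field_simp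
          _ ≤ M⁻¹ ^ 3 * ((Real.pi ^ 2 / 4 + ε) * S) := by
              apply mul_le_mul_of_nonneg_left hle (by positivity)
          _ = (Real.pi ^ 2 / 4 + ε) * (M⁻¹ ^ 3 * S) := by ring
    apply le_antisymm
    · apply le_of_forall_pos_le_add
      intro ε hε
      obtain ⟨K, hK, hKe⟩ := hup ε hε
      exact (csInf_le ⟨_, fun K hK => hlow K hK⟩ hK).trans hKe
    · obtain ⟨K, hK, -⟩ := hup 1 one_pos
      exact le_csInf ⟨K, hK⟩ hlow
  · set B := {K : ℝ | ∃ u : EuclideanSpace ℝ (Fin 1) → ℂ,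
              ContDiff ℝ 1 u ∧ HasCompactSupport u ∧ u ≠ 0 ∧
              K = (∫ x, ∑ i : Fin 1, ‖fderiv ℝ u x (EuclideanSpace.single i (1 : ℝ))‖ ^ 2)
                  * (∫ x, ‖u x‖ ^ 2) ^ (2 / ((1 : ℕ) : ℝ))
                  / ∫ x, ‖u x‖ ^ (2 + 4 / ((1 : ℕ) : ℝ))} with hB
    have hlow : ∀ K ∈ B, Real.pi ^ 2 / 4 ≤ K := by
      rintro K ⟨u, huc, hus, hune, rfl⟩
      obtain ⟨h1, h2, h3⟩ := hU u huc hus
      set w : ℝ → ℂ := fun t => u (EuclideanSpace.single 0 t) with hwdef
      have hwne : w ≠ 0 := by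
        intro h0
        apply hune
        funext x
        have hx : x = EuclideanSpace.single 0 (x 0) := by
          ext i
          have : i = 0 := Subsingleton.elim _ _
          subst this
          simp
        rw [hx]
        exact congrFun h0 (x 0)
      simp only [Fin.sum_univ_one]
      rw [hI ℝ, hI ℝ (fun x => ‖u x‖ ^ 2), hI ℝ (fun x => ‖u x‖ ^ (2 + 4 / ((1 : ℕ) : ℝ)))]
      simp only [← h3, exp6, exp2, Real.rpow_natCast]
      have hSpos : 0 < ∫ t, ‖w t‖ ^ 6 := pos_norm_pow h1.continuous h2 6 (by norm_num) hwne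
      rw [le_div_iff₀ hSpos]
      exact one_particle hL h1 h2 hwne
    have hup : ∀ ε : ℝ, 0 < ε → ∃ K ∈ B, K ≤ Real.pi ^ 2 / 4 + ε := by
      intro ε hε
      obtain ⟨u, huc, hus, hune, hle⟩ := hS ε hε
      obtain ⟨k1, k2, k3⟩ := hW u huc hus
      have hSpos : 0 < ∫ t, ‖u t‖ ^ 6 := pos_norm_pow huc.continuous hus 6 (by norm_num) hune
      refine ⟨_, ⟨fun x => u (x 0), k1, k2, ?_, rfl⟩, ?_⟩
      · intro h0
        apply hune
        funext t
        have := congrFun h0 (EuclideanSpace.single 0 t)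
        simpa using this
      · simp only [Fin.sum_univ_one]
        rw [hI ℝ, hI ℝ (fun x : E1 => ‖u (x 0)‖ ^ 2),
          hI ℝ (fun x : E1 => ‖u (x 0)‖ ^ (2 + 4 / ((1 : ℕ) : ℝ)))]
        simp only [single0, k3, exp6, exp2, Real.rpow_natCast]
        rw [div_le_iff₀ hSpos]
        exact hle
    apply le_antisymm
    · apply le_of_forall_pos_le_add
      intro ε hε
      obtain ⟨K, hK, hKe⟩ := hup ε hε
      exact (csInf_le ⟨_, fun K hK => hlow K hK⟩ hK).trans hKe
    · obtain ⟨K, hK, -⟩ := hup 1 one_pos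
      exact le_csInf ⟨K, hK⟩ hlow
  · rw [ball_vol, exp2, Real.rpow_natCast]
    have : 0 ≤ Real.pi ^ 2 := by positivity
    push_cast
    nlinarith

end H187LT
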