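import Pool.Agent.H187R2.LT.StubsB

set_option autoImplicit false
open scoped Matrix BigOperators ComplexOrder
open MeasureTheory

namespace H187LT

/-- M2: the first step in terms of `Phi`. -/
theorem M2 : StM1 → StPhi → StKap → StG0 := by
  intro hM hPhi hKap N R G Q T β hR hGD hβ hBes hb
  have hGc : Continuous G := by
    refine continuous_matrix (fun i j => ?_)
    exact continuous_iff_continuousAt.2 (fun t => (hGD.hG t i j).continuousAt)
  have hcube : Continuous (fun t => (Matrix.trace (G t * G t * G t)).re) :=
    Complex.continuous_re.comp (((hGc.matrix_mul hGc).matrix_mul hGc).matrix_trace)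
  have hle : -R ≤ R := by linarith
  have h1 : ∫ t in (-R)..R, β t ≤
      ∫ t in (-R)..R, Real.pi ^ 2 / 4 * (Matrix.trace (G t * G t * G t)).re := by
    refine intervalIntegral.integral_mono_on hle (hβ.intervalIntegrable _ _)
      ((hcube.const_smul (Real.pi ^ 2 / 4)).intervalIntegrable _ _) (fun t ht => ?_)
    have h2 := hb t ht
    rw [hKap.1] at h2
    rw [hPhi.2.1 N (G t) (hGD.hGh t)]
    exact h2
  rw [intervalIntegral.integral_const_mul] at h1
  exact h1.trans (hM N R G Q T hR hGD hBes)

end H187LT
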