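import Pool.Agent.H187R2.LT.StubsM

set_option autoImplicit false
open scoped Matrix BigOperators ComplexOrder
open MeasureTheory

namespace H187LT

theorem P11_entry {N : ℕ} {H : Mat N} (hH : H.PosSemidef) (i j : Fin N) :
    ‖H i j‖ ≤ (Matrix.trace H).re := by
  obtain ⟨m, B, hB⟩ := Matrix.posSemidef_iff_eq_sum_vecMulVec.mp hH
  have hent : ∀ i j, H i j = ∑ k, B k i * star (B k j) := by
    intro i j
    rw [hB, Matrix.sum_apply]
    rfl
  have hdiag : ∀ i, (H i i).re = ∑ k, ‖B k i‖ ^ 2 := by
    intro i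
    rw [hent, Complex.re_sum]
    apply Finset.sum_congr rfl
    intro k _
    have : B k i * star (B k i) = ((‖B k i‖ ^ 2 : ℝ) : ℂ) := by
      push_cast
      exact Complex.mul_conj' _
    rw [this, Complex.ofReal_re]
  have hnn : ∀ i, 0 ≤ (H i i).re := by
    intro i
    rw [hdiag]
    positivity
  have htr : (Matrix.trace H).re = ∑ i, (H i i).re := by
    rw [Matrix.trace, Complex.re_sum]
    rfl
  have h1 : ‖H i j‖ ≤ ((H i i).re + (H j j).re) / 2 := by
    rw [hent i j, hdiag, hdiag]
    refine (norm_sum_le _ _).trans ?_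
    rw [← Finset.sum_add_distrib, Finset.sum_div]
    apply Finset.sum_le_sum
    intro k _
    rw [norm_mul, norm_star]
    nlinarith [sq_nonneg (‖B k i‖ - ‖B k j‖)]
  have h2 : ∀ i, (H i i).re ≤ (Matrix.trace H).re := by
    intro i
    rw [htr]
    exact Finset.single_le_sum (f := fun i => (H i i).re) (fun i _ => hnn i) (Finset.mem_univ i)
  have h3 := h2 i
  have h4 := h2 j
  linarith

theorem P11 : StMI → StSpec → StSPM := by
  intro hMI hSpec N k ε n c A G hk0 hk1 hε hc happ hA hG
  obtain ⟨U, x, hU1, hU2, hx, hform⟩ := hSpec N A G hA hG.isHermitian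
  rw [hform n c hc]
  set H : Mat N := Uᴴ * G * U with hH
  have hHp : H.PosSemidef := hG.conjTranspose_mul_mul_same U
  have htr1 : Matrix.trace H = Matrix.trace G := by
    rw [hH, Matrix.trace_mul_comm, ← Matrix.mul_assoc, hU2, Matrix.one_mul]
  have hHHH : H * H * H = Uᴴ * (G * G * G) * U := by
    calc H * H * H = Uᴴ * G * (U * Uᴴ) * G * (U * Uᴴ) * G * U := by
          rw [hH]; simp only [Matrix.mul_assoc]
      _ = Uᴴ * (G * G * G) * U := by
          rw [hU2]; simp only [Matrix.mul_assoc, Matrix.one_mul]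
  have htr3 : Matrix.trace (H * H * H) = Matrix.trace (G * G * G) := by
    rw [hHHH, Matrix.trace_mul_comm, ← Matrix.mul_assoc, hU2, Matrix.one_mul]
  have hsum3 : (Matrix.trace (G * G * G)).re =
      ∑ i, ∑ j, ∑ r, (H i j * H j r * H r i).re := by
    rw [← htr3, Matrix.trace, Complex.re_sum]
    apply Finset.sum_congr rfl
    intro i _
    rw [Matrix.diag_apply, Matrix.mul_apply]
    simp only [Matrix.mul_apply, Finset.sum_mul, Complex.re_sum]
    rw [Finset.sum_comm]
  -- the trace
  set τ := (Matrix.trace G).re with hτ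
  have hent : ∀ i j, ‖H i j‖ ≤ τ := by
    intro i j
    have := P11_entry hHp i j
    rwa [htr1] at this
  have hP : ∀ i j r, |(H i j * H j r * H r i).re| ≤ τ ^ 3 := by
    intro i j r
    refine (Complex.abs_re_le_norm _).trans ?_
    rw [norm_mul, norm_mul]
    have h1 := hent i j
    have h2 := hent j r
    have h3 := hent r i
    have h0 : 0 ≤ τ := (norm_nonneg _).trans h1
    calc ‖H i j‖ * ‖H j r‖ * ‖H r i‖ ≤ τ * τ * τ := by
          apply mul_le_mul _ h3 (norm_nonneg _) (mul_nonneg h0 h0)
          exact mul_le_mul h1 h2 (norm_nonneg _) h0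
      _ = τ ^ 3 := by ring
  -- the positive term
  have hpos := hMI N H (fun i => k * x i) hHp (fun i => by
    have h1 := hx i
    rw [abs_lt]
    constructor
    · nlinarith [h1.1, h1.2]
    · nlinarith [h1.1, h1.2])
  -- the main estimate
  have hterm : ∀ i j r, (H i j * H j r * H r i).re * k ^ 2 +
      k ^ 2 * ((H i j * H j r * H r i).re * (om (k * x i - k * x j) /
        (Real.cos (k * x i + k * x r) * Real.cos (k * x j + k * x r)))) - ε * τ ^ 3 ≤
      (H i j * H j r * H r i).re *
        (DD c n (x i) (x j) (x r) - PP c n (x i) (x r) * PP c n (x j) (x r)) := by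
    intro i j r
    have h1 := happ (x i) (hx i) (x r) (hx r) (x j) (hx j)
    have e1 : k * (x i - x j) = k * x i - k * x j := by ring
    have e2 : k * (x i + x r) = k * x i + k * x r := by ring
    have e3 : k * (x j + x r) = k * x j + k * x r := by ring
    rw [e1, e2, e3] at h1
    set p := (H i j * H j r * H r i).re with hp
    set q := om (k * x i - k * x j) /
        (Real.cos (k * x i + k * x r) * Real.cos (k * x j + k * x r)) with hq
    set b := DD c n (x i) (x j) (x r) - PP c n (x i) (x r) * PP c n (x j) (x r) with hb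
    have h2 : |p * (b - k ^ 2 * (1 + q))| ≤ τ ^ 3 * ε := by
      rw [abs_mul]
      exact mul_le_mul (hP i j r) h1 (abs_nonneg _) ((abs_nonneg _).trans (hP i j r))
    have h3 := (abs_le.mp h2).1
    have h4 : p * (b - k ^ 2 * (1 + q)) = p * b - (p * k ^ 2 + k ^ 2 * (p * q)) := by ring
    rw [h4] at h3
    linarith
  have hsum := Finset.sum_le_sum (s := Finset.univ) (fun i _ =>
    Finset.sum_le_sum (s := Finset.univ) (fun j _ =>
      Finset.sum_le_sum (s := Finset.univ) (fun r _ => hterm i j r)))
  refine le_trans ?_ hsum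
  simp only [Finset.sum_sub_distrib, Finset.sum_add_distrib, ← Finset.sum_mul, ← Finset.mul_sum,
    Finset.sum_const, Finset.card_univ, Fintype.card_fin, nsmul_eq_mul]
  rw [← hsum3]
  have h5 : 0 ≤ k ^ 2 * ∑ i, ∑ j, ∑ r, (H i j * H j r * H r i).re *
      (om (k * x i - k * x j) / (Real.cos (k * x i + k * x r) * Real.cos (k * x j + k * x r))) :=
    mul_nonneg (sq_nonneg _) hpos
  have h6 : ε * (N : ℝ) ^ 3 * τ ^ 3 = (N : ℝ) * ((N : ℝ) * ((N : ℝ) * (ε * τ ^ 3))) := by ring
  rw [h6]
  linarith

end H187LT
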