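import Pool.Agent.H187R2.LT.StubsM

/-!
# Task P5: the trigonometric identity
-/

set_option autoImplicit false
open scoped BigOperators

namespace H187LT

namespace P5aux

/-- complete homogeneous polynomial in two variables -/
noncomputable def H (n : ℕ) (X Y : ℂ) : ℂ := ∑ l ∈ Finset.range (n + 1), X ^ (n - l) * Y ^ l

theorem H_succ1 (n : ℕ) (X Y : ℂ) : H (n + 1) X Y = Y * H n X Y + X ^ (n + 1) := by
  unfold H
  rw [Finset.sum_range_succ', Finset.mul_sum]
  congr 1
  · refine Finset.sum_congr rfl fun l _ => ?_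
    rw [Nat.add_sub_add_right, pow_succ]
    ring
  · simp

theorem H_succ2 (n : ℕ) (X Y : ℂ) : H (n + 1) X Y = X * H n X Y + Y ^ (n + 1) := by
  unfold H
  rw [Finset.sum_range_succ, Finset.mul_sum]
  congr 1
  · refine Finset.sum_congr rfl fun l hl => ?_
    have : n + 1 - l = (n - l) + 1 := by have := Finset.mem_range.mp hl; omega
    rw [this, pow_succ]
    ring
  · simp

noncomputable def R (m : ℕ) (U W : ℂ) : ℂ :=
  ∑ j ∈ Finset.range (m + 1), ((m : ℂ) + 1 - j) * (U ^ (m - j) * W ^ j)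

theorem R_succ (m : ℕ) (U W : ℂ) :
    R (m + 1) U W = W * R m U W + ((m : ℂ) + 2) * U ^ (m + 1) := by
  unfold R
  rw [Finset.sum_range_succ', Finset.mul_sum]
  congr 1
  · refine Finset.sum_congr rfl fun l _ => ?_
    rw [Nat.add_sub_add_right, pow_succ]
    push_cast
    ring
  · push_cast
    simp only [Nat.sub_zero, pow_zero, mul_one]
    ring

theorem R_closed (m : ℕ) (U W : ℂ) :
    (U - W) * R m U W = ((m : ℂ) + 2) * U ^ (m + 1) - H (m + 1) U W := by
  induction m with
  | zero => simp [R, H, Finset.sum_range_succ]; ring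
  | succ m ih =>
    have e : (U - W) * R (m + 1) U W =
        W * ((U - W) * R m U W) + (U - W) * (((m : ℂ) + 2) * U ^ (m + 1)) := by
      rw [R_succ]; ring
    rw [e, ih, H_succ1 (m + 1)]
    push_cast
    ring

noncomputable def T (m : ℕ) (U W V : ℂ) : ℂ :=
  ∑ j ∈ Finset.range (m + 1), ∑ k ∈ Finset.range (m + 1 - j),
    ((m : ℂ) + 1 - j - k) * (U ^ (m - j - k) * W ^ j * V ^ k)

theorem T_succ (m : ℕ) (U W V : ℂ) : T (m + 1) U W V = V * T m U W V + R (m + 1) U W := by
  unfold T R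
  have h1 : ∀ j ∈ Finset.range (m + 1 + 1),
      ∑ k ∈ Finset.range (m + 1 + 1 - j),
        (((m + 1 : ℕ) : ℂ) + 1 - j - k) * (U ^ (m + 1 - j - k) * W ^ j * V ^ k) =
      (∑ k ∈ Finset.range (m + 1 - j),
        V * (((m : ℂ) + 1 - j - k) * (U ^ (m - j - k) * W ^ j * V ^ k))) +
        (((m + 1 : ℕ) : ℂ) + 1 - j) * (U ^ (m + 1 - j) * W ^ j) := by
    intro j hj
    have hj' := Finset.mem_range.mp hj
    have e : m + 1 + 1 - j = (m + 1 - j) + 1 := by omega
    rw [e, Finset.sum_range_succ']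
    congr 1
    · refine Finset.sum_congr rfl fun k _ => ?_
      have e2 : m + 1 - j - (k + 1) = m - j - k := by omega
      rw [e2, pow_succ V k]
      push_cast
      ring
    · simp
  rw [Finset.sum_congr rfl h1, Finset.sum_add_distrib]
  congr 1
  rw [Finset.sum_range_succ, Finset.mul_sum]
  simp only [Nat.sub_self, Finset.range_zero, Finset.sum_empty, add_zero]
  exact Finset.sum_congr rfl fun j _ => (Finset.mul_sum _ _ _).symm

theorem T_closed (m : ℕ) (U W V : ℂ) :
    (U - W) * (U - V) * T m U W V =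
      ((m : ℂ) + 3) * U ^ (m + 2) + H (m + 2) W V - H (m + 2) U W - H (m + 2) U V := by
  induction m with
  | zero => simp [T, H, Finset.sum_range_succ]; ring
  | succ m ih =>
    have e : (U - W) * (U - V) * T (m + 1) U W V =
        V * ((U - W) * (U - V) * T m U W V) + (U - V) * ((U - W) * R (m + 1) U W) := by
      rw [T_succ]; ring
    rw [e, ih, R_closed, H_succ1 (m + 2) W V, H_succ1 (m + 2) U V, H_succ2 (m + 2) U W]
    push_cast
    ring

/-- the function `omn`, with the two vanishing terms -/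
theorem omn_eq (m : ℕ) (δ : ℝ) : omn (m + 2) δ = (1 / ((m + 2 : ℕ) : ℝ)) *
    ∑ l ∈ Finset.range (m + 2 + 1),
      (Real.cos ((1 - 2 * (l : ℝ) / ((m + 2 : ℕ) : ℝ)) * δ) - Real.cos δ) := by
  unfold omn
  congr 1
  have hn : ((m + 2 : ℕ) : ℝ) ≠ 0 := by positivity
  rw [Finset.sum_range_succ, Finset.sum_range_succ']
  have h1 : (1 - 2 * ((m + 2 : ℕ) : ℝ) / ((m + 2 : ℕ) : ℝ)) * δ = -δ := by
    field_simp
    ring
  have h2 : (1 - 2 * ((0 : ℕ) : ℝ) / ((m + 2 : ℕ) : ℝ)) * δ = δ := by simp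
  rw [h1, h2, Real.cos_neg, sub_self, add_zero, add_zero]
  have e : m + 2 - 1 = m + 1 := by omega
  rw [e]
  refine Finset.sum_congr rfl fun l _ => ?_
  push_cast
  rfl

/-- real part of `H` -/
noncomputable def Hc (n : ℕ) (a b : ℝ) : ℝ :=
  ∑ l ∈ Finset.range (n + 1), Real.cos (2 * ((n : ℝ) - l) * a + 2 * l * b)

theorem Hc_symm (n : ℕ) (a b : ℝ) :
    ∑ l ∈ Finset.range (n + 1), Real.cos (2 * (l : ℝ) * a + 2 * ((n : ℝ) - l) * b) = Hc n a b := by
  unfold Hc
  rw [← Finset.sum_flip]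
  refine Finset.sum_congr rfl fun l hl => ?_
  have hl' : l ≤ n := by have := Finset.mem_range.mp hl; omega
  rw [Nat.cast_sub hl']
  congr 1
  ring

theorem omn_cos (m : ℕ) (a b : ℝ) :
    omn (m + 2) (((m + 2 : ℕ) : ℝ) * a - ((m + 2 : ℕ) : ℝ) * b) *
      Real.cos (((m + 2 : ℕ) : ℝ) * a + ((m + 2 : ℕ) : ℝ) * b) =
    (1 / ((m + 2 : ℕ) : ℝ)) * (Hc (m + 2) a b - (((m + 2 : ℕ) : ℝ) + 1) / 2 *
      (Real.cos (2 * (((m + 2 : ℕ) : ℝ) * a)) + Real.cos (2 * (((m + 2 : ℕ) : ℝ) * b)))) := by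
  rw [omn_eq]
  set n : ℝ := ((m + 2 : ℕ) : ℝ) with hn
  have hn0 : n ≠ 0 := by rw [hn]; positivity
  rw [mul_assoc]
  congr 1
  rw [Finset.sum_mul]
  have h1 : ∀ l ∈ Finset.range (m + 2 + 1),
      (Real.cos ((1 - 2 * (l : ℝ) / n) * (n * a - n * b)) - Real.cos (n * a - n * b)) *
        Real.cos (n * a + n * b) =
      1 / 2 * Real.cos (2 * (n - l) * a + 2 * l * b) +
        1 / 2 * Real.cos (2 * (l : ℝ) * a + 2 * (n - l) * b) -
        1 / 2 * (Real.cos (2 * (n * a)) + Real.cos (2 * (n * b))) := by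
    intro l _
    have e1 : (1 - 2 * (l : ℝ) / n) * (n * a - n * b) = (n - 2 * l) * (a - b) := by
      field_simp
    have e2 : Real.cos (2 * (n - l) * a + 2 * l * b) =
        Real.cos ((n * a + n * b) + (n - 2 * l) * (a - b)) := by congr 1; ring
    have e3 : Real.cos (2 * (l : ℝ) * a + 2 * (n - l) * b) =
        Real.cos ((n * a + n * b) - (n - 2 * l) * (a - b)) := by congr 1; ring
    have e4 : Real.cos (2 * (n * a)) = Real.cos ((n * a + n * b) + (n * a - n * b)) := by
      congr 1; ring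
    have e5 : Real.cos (2 * (n * b)) = Real.cos ((n * a + n * b) - (n * a - n * b)) := by
      congr 1; ring
    rw [e1, e2, e3, e4, e5]
    simp only [Real.cos_add, Real.cos_sub, Real.sin_add, Real.sin_sub]
    ring
  rw [Finset.sum_congr rfl h1, Finset.sum_sub_distrib, Finset.sum_add_distrib,
    ← Finset.mul_sum, ← Finset.mul_sum, Hc_symm]
  simp only [Finset.sum_const, Finset.card_range, nsmul_eq_mul]
  have e6 : ∑ l ∈ Finset.range (m + 2 + 1), Real.cos (2 * (n - l) * a + 2 * l * b) =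
      Hc (m + 2) a b := rfl
  rw [e6]
  have e7 : ((m + 2 + 1 : ℕ) : ℝ) = n + 1 := by rw [hn]; push_cast; ring
  rw [e7]
  ring

/-- `e^{2ia}` -/
noncomputable def ee (a : ℝ) : ℂ := Complex.exp ((2 * a : ℝ) * Complex.I)

theorem ee_pow (a : ℝ) (k : ℕ) : ee a ^ k = Complex.exp ((2 * k * a : ℝ) * Complex.I) := by
  unfold ee
  rw [← Complex.exp_nat_mul]
  congr 1
  push_cast
  ring

theorem H_re (n : ℕ) (a b : ℝ) : (H n (ee a) (ee b)).re = Hc n a b := by
  unfold H Hc
  rw [Complex.re_sum]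
  refine Finset.sum_congr rfl fun l hl => ?_
  have hl' : l ≤ n := by have := Finset.mem_range.mp hl; omega
  rw [ee_pow, ee_pow, ← Complex.exp_add, ← add_mul, ← Complex.ofReal_add,
    Complex.exp_ofReal_mul_I_re, Nat.cast_sub hl']

theorem ee_sub (a b : ℝ) : ee a - ee b =
    2 * Complex.I * (Real.sin (a - b) : ℂ) * Complex.exp ((a + b : ℝ) * Complex.I) := by
  apply Complex.ext
  · unfold ee
    simp only [Complex.sub_re, Complex.exp_ofReal_mul_I_re, Complex.mul_re, Complex.mul_im,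
      Complex.I_re, Complex.I_im, Complex.ofReal_re, Complex.ofReal_im,
      Complex.exp_ofReal_mul_I_im, Complex.re_ofNat, Complex.im_ofNat]
    have e1 : 2 * a = (a + b) + (a - b) := by ring
    have e2 : 2 * b = (a + b) - (a - b) := by ring
    rw [e1, e2, Real.cos_add (a + b) (a - b), Real.cos_sub (a + b) (a - b)]
    ring
  · unfold ee
    simp only [Complex.sub_im, Complex.exp_ofReal_mul_I_re, Complex.mul_re, Complex.mul_im,
      Complex.I_re, Complex.I_im, Complex.ofReal_re, Complex.ofReal_im,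
      Complex.exp_ofReal_mul_I_im, Complex.re_ofNat, Complex.im_ofNat]
    have e1 : 2 * a = (a + b) + (a - b) := by ring
    have e2 : 2 * b = (a + b) - (a - b) := by ring
    rw [e1, e2, Real.sin_add (a + b) (a - b), Real.sin_sub (a + b) (a - b)]
    ring

/-- symmetry of sums over a triangle -/
theorem tri_symm (N : ℕ) (f : ℕ → ℕ → ℝ) :
    ∑ j ∈ Finset.range N, ∑ k ∈ Finset.range (N - j), f j k =
      ∑ j ∈ Finset.range N, ∑ k ∈ Finset.range (N - j), f k j := by
  apply Finset.sum_comm'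
  intro j k
  simp only [Finset.mem_range]
  omega

theorem main (m : ℕ) (a b c : ℝ) :
    Hc (m + 2) a b + Hc (m + 2) a c - Hc (m + 2) b c -
      (((m + 2 : ℕ) : ℝ) + 1) * Real.cos (2 * (((m + 2 : ℕ) : ℝ) * a)) =
    4 * Real.sin (a - b) * Real.sin (a - c) *
      ∑ j ∈ Finset.range (m + 1), ∑ k ∈ Finset.range (m + 1 - j),
        ((m : ℝ) + 1 - j - k) * Real.cos (2 * ((m : ℝ) + 1 - j - k) * a + (2 * j + 1) * b +
          (2 * k + 1) * c) := by
  have h := T_closed m (ee a) (ee b) (ee c)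
  have hpow : ((m : ℂ) + 3) * ee a ^ (m + 2) =
      ((((m + 2 : ℕ) : ℝ) + 1 : ℝ) : ℂ) *
        Complex.exp ((2 * (((m + 2 : ℕ) : ℝ) * a) : ℝ) * Complex.I) := by
    rw [ee_pow]
    congr 1
    · push_cast; ring
    · congr 1; push_cast; ring
  have hre := congrArg Complex.re h
  rw [hpow, Complex.sub_re, Complex.sub_re, Complex.add_re, H_re, H_re, H_re,
    Complex.re_ofReal_mul, Complex.exp_ofReal_mul_I_re] at hre
  have hT : ((ee a - ee b) * (ee a - ee c) * T m (ee a) (ee b) (ee c)).re =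
      -(4 * Real.sin (a - b) * Real.sin (a - c) *
      ∑ j ∈ Finset.range (m + 1), ∑ k ∈ Finset.range (m + 1 - j),
        ((m : ℝ) + 1 - j - k) * Real.cos (2 * ((m : ℝ) + 1 - j - k) * a + (2 * j + 1) * b +
          (2 * k + 1) * c)) := by
    rw [ee_sub, ee_sub]
    have e1 : 2 * Complex.I * (Real.sin (a - b) : ℂ) * Complex.exp ((a + b : ℝ) * Complex.I) *
        (2 * Complex.I * (Real.sin (a - c) : ℂ) * Complex.exp ((a + c : ℝ) * Complex.I)) *
        T m (ee a) (ee b) (ee c) =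
        ((-(4 * Real.sin (a - b) * Real.sin (a - c)) : ℝ) : ℂ) *
          (Complex.exp ((a + b : ℝ) * Complex.I) * Complex.exp ((a + c : ℝ) * Complex.I) *
            T m (ee a) (ee b) (ee c)) := by
      push_cast
      linear_combination (4 * Complex.sin (a - b) * Complex.sin (a - c) *
        Complex.exp (((a : ℂ) + b) * Complex.I) * Complex.exp (((a : ℂ) + c) * Complex.I) *
          T m (ee a) (ee b) (ee c)) * Complex.I_mul_I
    rw [e1, Complex.re_ofReal_mul, neg_mul]
    congr 2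
    unfold T
    rw [Finset.mul_sum, Complex.re_sum]
    refine Finset.sum_congr rfl fun j hj => ?_
    rw [Finset.mul_sum, Complex.re_sum]
    refine Finset.sum_congr rfl fun k hk => ?_
    have hj' := Finset.mem_range.mp hj
    have hk' := Finset.mem_range.mp hk
    have e2 : ((m - j - k : ℕ) : ℝ) = (m : ℝ) - j - k := by
      have : m - j - k = m - (j + k) := by omega
      rw [this, Nat.cast_sub (by omega)]; push_cast; ring
    have e3 : Complex.exp ((a + b : ℝ) * Complex.I) * Complex.exp ((a + c : ℝ) * Complex.I) *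
        (((m : ℂ) + 1 - j - k) * (ee a ^ (m - j - k) * ee b ^ j * ee c ^ k)) =
        (((m : ℝ) + 1 - j - k : ℝ) : ℂ) *
          Complex.exp ((2 * ((m : ℝ) + 1 - j - k) * a + (2 * j + 1) * b +
          (2 * k + 1) * c : ℝ) * Complex.I) := by
      have e4 : Complex.exp ((2 * ((m : ℝ) + 1 - j - k) * a + (2 * j + 1) * b +
          (2 * k + 1) * c : ℝ) * Complex.I) =
          Complex.exp ((a + b : ℝ) * Complex.I) * Complex.exp ((a + c : ℝ) * Complex.I) *
            (ee a ^ (m - j - k) * ee b ^ j * ee c ^ k) := by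
        rw [ee_pow, ee_pow, ee_pow, ← Complex.exp_add, ← Complex.exp_add, ← Complex.exp_add,
          ← Complex.exp_add]
        congr 1
        rw [e2]
        push_cast
        ring
      rw [e4]
      push_cast
      ring
    rw [e3, Complex.re_ofReal_mul, Complex.exp_ofReal_mul_I_re]
  rw [hT] at hre
  linarith

end P5aux

open P5aux in
theorem P5 : StId := by
  intro n x y z hn
  obtain ⟨m, rfl⟩ : ∃ m, n = m + 2 := ⟨n - 2, by omega⟩
  have hn0 : ((m + 2 : ℕ) : ℝ) ≠ 0 := by positivity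
  set N : ℝ := ((m + 2 : ℕ) : ℝ) with hN
  set a := x / N with ha
  set b := y / N with hb
  set c := z / N with hc
  have hx : x = N * a := by rw [ha]; field_simp
  have hy : y = N * b := by rw [hb]; field_simp
  have hz : z = N * c := by rw [hc]; field_simp
  have h1 := omn_cos m a b
  have h2 := omn_cos m a c
  have h3 := omn_cos m b c
  rw [← hN, ← hx, ← hy] at h1
  rw [← hN, ← hx, ← hz] at h2
  rw [← hN, ← hy, ← hz] at h3
  rw [h1, h2, h3]
  have hmain := main m a b c
  rw [← hN] at hmain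
  have e1 : (x - y) / N = a - b := by rw [ha, hb]; ring
  have e2 : (x - z) / N = a - c := by rw [ha, hc]; ring
  rw [e1, e2]
  have hmN : N = (m : ℝ) + 2 := by rw [hN]; push_cast; ring
  have e3 : m + 2 - 1 = m + 1 := by omega
  rw [e3]
  have hsum : ∑ j ∈ Finset.range (m + 1), ∑ k ∈ Finset.range (m + 1 - j),
      (N - 1 - j - k) *
        Real.cos (2 * (1 - (((j + k + 1 : ℕ) : ℝ)) / N) * x +
          ((j + k + 1 : ℕ) : ℝ) / N * (y + z)) *
        Real.cos (((j : ℝ) - k) * (y - z) / N) =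
      ∑ j ∈ Finset.range (m + 1), ∑ k ∈ Finset.range (m + 1 - j),
        ((m : ℝ) + 1 - j - k) * Real.cos (2 * ((m : ℝ) + 1 - j - k) * a + (2 * j + 1) * b +
          (2 * k + 1) * c) := by
    have g1 : ∀ j k : ℕ, (N - 1 - j - k) *
        Real.cos (2 * (1 - (((j + k + 1 : ℕ) : ℝ)) / N) * x +
          ((j + k + 1 : ℕ) : ℝ) / N * (y + z)) *
        Real.cos (((j : ℝ) - k) * (y - z) / N) =
        1 / 2 * (((m : ℝ) + 1 - j - k) * Real.cos (2 * ((m : ℝ) + 1 - j - k) * a +
          (2 * j + 1) * b + (2 * k + 1) * c)) +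
        1 / 2 * (((m : ℝ) + 1 - k - j) * Real.cos (2 * ((m : ℝ) + 1 - k - j) * a +
          (2 * k + 1) * b + (2 * j + 1) * c)) := by
      intro j k
      have f1 : 2 * (1 - (((j + k + 1 : ℕ) : ℝ)) / N) * x + ((j + k + 1 : ℕ) : ℝ) / N * (y + z) =
          2 * ((m : ℝ) + 1 - j - k) * a + ((j : ℝ) + k + 1) * (b + c) := by
        rw [hx, hy, hz, hmN]
        rw [hmN] at hn0
        field_simp
        push_cast
        ring
      have f2 : ((j : ℝ) - k) * (y - z) / N = ((j : ℝ) - k) * (b - c) := by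
        rw [hb, hc]; ring
      rw [f1, f2]
      have f3 : Real.cos (2 * ((m : ℝ) + 1 - j - k) * a + (2 * j + 1) * b + (2 * k + 1) * c) =
          Real.cos ((2 * ((m : ℝ) + 1 - j - k) * a + ((j : ℝ) + k + 1) * (b + c)) +
            ((j : ℝ) - k) * (b - c)) := by congr 1; ring
      have f4 : Real.cos (2 * ((m : ℝ) + 1 - k - j) * a + (2 * k + 1) * b + (2 * j + 1) * c) =
          Real.cos ((2 * ((m : ℝ) + 1 - j - k) * a + ((j : ℝ) + k + 1) * (b + c)) -
            ((j : ℝ) - k) * (b - c)) := by congr 1; ring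
      rw [f3, f4, Real.cos_add _ (((j : ℝ) - k) * (b - c)),
        Real.cos_sub _ (((j : ℝ) - k) * (b - c)), hmN]
      ring
    simp only [g1, Finset.sum_add_distrib, ← Finset.mul_sum]
    rw [tri_symm (m + 1) (fun j k => ((m : ℝ) + 1 - k - j) *
      Real.cos (2 * ((m : ℝ) + 1 - k - j) * a + (2 * k + 1) * b + (2 * j + 1) * c))]
    ring
  rw [hsum]
  have hNN : (4 : ℝ) / N * Real.sin (a - b) * Real.sin (a - c) *
      ∑ j ∈ Finset.range (m + 1), ∑ k ∈ Finset.range (m + 1 - j),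
        ((m : ℝ) + 1 - j - k) * Real.cos (2 * ((m : ℝ) + 1 - j - k) * a + (2 * j + 1) * b +
          (2 * k + 1) * c) =
      1 / N * (4 * Real.sin (a - b) * Real.sin (a - c) *
      ∑ j ∈ Finset.range (m + 1), ∑ k ∈ Finset.range (m + 1 - j),
        ((m : ℝ) + 1 - j - k) * Real.cos (2 * ((m : ℝ) + 1 - j - k) * a + (2 * j + 1) * b +
          (2 * k + 1) * c)) := by ring
  rw [hNN, ← hmain, ← hx]
  ring

end H187LT
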