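import Pool.Agent.H187R2.LT.Defs

set_option autoImplicit false
open scoped Matrix BigOperators
open MeasureTheory

namespace H187LT

/-- L1: derivative of `Re Tr (G F)` along the flow `A' = G`. -/
def StDeriv : Prop := ∀ (N : ℕ) (c : ℕ → ℕ → ℝ) (n : ℕ) (A G : ℝ → Mat N) (G' : Mat N) (t : ℝ),
  (∀ a b, c a b = c b a) →
  (∀ i j, HasDerivAt (fun s => A s i j) (G t i j) t) →
  (∀ i j, HasDerivAt (fun s => G s i j) (G' i j) t) →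
  HasDerivAt (fun s => (Matrix.trace (G s * Fm c n (A s) (G s))).re)
    (2 * (Matrix.trace (G' * Fm c n (A t) (G t))).re + 2 * Dm c n (A t) (G t)) t

/-- L2: the general one-dimensional inequality (integration of the square). -/
def StGT : Prop := ∀ (N : ℕ) (c : ℕ → ℕ → ℝ) (n : ℕ) (R : ℝ) (G G' : ℝ → Mat N) (τ : ℝ → ℝ),
  0 < R → (∀ a b, c a b = c b a) →
  (∀ t i j, HasDerivAt (fun s => G s i j) (G' t i j) t) →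
  (∀ i j, Continuous (fun t => G' t i j)) →
  (∀ t, (G t).IsHermitian) → G (-R) = 0 → G R = 0 → Continuous τ →
  (∀ t (F : Mat N), F.IsHermitian →
    0 ≤ τ t + (Matrix.trace (G' t * F)).re + (Matrix.trace (G t * F * F)).re) →
  ∫ t in (-R)..R, (Dm c n (Am G R t) (G t) - Qm c n (Am G R t) (G t)) ≤ ∫ t in (-R)..R, τ t

/-- L3: the pointwise inequality for rank one `G = v v*`. -/
def StSP : Prop := ∀ (N : ℕ) (c : ℕ → ℕ → ℝ) (n : ℕ) (κ : ℝ) (A : Mat N) (v : Fin N → ℂ),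
  (∀ a b, c a b = c b a) → HalfBd A →
  (∀ x ∈ Set.Icc (-(1/2) : ℝ) (1/2), ∀ y ∈ Set.Icc (-(1/2) : ℝ) (1/2),
    ∀ z ∈ Set.Icc (-(1/2) : ℝ) (1/2), κ ≤ DD c n x z y - PP c n x y * PP c n z y) →
  κ * (∑ i, ‖v i‖ ^ 2) ^ 3 ≤
    Dm c n A (Matrix.vecMulVec v (star v)) - Qm c n A (Matrix.vecMulVec v (star v))

/-- L4: the approximating polynomials (of `k tan (k (x + y))`, `k < π/2`). -/
def StPoly : Prop := ∀ κ : ℝ, κ < Real.pi ^ 2 / 4 →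
  ∃ (n : ℕ) (c : ℕ → ℕ → ℝ), (∀ a b, c a b = c b a) ∧
    ∀ x ∈ Set.Icc (-(1/2) : ℝ) (1/2), ∀ y ∈ Set.Icc (-(1/2) : ℝ) (1/2),
    ∀ z ∈ Set.Icc (-(1/2) : ℝ) (1/2), κ ≤ DD c n x z y - PP c n x y * PP c n z y

/-- L5: the sharp one-dimensional kinetic inequality, for Bessel systems on `ℝ`. -/
def StLT1 : Prop := ∀ (N : ℕ) (u : Fin N → ℝ → ℂ),
  (∀ n, ContDiff ℝ 1 (u n)) → (∀ n, HasCompactSupport (u n)) →
  (∀ c : Fin N → ℂ, ∫ x, ‖∑ n, c n * u n x‖ ^ 2 ≤ ∑ n, ‖c n‖ ^ 2) →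
  Real.pi ^ 2 / 4 * ∫ x, (∑ n, ‖u n x‖ ^ 2) ^ 3 ≤ ∑ n, ∫ x, ‖deriv (u n) x‖ ^ 2

/-- L6: trial functions for the one-particle constant. -/
def StSech : Prop := ∀ ε : ℝ, 0 < ε → ∃ u : ℝ → ℂ, ContDiff ℝ 1 u ∧ HasCompactSupport u ∧ u ≠ 0 ∧
  (∫ x, ‖deriv u x‖ ^ 2) * (∫ x, ‖u x‖ ^ 2) ^ 2 ≤ (Real.pi ^ 2 / 4 + ε) * ∫ x, ‖u x‖ ^ 6

/-- L7: the case `d = 1` of the conjecture, with the value of the constant. -/
def StFinal : Prop :=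
  sInf {K : ℝ | ∃ N : ℕ, ∃ u : Fin N → EuclideanSpace ℝ (Fin 1) → ℂ,
          0 < N ∧
          (∀ n, ContDiff ℝ 1 (u n) ∧ HasCompactSupport (u n)) ∧
          (∀ n m, ∫ x, star (u n x) * u m x = if n = m then (1 : ℂ) else 0) ∧
          K = (∑ n, ∫ x, ∑ i : Fin 1, ‖fderiv ℝ (u n) x (EuclideanSpace.single i (1 : ℝ))‖ ^ 2)
              / ∫ x, (∑ n, ‖u n x‖ ^ 2) ^ (1 + 2 / ((1 : ℕ) : ℝ))} = Real.pi ^ 2 / 4 ∧
  sInf {K : ℝ | ∃ u : EuclideanSpace ℝ (Fin 1) → ℂ,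
              ContDiff ℝ 1 u ∧ HasCompactSupport u ∧ u ≠ 0 ∧
              K = (∫ x, ∑ i : Fin 1, ‖fderiv ℝ u x (EuclideanSpace.single i (1 : ℝ))‖ ^ 2)
                  * (∫ x, ‖u x‖ ^ 2) ^ (2 / ((1 : ℕ) : ℝ))
                  / ∫ x, ‖u x‖ ^ (2 + 4 / ((1 : ℕ) : ℝ))} = Real.pi ^ 2 / 4 ∧
  Real.pi ^ 2 / 4 ≤ (((1 : ℕ) : ℝ) / (((1 : ℕ) : ℝ) + 2) * (2 * Real.pi) ^ 2
            / ((MeasureTheory.volume (Metric.ball (0 : EuclideanSpace ℝ (Fin 1)) 1)).toReal)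
                ^ (2 / ((1 : ℕ) : ℝ)))

end H187LT
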