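import Pool.Agent.H187R2.LT.Stubs

set_option autoImplicit false
open scoped Matrix BigOperators
open MeasureTheory

namespace H187LT

/-- the profile `g(x) = (cosh 2x)^{-1/2}` -/
noncomputable def gs (x : ℝ) : ℝ := 1 / Real.sqrt (Real.cosh (2 * x))

/-- L6a: the integrals of the profile. -/
def StSechInt : Prop :=
  ContDiff ℝ 1 gs ∧ (∀ x, 0 < gs x ∧ gs x ≤ 1) ∧
  (∀ x, |gs x| ≤ 2 * Real.exp (-|x|)) ∧
  (∀ x, HasDerivAt gs (-(Real.sinh (2 * x) / Real.cosh (2 * x)) * gs x) x) ∧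
  Integrable (fun x => gs x ^ 2) ∧ (∫ x, gs x ^ 2) = Real.pi / 2 ∧
  Integrable (fun x => gs x ^ 6) ∧ (∫ x, gs x ^ 6) = Real.pi / 4 ∧
  Integrable (fun x => deriv gs x ^ 2) ∧ (∫ x, deriv gs x ^ 2) = Real.pi / 4

/-- L6b: cut-off of the profile. -/
def StCut : Prop := StSechInt → StSech

/-- L7a: transfer of functions, integrals and derivatives between `EuclideanSpace ℝ (Fin 1)` and `ℝ`:
`ι t = t • e₀`. -/
def StTransfer : Prop :=
  (∀ (E : Type) [NormedAddCommGroup E] [NormedSpace ℝ E] (f : EuclideanSpace ℝ (Fin 1) → E),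
    ∫ x, f x = ∫ t : ℝ, f (EuclideanSpace.single 0 t)) ∧
  (∀ (u : EuclideanSpace ℝ (Fin 1) → ℂ), ContDiff ℝ 1 u → HasCompactSupport u →
    ContDiff ℝ 1 (fun t : ℝ => u (EuclideanSpace.single 0 t)) ∧
    HasCompactSupport (fun t : ℝ => u (EuclideanSpace.single 0 t)) ∧
    ∀ t : ℝ, deriv (fun s : ℝ => u (EuclideanSpace.single 0 s)) t =
      fderiv ℝ u (EuclideanSpace.single 0 t) (EuclideanSpace.single 0 (1 : ℝ))) ∧
  (∀ (w : ℝ → ℂ), ContDiff ℝ 1 w → HasCompactSupport w →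
    ContDiff ℝ 1 (fun x : EuclideanSpace ℝ (Fin 1) => w (x 0)) ∧
    HasCompactSupport (fun x : EuclideanSpace ℝ (Fin 1) => w (x 0)) ∧
    ∀ t : ℝ, fderiv ℝ (fun x : EuclideanSpace ℝ (Fin 1) => w (x 0)) (EuclideanSpace.single 0 t)
      (EuclideanSpace.single 0 (1 : ℝ)) = deriv w t)

/-- L7b: assembly. -/
def StAssembly : Prop := StLT1 → StSech → StTransfer → StFinal

end H187LT
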