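import Pool.Agent.H187R2.LT.StubsM

set_option autoImplicit false
open scoped Matrix BigOperators ComplexOrder
open MeasureTheory

namespace H187LT

/-! ## The lifting step: scalars, scaling, pointwise inequality, rotation -/

/-- `bet k = ∫_0^1 (1-s)^{1/2} s^{(k-3)/2} ds` -/
noncomputable def bet (k : ℕ) : ℝ := ∫ s in (0 : ℝ)..1, Real.sqrt (1 - s) * s ^ (((k : ℝ) - 3) / 2)

/-- `sk k = bet k * th k` -/
noncomputable def sk (k : ℕ) : ℝ := bet k * th k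

/-- `mu k g = (g * th k)^(2/k)` -/
noncomputable def mu (k : ℕ) (g : ℝ) : ℝ := (g * th k) ^ (2 / (k : ℝ))

/-- the layers -/
noncomputable def hh (k : ℕ) (g τ : ℝ) : ℝ :=
  Real.sqrt (max (mu k g - τ) 0) * τ ^ (((k : ℝ) - 3) / 2) / sk k

/-- the coefficient `c(τ) = 2 sk τ^{(3-k)/2}` -/
noncomputable def cc (k : ℕ) (τ : ℝ) : ℝ := 2 * sk k * τ ^ ((3 - (k : ℝ)) / 2)

/-- I1: positivity of the constants. -/
def StPos : Prop := ∀ k : ℕ, 2 ≤ k → 0 < bet k ∧ 0 < th k ∧ 0 < sk k ∧ 0 < kap k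

/-- I2: the layers add up to `g`. -/
def StI2 : Prop := ∀ (k : ℕ) (g M : ℝ), 2 ≤ k → 0 ≤ g → mu k g ≤ M →
  IntervalIntegrable (fun τ => hh k g τ) volume 0 M ∧ ∫ τ in (0 : ℝ)..M, hh k g τ = g

/-- I3: the cost of the layers. -/
def StI3 : Prop := ∀ (k : ℕ) (g M : ℝ), 2 ≤ k → 0 ≤ g → mu k g ≤ M →
  IntervalIntegrable (fun τ => τ * hh k g τ) volume 0 M ∧
  IntervalIntegrable (fun τ => max (mu k g - τ) 0 * hh k g τ) volume 0 M ∧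
  (∫ τ in (0 : ℝ)..M, τ * hh k g τ) + (1 / 3) * (∫ τ in (0 : ℝ)..M, max (mu k g - τ) 0 * hh k g τ)
    = kap k * g ^ (1 + 2 / (k : ℝ))

/-- I4: the recursion of the constants. -/
def StI4 : Prop := ∀ k : ℕ, 2 ≤ k →
  th (k + 1) / th k * ((k : ℝ) + 3) =
    16 * bet k * (((k : ℝ) - 1) * ((k : ℝ) + 1) * ((k : ℝ) + 3) / 16)

/-- I5: the dual side. -/
def StI5 : Prop := ∀ (k : ℕ) (l M : ℝ), 2 ≤ k → 0 ≤ l → mu (k + 1) l ≤ M →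
  IntervalIntegrable (fun τ => (max (mu (k + 1) l - τ) 0) ^ 2 / (4 * cc k τ)) volume 0 M ∧
  mu (k + 1) l * l - (∫ τ in (0 : ℝ)..M, (max (mu (k + 1) l - τ) 0) ^ 2 / (4 * cc k τ))
    = kap (k + 1) * l ^ (1 + 2 / ((k : ℝ) + 1))

/-- I6: integrability of the quadratic terms. -/
def StI6 : Prop := ∀ (k : ℕ) (g g' M : ℝ), 2 ≤ k → 0 ≤ g → 0 ≤ g' → 0 ≤ M →
  IntervalIntegrable (fun τ => cc k τ * hh k g τ * hh k g' τ) volume 0 M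

/-- B2: scaled form of the `k = 1` inequality. -/
def StScale : Prop := ∀ (N : ℕ) (R κ : ℝ) (G Q T : ℝ → Mat N) (g b : Fin N → ℝ),
  0 < R → 0 < κ → IsGD N R G Q T → (∀ i, 0 ≤ b i) →
  Sm G R R = Matrix.diagonal (fun i => (g i : ℂ)) →
  2 * Real.sqrt (3 * κ) * ∑ i, ∑ j, b i * b j * ∫ t in (-R)..R, ‖G t i j‖ ^ 2 ≤
    ∑ i, b i * (∫ t in (-R)..R, (T t i i).re) + κ * ∑ i, (b i * g i) ^ 3

/-- B3: the pointwise inequality (fixed `t` and `τ`). -/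
def StPW : Prop := ∀ (N : ℕ) (G : Mat N) (hG : G.PosSemidef) (b v : Fin N → ℝ) (c τ : ℝ),
  (∀ i, 0 ≤ b i) → 0 < c → 0 ≤ τ →
  ∑ j, v j * hG.isHermitian.eigenvalues j *
      (∑ n, b n * ‖hG.isHermitian.eigenvectorBasis j n‖ ^ 2) ≤
    c * (∑ i, ∑ j, b i * b j * ‖G i j‖ ^ 2) + τ * (∑ n, b n * (G n n).re)
      + ∑ j, (max (v j - τ) 0) ^ 2 / (4 * c)

/-- B4: the lifting step when `S(R)` is diagonal, `k ≥ 2`. -/
def StGBdiag : Prop := ∀ (k N : ℕ) (R : ℝ) (G Q T : ℝ → Mat N) (β : ℝ → ℝ) (g : Fin N → ℝ),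
  2 ≤ k → 0 < R → IsGD N R G Q T → Continuous β → (∀ i, 0 ≤ g i) →
  Sm G R R = Matrix.diagonal (fun i => (g i : ℂ)) →
  (∀ t ∈ Set.Icc (-R) R, β t ≤ kap (k + 1) * Phi (1 + 2 / ((k : ℝ) + 1)) (G t)) →
  ∫ t in (-R)..R, β t ≤ ∫ t in (-R)..R, (Matrix.trace (T t)).re
    + kap k * ∑ i, g i ^ (1 + 2 / (k : ℝ))

/-- F1: properties of `Phi`. -/
def StPhi : Prop :=
  (∀ (N : ℕ) (G : Mat N), G.IsHermitian → (Matrix.trace (G * G)).re = Phi 2 G) ∧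
  (∀ (N : ℕ) (G : Mat N), G.IsHermitian → (Matrix.trace (G * G * G)).re = Phi 3 G) ∧
  (∀ (N : ℕ) (p : ℝ) (G U : Mat N), G.IsHermitian → Uᴴ * U = 1 → U * Uᴴ = 1 →
    Phi p (Uᴴ * G * U) = Phi p G) ∧
  (∀ (N : ℕ) (p : ℝ) (g : Fin N → ℝ),
    Phi p (Matrix.diagonal (fun i => (g i : ℂ)) : Mat N) = ∑ i, g i ^ p) ∧
  (∀ (N : ℕ) (p : ℝ) (v : Fin N → ℂ), 0 < p →
    Phi p (Matrix.vecMulVec v (star v)) = (∑ i, ‖v i‖ ^ 2) ^ p)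

/-- F2: values of the constants. -/
def StKap : Prop := kap 1 = Real.pi ^ 2 / 4 ∧ kap 2 = 2 * Real.sqrt (3 * kap 1) ∧
  ∀ d : ℕ, 1 ≤ d → kap d = (3 / 4 : ℝ) ^ (1 / (d : ℝ)) * ((d : ℝ) / ((d : ℝ) + 2) *
    (2 * Real.pi) ^ 2 / ((MeasureTheory.volume
      (Metric.ball (0 : EuclideanSpace ℝ (Fin d)) 1)).toReal) ^ (2 / (d : ℝ)))

/-- F3: Gram data: positivity, rotation. -/
def StRot : Prop := ∀ (N : ℕ) (R : ℝ) (G Q T : ℝ → Mat N), 0 < R → IsGD N R G Q T →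
  (∀ t, (G t).PosSemidef) ∧ (∀ t, (T t).PosSemidef) ∧ (Sm G R R).PosSemidef ∧
  ∀ M : Mat N, IsGD N R (fun t => Mᴴ * G t * M) (fun t => Mᴴ * Q t * M)
      (fun t => Mᴴ * T t * M) ∧
    Sm (fun t => Mᴴ * G t * M) R R = Mᴴ * Sm G R R * M

end H187LT
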