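import Pool.Agent.H187R2.LT.Stubs

set_option autoImplicit false
open scoped Matrix BigOperators ComplexOrder
open MeasureTheory

namespace H187LT

/-! ## The matrix inequality -/

/-- `omn n δ = (1/n) Σ_{l=1}^{n-1} (cos((1-2l/n)δ) - cos δ)`, a Riemann sum of `sinc δ - cos δ`. -/
noncomputable def omn (n : ℕ) (δ : ℝ) : ℝ :=
  (1 / (n : ℝ)) * ∑ l ∈ Finset.range (n - 1),
    (Real.cos ((1 - 2 * ((l : ℝ) + 1) / n) * δ) - Real.cos δ)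

/-- `om δ = sin δ / δ - cos δ` -/
noncomputable def om (δ : ℝ) : ℝ := Real.sinc δ - Real.cos δ

/-- P1: geometric series. -/
def StGeo : Prop := ∀ (m : ℕ) (ρ : Matrix (Fin m) (Fin m) ℝ), ρ.PosSemidef → (∀ i, ρ i i < 1) →
  (Matrix.of fun i j => 1 / (1 - ρ i j)).PosSemidef

/-- P2: the kernels `sin(lφ)/sin((l+1)φ)`. -/
def StRat : Prop := ∀ (m l : ℕ) (φ : Fin m → ℝ), 1 ≤ l →
  (∀ i, 0 < φ i ∧ φ i < Real.pi / (2 * ((l : ℝ) + 1))) →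
  (Matrix.of fun i j => Real.sin ((l : ℝ) * (φ i + φ j)) /
    Real.sin (((l : ℝ) + 1) * (φ i + φ j))).PosSemidef

/-- P3: the kernels `sin(qθ)/sin θ`, `q = l/n`. -/
def StQk : Prop := ∀ (m n l : ℕ) (θ : Fin m → ℝ), 1 ≤ l → l < n →
  (∀ i, 0 < θ i ∧ θ i < Real.pi / 2) →
  (Matrix.of fun i j => Real.sin ((l : ℝ) / n * (θ i + θ j)) /
    Real.sin (θ i + θ j)).PosSemidef

/-- P4: the kernels `cos(2(1-q)x + q(y+z))/cos(y+z)`. -/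
def StCk : Prop := ∀ (m n l : ℕ) (x : ℝ) (y : Fin m → ℝ), 1 ≤ l → l < n →
  |x| < Real.pi / 4 → (∀ i, |y i| < Real.pi / 4) →
  (Matrix.of fun i j => Real.cos (2 * (1 - (l : ℝ) / n) * x + (l : ℝ) / n * (y i + y j)) /
    Real.cos (y i + y j)).PosSemidef

/-- P5: the trigonometric identity. -/
def StId : Prop := ∀ (n : ℕ) (x y z : ℝ), 2 ≤ n →
  omn n (x - y) * Real.cos (x + y) + omn n (x - z) * Real.cos (x + z)
    - omn n (y - z) * Real.cos (y + z) =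
  4 / (n : ℝ) * Real.sin ((x - y) / n) * Real.sin ((x - z) / n) *
    ∑ j ∈ Finset.range (n - 1), ∑ k ∈ Finset.range (n - 1 - j),
      ((n : ℝ) - 1 - j - k) *
        Real.cos (2 * (1 - (((j + k + 1 : ℕ) : ℝ)) / n) * x + ((j + k + 1 : ℕ) : ℝ) / n * (y + z)) *
        Real.cos (((j : ℝ) - k) * (y - z) / n)

/-- P6: the certificate kernel is positive semidefinite. -/
def StL : Prop := ∀ (m n : ℕ) (x : ℝ) (y : Fin m → ℝ), 2 ≤ n →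
  |x| < Real.pi / 4 → (∀ i, |y i| < Real.pi / 4) →
  (Matrix.of fun i j =>
    (omn n (x - y i) * Real.cos (x + y i) + omn n (x - y j) * Real.cos (x + y j)
      - omn n (y i - y j) * Real.cos (y i + y j)) / Real.cos (y i + y j)).PosSemidef

/-- P7: the trilinear inequality for `omn n`. -/
def StPn : Prop := ∀ (N n : ℕ) (G : Mat N) (x : Fin N → ℝ), 2 ≤ n → G.PosSemidef →
  (∀ i, |x i| < Real.pi / 4) →
  0 ≤ ∑ i, ∑ j, ∑ r, (G i j * G j r * G r i).re *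
    (omn n (x i - x j) / (Real.cos (x i + x r) * Real.cos (x j + x r)))

/-- P8: the trilinear inequality for `om`. -/
def StMI : Prop := ∀ (N : ℕ) (G : Mat N) (x : Fin N → ℝ), G.PosSemidef →
  (∀ i, |x i| < Real.pi / 4) →
  0 ≤ ∑ i, ∑ j, ∑ r, (G i j * G j r * G r i).re *
    (om (x i - x j) / (Real.cos (x i + x r) * Real.cos (x j + x r)))

/-- P9: two-sided polynomial approximation. -/
def StPolyM : Prop := ∀ k ε : ℝ, 0 < k → k < Real.pi / 2 → 0 < ε →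
  ∃ (n : ℕ) (c : ℕ → ℕ → ℝ), (∀ a b, c a b = c b a) ∧
    ∀ x ∈ Set.Icc (-(1/2) : ℝ) (1/2), ∀ y ∈ Set.Icc (-(1/2) : ℝ) (1/2),
    ∀ z ∈ Set.Icc (-(1/2) : ℝ) (1/2),
      |DD c n x z y - PP c n x y * PP c n z y
        - k ^ 2 * (1 + om (k * (x - z)) / (Real.cos (k * (x + y)) * Real.cos (k * (z + y))))| ≤ ε

/-- P10: spectral form of `Dm - Qm`: for `A` with `HalfBd A` and any `G` there are a unitary
conjugate `H` of `G` and the eigenvalues `x` of `A` with the trilinear formula. -/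
def StSpec : Prop := ∀ (N : ℕ) (A G : Mat N), HalfBd A → G.IsHermitian →
  ∃ (U : Mat N) (x : Fin N → ℝ), Uᴴ * U = 1 ∧ U * Uᴴ = 1 ∧
    (∀ i, x i ∈ Set.Icc (-(1/2) : ℝ) (1/2)) ∧
    ∀ (n : ℕ) (c : ℕ → ℕ → ℝ), (∀ a b, c a b = c b a) →
      Dm c n A G - Qm c n A G =
        ∑ i, ∑ j, ∑ r, ((Uᴴ * G * U) i j * (Uᴴ * G * U) j r * (Uᴴ * G * U) r i).re *
          (DD c n (x i) (x j) (x r) - PP c n (x i) (x r) * PP c n (x j) (x r))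

/-- P11: the pointwise matrix inequality. -/
def StSPM : Prop := ∀ (N : ℕ) (k ε : ℝ) (n : ℕ) (c : ℕ → ℕ → ℝ) (A G : Mat N),
  0 < k → k < Real.pi / 2 → 0 < ε → (∀ a b, c a b = c b a) →
  (∀ x ∈ Set.Icc (-(1/2) : ℝ) (1/2), ∀ y ∈ Set.Icc (-(1/2) : ℝ) (1/2),
    ∀ z ∈ Set.Icc (-(1/2) : ℝ) (1/2),
      |DD c n x z y - PP c n x y * PP c n z y
        - k ^ 2 * (1 + om (k * (x - z)) / (Real.cos (k * (x + y)) * Real.cos (k * (z + y))))| ≤ ε) →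
  HalfBd A → G.PosSemidef →
  k ^ 2 * (Matrix.trace (G * G * G)).re - ε * (N : ℝ) ^ 3 * (Matrix.trace G).re ^ 3 ≤
    Dm c n A G - Qm c n A G

/-! ## Gram data and one-variable inequalities -/

/-- Gram data on `[-R, R]`: `G i j = ⟨u_i, u_j⟩`, `Q i j = ⟨∂u_i, u_j⟩`, `T i j = ⟨∂u_i, ∂u_j⟩`
(with `⟨f, g⟩ = ∫ f conj g`). -/
structure IsGD (N : ℕ) (R : ℝ) (G Q T : ℝ → Mat N) : Prop where
  hG : ∀ t i j, HasDerivAt (fun s => G s i j) (Q t i j + star (Q t j i)) t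
  hQ : ∀ i j, Continuous (fun t => Q t i j)
  hT : ∀ i j, Continuous (fun t => T t i j)
  hGh : ∀ t, (G t).IsHermitian
  hTh : ∀ t, (T t).IsHermitian
  hpos : ∀ t (α β : Fin N → ℂ), 0 ≤ (star α ⬝ᵥ (T t *ᵥ α)).re
    + 2 * (star α ⬝ᵥ (Q t *ᵥ β)).re + (star β ⬝ᵥ (G t *ᵥ β)).re
  hL : G (-R) = 0
  hR : G R = 0

/-- M1: the sharp matrix-valued one-dimensional inequality. -/
def StM1 : Prop := ∀ (N : ℕ) (R : ℝ) (G Q T : ℝ → Mat N), 0 < R → IsGD N R G Q T →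
  (∀ v : Fin N → ℂ, ∫ t in (-R)..R, (star v ⬝ᵥ (G t *ᵥ v)).re ≤ ∑ i, ‖v i‖ ^ 2) →
  Real.pi ^ 2 / 4 * ∫ t in (-R)..R, (Matrix.trace (G t * G t * G t)).re ≤
    ∫ t in (-R)..R, (Matrix.trace (T t)).re

/-- B1: the inequality for `k = 1`. -/
def StB1 : Prop := ∀ (N : ℕ) (R κ : ℝ) (G Q T : ℝ → Mat N), 0 < R → 0 < κ → IsGD N R G Q T →
  2 * Real.sqrt (3 * κ) * ∫ t in (-R)..R, (Matrix.trace (G t * G t)).re ≤
    ∫ t in (-R)..R, (Matrix.trace (T t)).re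
      + κ * (Matrix.trace (Sm G R R * Sm G R R * Sm G R R)).re

/-- sum of the `p`-th powers of the eigenvalues -/
noncomputable def Phi {N : ℕ} (p : ℝ) (G : Mat N) : ℝ :=
  open Classical in if h : G.IsHermitian then ∑ i, (h.eigenvalues i) ^ p else 0

/-- `th k = (√3/2) (2√π)^k Γ(k/2+1) = (√3/2) (2π)^k / ω_k` -/
noncomputable def th (k : ℕ) : ℝ :=
  Real.sqrt 3 / 2 * (2 * Real.sqrt Real.pi) ^ k * Real.Gamma ((k : ℝ) / 2 + 1)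

/-- `kap k = (k/(k+2)) (th k)^(2/k) = (3/4)^(1/k) K_k^cl` -/
noncomputable def kap (k : ℕ) : ℝ := (k : ℝ) / ((k : ℝ) + 2) * th k ^ (2 / (k : ℝ))

/-- B: the one-variable lifting step, `k ≥ 1`. -/
def StGB (k : ℕ) : Prop := ∀ (N : ℕ) (R : ℝ) (G Q T : ℝ → Mat N) (β : ℝ → ℝ), 0 < R →
  IsGD N R G Q T → Continuous β →
  (∀ t ∈ Set.Icc (-R) R, β t ≤ kap (k + 1) * Phi (1 + 2 / ((k : ℝ) + 1)) (G t)) →
  ∫ t in (-R)..R, β t ≤ ∫ t in (-R)..R, (Matrix.trace (T t)).re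
    + kap k * Phi (1 + 2 / (k : ℝ)) (Sm G R R)

/-- M2: the first step in terms of `Phi`. -/
def StG0 : Prop := ∀ (N : ℕ) (R : ℝ) (G Q T : ℝ → Mat N) (β : ℝ → ℝ), 0 < R →
  IsGD N R G Q T → Continuous β →
  (∀ v : Fin N → ℂ, ∫ t in (-R)..R, (star v ⬝ᵥ (G t *ᵥ v)).re ≤ ∑ i, ‖v i‖ ^ 2) →
  (∀ t ∈ Set.Icc (-R) R, β t ≤ kap 1 * Phi 3 (G t)) →
  ∫ t in (-R)..R, β t ≤ ∫ t in (-R)..R, (Matrix.trace (T t)).re

end H187LT
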